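import Pool.Agent.Work.MP_ba58b9_gt.Pf.Stmts2

/-!
# Hereditarily countably paracompact manifolds under the proper forcing axiom: assembly
-/

set_option autoImplicit false

open Set Filter Topology Ordinal

namespace Pool.Agent.Work.MP_ba58b9_gt

/-- Closed unbounded sets with compact traces contain closed unbounded sets which have a
neighbourhood whose closure has compact traces. -/
def PTame : Prop := PFA → ∀ (n : ℕ) (X : Type) [TopologicalSpace X] [T2Space X], LocN n X →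
  (∀ S : Set X, CPara S) → ∀ U : Ordinal.{0} → Set X, CI U →
    (∀ α < ω₁, ∃ Q : Set X, Q.Countable ∧ U α ⊆ closure Q) → ∀ W : Set X, OB U W → UBd U W →
      ∃ F O : Set X, F ⊆ W ∧ IsClosed F ∧ UBd U F ∧ F ⊆ O ∧ IsOpen O ∧ OB U (closure O)

theorem pTame (hs : PSep) (h0 : PPart) (hps : PPseudo) (h1 : PTdex) (h2 : PNoWild) (h3 : PSm1)
    (h4 : PSm2) (h5 : PPid) : PTame := by
  intro hPFA n X _ _ hX hCP U hU hsep W hW hWu
  obtain ⟨C₁, V, N, hT⟩ := h1 n X hX U hU W hW hWu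
  by_contra hcon
  have hnc : ∀ A : ℕ → Set Ordinal.{0}, (∀ k, A k ⊆ C₁ ∧ Tm U V (A k)) → ∀ β < ω₁,
      ∃ δ ∈ C₁, β < δ ∧ ∀ k, δ ∉ A k := by
    intro A hA β hβ
    by_contra hc
    push Not at hc
    obtain ⟨O, hO, hOB, hsub⟩ := h4 hs n X hX hCP U hU hsep W hW C₁ V N hT A hA β hβ hc
    have hclub : Club {δ | δ ∈ C₁ ∧ β < δ} := by
      refine ⟨fun δ hδ => hT.lv.club.1 δ hδ.1, ?_, ?_⟩
      · intro γ hγ
        obtain ⟨δ, hδ, h6⟩ := hT.lv.club.2.1 (max β γ) (max_lt hβ hγ)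
        exact ⟨δ, ⟨hδ, (le_max_left _ _).trans_lt h6⟩, (le_max_right _ _).trans_lt h6⟩
      · intro δ hδ h6 hlim
        refine ⟨hT.lv.club.2.2 δ hδ h6 fun γ hγ => ?_, ?_⟩
        · obtain ⟨ε, hε, h7, h8⟩ := hlim γ hγ
          exact ⟨ε, hε.1, h7, h8⟩
        · obtain ⟨ε, hε, h7, h8⟩ := hlim 0 (pos_iff_ne_zero.2 h6)
          exact hε.2.trans h8
    have hLv : Lv U W {δ | δ ∈ C₁ ∧ β < δ} := hT.lv.sub' hclub fun δ hδ => hδ.1
    refine hcon ⟨_, O, inter_subset_left, hLv.closed hU hW, ?_, hsub, hO, hOB⟩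
    intro α hα hsubα
    obtain ⟨δ, hδ, h6⟩ := hclub.2.1 α hα
    obtain ⟨x, hxW, hxb⟩ := hT.ne δ hδ.1
    exact hxb.2 (hU.mono α δ h6.le (hclub.1 δ hδ) (hsubα ⟨hxW, mem_biUnion hδ hxb⟩))
  obtain ⟨S, D, hS1, hS2, hD1, hD2, hSD⟩ := h5 hPFA X U W C₁ V N hT
    (h3 (ma_of_pfa hPFA) hps X U hU W hW C₁ V N hT) hnc
  exact h2 h0 X hCP U hU W hW C₁ V N hT S D hS1 hS2 hD1 hD2 hSD

/-- There are no adapted chains. -/
theorem no_chain_pfa (hPFA : PFA) (h0 : PTame) (h1 : PInf) (h2 : PTrace) (h3 : PIsoF) {n : ℕ}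
    (hn : 2 ≤ n) {X : Type} [TopologicalSpace X] [T2Space X] (hX : LocN n X)
    (hCP : ∀ S : Set X, CPara S) {U : Ordinal.{0} → Set X} (hU : CI U)
    (hsep : ∀ α < ω₁, ∃ Q : Set X, Q.Countable ∧ U α ⊆ closure Q)
    (hst : Stat {δ | Lim δ ∧ ∀ e, ¬ Iso (bd (U δ)) e}) {A : Set X} (hA : OB U A)
    (hu : UBd U A) : False := by
  obtain ⟨hLC, -, hFC, -, -⟩ := itemZ2 n X hX
  obtain ⟨W, hWA, hW⟩ := atom_exists hU hCP hA hu
  obtain ⟨F, O, hFW, hFc, hFu, hFO, hO, hOB⟩ := h0 hPFA n X hX hCP U hU hsep W hW.ob hW.ub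
  have hF : Atom U F := hW.sub hFc hFW hFu
  have hSm : Sm U (closure O) := h1 hPFA X U hU hCP _ hOB
  obtain ⟨A', V, hA', hA'O, hV, hAV, hZ⟩ := h2 (ma_of_pfa hPFA) n hn X hX hCP U hU hsep F O hF hO
    hFO hOB hSm
  exact h3 hPFA X U hU hst O A' V hO hA' hA'O hV hAV hZ

theorem ci_of_chain {X : Type} [TopologicalSpace X] {U N : Ordinal.{0} → Set X}
    (h : IsChain U N) : CI U := by
  refine ⟨h.opnU, fun α β hαβ hβ => ?_, fun δ hδ => h.lim δ hδ⟩
  rcases hαβ.lt_or_eq with h1 | h1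
  · exact subset_union_left.trans (h.mono α β h1 hβ)
  · rw [h1]

/-- The main theorem. -/
theorem metrizable_of_pfa' (hs : PSep) (hc : PChain) (h0 : PTame) (h1 : PInf) (h2 : PTrace)
    (h3 : PIsoF) (hPFA : PFA) (n : ℕ) (hn : 2 ≤ n) (X : Type) [TopologicalSpace X]
    [T2Space X] (hX : LocN n X) (hconn : ConnectedSpace X) (hCP : ∀ S : Set X, CPara S) :
    SecondCountableTopology X ∧ TopologicalSpace.MetrizableSpace X := by
  have hMA := ma_of_pfa hPFA
  by_cases hNB : NB X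
  · exact metrizable_of_ma hMA n hn X hX hconn hCP (Or.inr hNB)
  have hsc : SecondCountableTopology X := by
    by_contra hsc
    obtain ⟨hLC, -, hFC, -, -⟩ := itemZ2 n X hX
    unfold NB at hNB
    push Not at hNB
    obtain ⟨A, hA, hω, hAn⟩ := hNB
    have hAQ : ∀ Q : Set X, Q.Countable → IsCompact (A ∩ closure Q) := by
      intro Q hQ
      exact hs n X hX hCP Q _ hQ (hA.inter isClosed_closure) inter_subset_right
        (fun C hC hCc => hω C (hC.trans inter_subset_left) hCc)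
    obtain ⟨U, N, hUN, hU1, hU2⟩ := hc n X hX hconn hsc A hA hAn hAQ
    have hCI := ci_of_chain hUN
    have hst := zIso n hn X hX U N hUN
    have hcpt : ∀ α < ω₁, IsCompact (A ∩ closure (U α)) := by
      intro α hα
      obtain ⟨Q, hQ, hQ2⟩ := hUN.sep α hα
      have h4 : A ∩ closure (U α) = (A ∩ closure Q) ∩ closure (U α) := by
        ext x
        constructor
        · rintro ⟨h5, h6⟩
          exact ⟨⟨h5, closure_minimal hQ2 isClosed_closure h6⟩, h6⟩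
        · rintro ⟨⟨h5, -⟩, h6⟩
          exact ⟨h5, h6⟩
      rw [h4]
      exact (hAQ Q hQ).inter_right isClosed_closure
    set A' : Set X := A ∩ {x | ∃ α < ω₁, x ∈ U α} with hA'
    have hcl : IsClosed A' := by
      rw [← isSeqClosed_iff_isClosed]
      intro x p hx hp
      choose lv hlv1 hlv2 using fun k => (hx k).2
      obtain ⟨δ, hδ, hle⟩ := seq_sup lv hlv1
      have h4 : p ∈ closure (U δ) := mem_closure_of_tendsto hp
        (Eventually.of_forall fun k => hCI.mono _ _ (hle k) hδ (hlv2 k))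
      have h5 : p ∈ A := hA.mem_of_tendsto hp (Eventually.of_forall fun k => (hx k).1)
      exact ⟨h5, δ + 1, Z1_succ hδ, hU1 δ hδ ⟨h5, h4⟩⟩
    have hOB : OB U A' := by
      refine ⟨hcl, fun x hx => hx.2, fun α hα => ?_⟩
      have h4 : A' ∩ closure (U α) = A ∩ closure (U α) := by
        ext x
        constructor
        · rintro ⟨⟨h5, -⟩, h6⟩
          exact ⟨h5, h6⟩
        · rintro ⟨h5, h6⟩
          exact ⟨⟨h5, α + 1, Z1_succ hα, hU1 α hα ⟨h5, h6⟩⟩, h6⟩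
      rw [h4]
      exact hcpt α hα
    have hub : UBd U A' := by
      intro α hα hsub
      obtain ⟨x, hxA, hx1, hx2⟩ := hU2 α hα
      exact hx2 (hsub ⟨hxA, α + 1, Z1_succ hα, hx1⟩)
    exact no_chain_pfa hPFA h0 h1 h2 h3 hn hX hCP hCI hUN.sep hst hOB hub
  exact ⟨hsc, (itemZ2 n X hX).2.2.2.1 hsc⟩

end Pool.Agent.Work.MP_ba58b9_gt
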