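import Pool.Agent.Work.MP_ba58b9_gt.Pf.GmE

/-!
# Chains of open sets and closed sets with compact traces
-/

set_option autoImplicit false

open Set Filter Topology Ordinal

namespace Pool.Agent.Work.MP_ba58b9_gt

/-- Continuous increasing chains of open sets. -/
structure CI {X : Type} [TopologicalSpace X] (U : Ordinal.{0} → Set X) : Prop where
  opn : ∀ α < ω₁, IsOpen (U α)
  mono : ∀ α β, α ≤ β → β < ω₁ → U α ⊆ U β
  lim : ∀ δ, Lim δ → U δ ⊆ ⋃ β, ⋃ (_ : β < δ), U β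

/-- Closed sets covered by the chain, with compact traces. -/
structure OB {X : Type} [TopologicalSpace X] (U : Ordinal.{0} → Set X) (B : Set X) : Prop where
  cl : IsClosed B
  cov : ∀ x ∈ B, ∃ α < ω₁, x ∈ U α
  cpt : ∀ α < ω₁, IsCompact (B ∩ closure (U α))

/-- Sets which are not contained in a member of the chain. -/
def UBd {X : Type} (U : Ordinal.{0} → Set X) (F : Set X) : Prop := ∀ α < ω₁, ¬ F ⊆ U α

/-- The club `C` separates the levels of `B`. -/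
structure Lv {X : Type} [TopologicalSpace X] (U : Ordinal.{0} → Set X) (B : Set X)
    (C : Set Ordinal.{0}) : Prop where
  club : Club C
  lim : ∀ δ ∈ C, Lim δ
  sub : ∀ δ ∈ C, ∀ β < δ, B ∩ closure (U β) ⊆ U δ

section

variable {X : Type} [TopologicalSpace X] {U : Ordinal.{0} → Set X}

theorem OB.mono {B F : Set X} (h : OB U B) (hF : IsClosed F) (hFB : F ⊆ B) : OB U F := by
  refine ⟨hF, fun x hx => h.cov x (hFB hx), fun α hα => ?_⟩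
  have : F ∩ closure (U α) = F ∩ (B ∩ closure (U α)) := by
    rw [← inter_assoc, inter_eq_left.2 hFB]
  rw [this]
  exact (h.cpt α hα).inter_left hF

theorem OB.union {B F : Set X} (h : OB U B) (hF : OB U F) : OB U (B ∪ F) := by
  refine ⟨h.cl.union hF.cl, ?_, fun α hα => ?_⟩
  · rintro x (hx | hx)
    · exact h.cov x hx
    · exact hF.cov x hx
  · rw [union_inter_distrib_right]
    exact (h.cpt α hα).union (hF.cpt α hα)

theorem OB.empty : OB U (∅ : Set X) :=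
  ⟨isClosed_empty, fun x hx => absurd hx (notMem_empty _), fun α _ => by
    rw [empty_inter]; exact isCompact_empty⟩

theorem OB.sUnion {𝒜 : Set (Set X)} (hf : 𝒜.Finite) (h : ∀ A ∈ 𝒜, OB U A) : OB U (⋃₀ 𝒜) := by
  induction 𝒜, hf using Set.Finite.induction_on with
  | empty => rw [sUnion_empty]; exact OB.empty
  | insert _ _ ih =>
    rw [sUnion_insert]
    exact (h _ (mem_insert _ _)).union (ih fun A hA => h A (mem_insert_of_mem _ hA))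

theorem Lv.mono {B F : Set X} {C : Set Ordinal.{0}} (h : Lv U B C) (hFB : F ⊆ B) : Lv U F C :=
  ⟨h.club, h.lim, fun δ hδ β hβ => (inter_subset_inter_left _ hFB).trans (h.sub δ hδ β hβ)⟩

theorem Lv.sub' {B : Set X} {C D : Set Ordinal.{0}} (h : Lv U B C) (hD : Club D) (hDC : D ⊆ C) :
    Lv U B D :=
  ⟨hD, fun δ hδ => h.lim δ (hDC hδ), fun δ hδ => h.sub δ (hDC hδ)⟩

theorem CI.cpt_sub (h : CI U) {δ : Ordinal.{0}} (hδ : Lim δ) {K : Set X} (hK : IsCompact K)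
    (hKU : K ⊆ U δ) : ∃ β < δ, K ⊆ U β := by
  have hne : Nonempty (Iio δ) := ⟨⟨0, pos_iff_ne_zero.2 hδ.2.1⟩⟩
  obtain ⟨β, hβ⟩ := hK.elim_directed_cover (fun β : Iio δ => U β)
    (fun β => h.opn β (β.2.trans hδ.1)) (by
      intro x hx
      obtain ⟨β, hβ⟩ := mem_iUnion.1 (h.lim δ hδ (hKU hx))
      obtain ⟨hβα, hβ⟩ := mem_iUnion.1 hβ
      exact mem_iUnion.2 ⟨⟨β, hβα⟩, hβ⟩) (by
      intro β γ
      rcases le_total β γ with h' | h'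
      · exact ⟨γ, h.mono β γ h' (γ.2.trans hδ.1), Subset.rfl⟩
      · exact ⟨β, Subset.rfl, h.mono γ β h' (β.2.trans hδ.1)⟩)
  exact ⟨β, β.2, hβ⟩

theorem CI.cpt_bd (h : CI U) {K : Set X} (hK : IsCompact K)
    (hcov : ∀ x ∈ K, ∃ α < ω₁, x ∈ U α) : ∃ β < ω₁, K ⊆ U β := by
  have hne : Nonempty (Iio (ω₁ : Ordinal.{0})) := ⟨⟨0, Ordinal.omega_pos 1⟩⟩
  obtain ⟨β, hβ⟩ := hK.elim_directed_cover (fun β : Iio (ω₁ : Ordinal.{0}) => U β)
    (fun β => h.opn β β.2) (by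
      intro x hx
      obtain ⟨β, hβ, hx⟩ := hcov x hx
      exact mem_iUnion.2 ⟨⟨β, hβ⟩, hx⟩) (by
      intro β γ
      rcases le_total β γ with h' | h'
      · exact ⟨γ, h.mono β γ h' γ.2, Subset.rfl⟩
      · exact ⟨β, Subset.rfl, h.mono γ β h' β.2⟩)
  exact ⟨β, β.2, hβ⟩

theorem OB.lv (h : CI U) {B : Set X} (hB : OB U B) : ∃ C, Lv U B C := by
  classical
  have h1 : ∀ α : Ordinal.{0}, ∃ β : Ordinal.{0}, α < ω₁ → β < ω₁ ∧ B ∩ closure (U α) ⊆ U β := by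
    intro α
    by_cases hα : α < ω₁
    · obtain ⟨β, hβ, h2⟩ := h.cpt_bd (hB.cpt α hα) (fun x hx => hB.cov x hx.1)
      exact ⟨β, fun _ => ⟨hβ, h2⟩⟩
    · exact ⟨0, fun h' => absurd h' hα⟩
  choose g hg using h1
  refine ⟨_, Z1_diag (fun α => {δ | g α < δ ∧ δ < ω₁}) (fun α hα => Z1_Ioi (hg α hα).1),
    fun δ hδ => hδ.1, fun δ hδ β hβ => ?_⟩
  exact (hg β (hβ.trans hδ.1.1)).2.trans (h.mono _ _ (hδ.2 β hβ).1.le hδ.1.1)

theorem Lv.disj {B : Set X} {C : Set Ordinal.{0}} (hC : Lv U B C) {α β : Ordinal.{0}}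
    (hα : α ∈ C) (hβ : β ∈ C) (hne : α ≠ β) {x : X} (hxB : x ∈ B) (hx : x ∈ bd (U α)) :
    x ∉ bd (U β) := by
  intro hx'
  rcases lt_or_gt_of_ne hne with h1 | h1
  · exact hx'.2 (hC.sub β hβ α h1 ⟨hxB, hx.1⟩)
  · exact hx.2 (hC.sub α hα β h1 ⟨hxB, hx'.1⟩)

omit [TopologicalSpace X] in
theorem UBd.mono {F G : Set X} (h : UBd U F) (hFG : F ⊆ G) : UBd U G := fun α hα h' =>
  h α hα (hFG.trans h')

omit [TopologicalSpace X] in
theorem not_ubd_empty : ¬ UBd U (∅ : Set X) := fun h =>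
  h 0 (Ordinal.omega_pos 1) (empty_subset _)

omit [TopologicalSpace X] in
theorem not_ubd {F : Set X} (h : ¬ UBd U F) : ∃ α < ω₁, F ⊆ U α := by
  unfold UBd at h
  push Not at h
  exact h

theorem CI.ubd_diff (h : CI U) {F : Set X} (hF : UBd U F) {γ : Ordinal.{0}} (hγ : γ < ω₁) :
    UBd U (F \ U γ) := by
  intro α hα hsub
  refine hF (max α γ) (max_lt hα hγ) fun x hx => ?_
  by_cases hxγ : x ∈ U γ
  · exact h.mono _ _ (le_max_right _ _) (max_lt hα hγ) hxγ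
  · exact h.mono _ _ (le_max_left _ _) (max_lt hα hγ) (hsub ⟨hx, hxγ⟩)

/-- a union of two bounded sets is bounded -/
theorem CI.ubd_union (h : CI U) {F G : Set X} (hFG : UBd U (F ∪ G)) : UBd U F ∨ UBd U G := by
  by_contra hcon
  push Not at hcon
  obtain ⟨h1, h2⟩ := hcon
  obtain ⟨α, hα, h1⟩ := not_ubd h1
  obtain ⟨β, hβ, h2⟩ := not_ubd h2
  refine hFG (max α β) (max_lt hα hβ) (union_subset ?_ ?_)
  · exact h1.trans (h.mono _ _ (le_max_left _ _) (max_lt hα hβ))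
  · exact h2.trans (h.mono _ _ (le_max_right _ _) (max_lt hα hβ))

/-- finite unions of bounded sets are bounded -/
theorem CI.ubd_sUnion (h : CI U) {𝒜 : Set (Set X)} (h𝒜 : 𝒜.Finite) {H : Set X}
    (hu : UBd U (H ∩ ⋃₀ 𝒜)) : ∃ A ∈ 𝒜, UBd U (H ∩ A) := by
  induction 𝒜, h𝒜 using Set.Finite.induction_on with
  | empty =>
    rw [sUnion_empty, inter_empty] at hu
    exact absurd hu not_ubd_empty
  | @insert A 𝒜 hA h𝒜 ih =>
    rw [sUnion_insert, inter_union_distrib_left] at hu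
    rcases h.ubd_union hu with h1 | h1
    · exact ⟨A, mem_insert _ _, h1⟩
    · obtain ⟨B, hB, h2⟩ := ih h1
      exact ⟨B, mem_insert_of_mem _ hB, h2⟩

theorem seq_sup (f : ℕ → Ordinal.{0}) (hf : ∀ n, f n < ω₁) : ∃ δ < ω₁, ∀ n, f n ≤ δ :=
  ⟨⨆ n, f n, Ordinal.iSup_lt_omega_one hf, fun n => Ordinal.le_iSup f n⟩

/-- sequences in sets with compact traces are bounded -/
theorem OB.seq_bd (h : CI U) {B : Set X} (hB : OB U B) (g : ℕ → X) (hg : ∀ i, g i ∈ B) :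
    ∃ α < ω₁, ∀ i, g i ∈ U α := by
  choose lv hlv1 hlv2 using fun i => hB.cov (g i) (hg i)
  obtain ⟨δ, hδ, hle⟩ := seq_sup lv hlv1
  exact ⟨δ, hδ, fun i => h.mono _ _ (hle i) hδ (hlv2 _)⟩

/-- countable compactness -/
theorem OB.cluster (h : CI U) {B : Set X} (hB : OB U B) (g : ℕ → X) (hg : ∀ i, g i ∈ B) :
    ∃ p ∈ B, ∀ m, p ∈ closure (g '' Ici m) := by
  obtain ⟨α, hα, hgα⟩ := hB.seq_bd h g hg
  obtain ⟨p, hp, hp2⟩ := seq_cluster (hB.cpt α hα) g (fun i => ⟨hg i, subset_closure (hgα i)⟩)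
  exact ⟨p, hp.1, hp2⟩

/-- Closed unbounded sets meet the boundaries of club many members. -/
theorem OB.ub_club (h : CI U) {F : Set X} (hF : OB U F) (hu : UBd U F) :
    ∃ C, Club C ∧ ∀ δ ∈ C, Lim δ ∧ (F ∩ bd (U δ)).Nonempty := by
  classical
  have h1 : ∀ α : Ordinal.{0}, ∃ x : X, x ∈ F ∧ (α < ω₁ → x ∉ U α) := by
    intro α
    by_cases hα : α < ω₁
    · obtain ⟨x, hx, hx2⟩ := not_subset.1 (hu α hα)
      exact ⟨x, hx, fun _ => hx2⟩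
    · obtain ⟨x, hx, -⟩ := not_subset.1 (hu 0 (Ordinal.omega_pos 1))
      exact ⟨x, hx, fun h => absurd h hα⟩
  choose g hg1 hg2 using h1
  choose lv hlv1 hlv2 using fun α => hF.cov (g α) (hg1 α)
  refine ⟨_, Z1_diag (fun α => {δ | lv α < δ ∧ δ < ω₁}) (fun α _ => Z1_Ioi (hlv1 _)),
    fun δ hδ => ⟨hδ.1, ?_⟩⟩
  by_contra hcon
  rw [not_nonempty_iff_eq_empty] at hcon
  have hsub : F ∩ closure (U δ) ⊆ U δ := by
    rintro x ⟨hx1, hx2⟩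
    by_contra hx3
    have : x ∈ F ∩ bd (U δ) := ⟨hx1, hx2, hx3⟩
    rw [hcon] at this
    exact this
  obtain ⟨β, hβ, h2⟩ := h.cpt_sub hδ.1 (hF.cpt δ hδ.1.1) hsub
  refine hg2 β (hβ.trans hδ.1.1) (h2 ⟨hg1 β, subset_closure ?_⟩)
  exact h.mono _ _ (hδ.2 β hβ).1.le hδ.1.1 (hlv2 _)

/-- The traces on the boundaries over a club form a closed set. -/
theorem Lv.closed (h : CI U) {B : Set X} (hB : OB U B) {C : Set Ordinal.{0}} (hC : Lv U B C) :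
    IsClosed (B ∩ ⋃ δ ∈ C, bd (U δ)) := by
  rw [← closure_subset_iff_isClosed]
  intro x hx
  have hxB : x ∈ B := closure_minimal inter_subset_left hB.cl hx
  refine ⟨hxB, ?_⟩
  by_contra hx'
  obtain ⟨α₀, hα₀, hxα₀⟩ := hB.cov x hxB
  have hne : {α : Ordinal.{0} | x ∈ U α}.Nonempty := ⟨α₀, hxα₀⟩
  set α := sInf {α : Ordinal.{0} | x ∈ U α} with hαdef
  have hxα : x ∈ U α := csInf_mem hne
  have hle : ∀ β, x ∈ U β → α ≤ β := fun β h' =>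
    csInf_le' (s := {α : Ordinal.{0} | x ∈ U α}) h'
  have hα : α < ω₁ := lt_of_le_of_lt (hle α₀ hxα₀) hα₀
  -- the elements of `C` below `α`
  have hx2 : x ∈ closure (B ∩ ⋃ δ ∈ {δ | δ ∈ C ∧ δ < α}, bd (U δ)) := by
    rw [mem_closure_iff]
    intro o ho hxo
    obtain ⟨y, ⟨hyo, hyα⟩, hyB, hyK⟩ := mem_closure_iff.1 hx (o ∩ U α) (ho.inter (h.opn α hα))
      ⟨hxo, hxα⟩
    obtain ⟨δ, hδ, hyδ⟩ := mem_iUnion₂.1 hyK
    refine ⟨y, hyo, hyB, mem_iUnion₂.2 ⟨δ, ⟨hδ, ?_⟩, hyδ⟩⟩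
    by_contra hlt
    exact hyδ.2 (h.mono α δ (not_lt.1 hlt) (hC.club.1 δ hδ) hyα)
  rcases ({δ | δ ∈ C ∧ δ < α} : Set Ordinal.{0}).eq_empty_or_nonempty with he | hne2
  · rw [he] at hx2
    simp at hx2
  · -- the supremum
    have hcount : ({δ | δ ∈ C ∧ δ < α} : Set Ordinal.{0}).Countable :=
      (Z1_countable hα).mono fun δ hδ => hδ.2
    obtain ⟨γ, hγ1, hγ2, hγ3⟩ := ctbl_lub hcount hne2 (fun δ => δ) (fun δ hδ => hδ.2.trans hα)
    have hγC : γ ∈ C := by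
      by_cases hmem : ∃ δ ∈ C, δ < α ∧ γ ≤ δ
      · obtain ⟨δ, h1, h2, h3⟩ := hmem
        have : γ = δ := le_antisymm h3 (hγ2 δ ⟨h1, h2⟩)
        rw [this]
        exact h1
      · push Not at hmem
        obtain ⟨δ0, hδ0⟩ := hne2
        refine hC.club.2.2 γ hγ1 ?_ fun β hβ => ?_
        · have h4 := hmem δ0 hδ0.1 hδ0.2
          exact pos_iff_ne_zero.1 (lt_of_le_of_lt zero_le h4)
        · obtain ⟨δ, hδ, h5⟩ := hγ3 β hβ
          exact ⟨δ, hδ.1, h5, hmem δ hδ.1 hδ.2⟩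
    have hx3 : x ∈ closure (U γ) := by
      have hsub : (B ∩ ⋃ δ ∈ {δ | δ ∈ C ∧ δ < α}, bd (U δ)) ⊆ closure (U γ) := by
        rintro y ⟨-, hy⟩
        obtain ⟨δ, hδ, hyδ⟩ := mem_iUnion₂.1 hy
        exact closure_mono (h.mono _ _ (hγ2 δ hδ) hγ1) hyδ.1
      exact closure_minimal hsub isClosed_closure hx2
    have hxγ : x ∈ U γ := by
      by_contra hxγ
      exact hx' (mem_biUnion hγC ⟨hx3, hxγ⟩)
    have h6 := hle γ hxγ
    -- then `α = γ`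
    have h7 : ¬ γ < α := not_lt.2 h6
    have h8 : γ ≤ α := by
      by_contra hcon
      obtain ⟨δ, hδ, h9⟩ := hγ3 α (not_le.1 hcon)
      exact absurd hδ.2 (not_lt.2 h9.le)
    have h9 : γ = α := le_antisymm h8 h6
    have hLγ := hC.lim γ hγC
    obtain ⟨β, hβ⟩ := mem_iUnion.1 (h.lim γ hLγ hxγ)
    obtain ⟨hβγ, hβ⟩ := mem_iUnion.1 hβ
    exact absurd (hle β hβ) (not_le.2 (h9 ▸ hβγ))

/-- If an open set contains the trace of a closed set on the boundaries over a club, then it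
contains a tail of this set. -/
theorem OB.tail (h : CI U) {C : Set Ordinal.{0}} (hC : Club C) (hlim : ∀ δ ∈ C, Lim δ)
    {G O : Set X} (hG : OB U G) (hO : IsOpen O) (hGO : ∀ δ ∈ C, G ∩ bd (U δ) ⊆ O) :
    ∃ η < ω₁, G \ U η ⊆ O := by
  have h1 : ∀ δ : Ordinal.{0}, ∃ β, δ ∈ C → β < δ ∧ (G ∩ closure (U δ)) \ O ⊆ U β := by
    intro δ
    by_cases hδ : δ ∈ C
    · have hK : IsCompact ((G ∩ closure (U δ)) \ O) := (hG.cpt δ (hC.1 δ hδ)).diff hO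
      obtain ⟨β, hβ, h2⟩ := h.cpt_sub (hlim δ hδ) hK (by
        rintro x ⟨⟨hx1, hx2⟩, hx3⟩
        by_contra hx4
        exact hx3 (hGO δ hδ ⟨hx1, hx2, hx4⟩))
      exact ⟨β, fun _ => ⟨hβ, h2⟩⟩
    · exact ⟨0, fun h' => absurd h' hδ⟩
  choose f hf using h1
  obtain ⟨η, hη⟩ := Z1_fodor C (club_stat hC) f (fun δ hδ => (hf δ hδ).1)
  obtain ⟨δ₀, ⟨hδ₀, hfδ₀⟩, -⟩ := hη _ (Z1_Ioi (Ordinal.omega_pos 1))
  have hηω : η < ω₁ := by
    rw [← hfδ₀]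
    exact (hf δ₀ hδ₀).1.trans (hC.1 δ₀ hδ₀)
  refine ⟨η, hηω, ?_⟩
  rintro x ⟨hx1, hx2⟩
  by_contra hx3
  obtain ⟨α, hα, hxα⟩ := hG.cov x hx1
  obtain ⟨δ, ⟨hδ, hfδ⟩, h3⟩ := hη _ (Z1_Ioi hα)
  have h4 := (hf δ hδ).2 ⟨⟨hx1, subset_closure (h.mono _ _ h3.1.le h3.2 hxα)⟩, hx3⟩
  rw [hfδ] at h4
  exact hx2 h4

/-- Closures of unions of compact sets on a sparse set of levels. -/
theorem cl_levels [T2Space X] (h : CI U) {B : Set X} (hB : OB U B) {C₁ C T : Set Ordinal.{0}}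
    (hC₁ : Lv U B C₁) (hTC : T ⊆ C₁)
    (hTl : ∀ δ < ω₁, δ ≠ 0 → (∀ β < δ, ∃ t ∈ T, β < t ∧ t < δ) → δ ∈ C)
    {E : Ordinal.{0} → Set X} (hE : ∀ t ∈ T, IsCompact (E t)) (hEB : ∀ t ∈ T, E t ⊆ B ∩ bd (U t)) :
    closure (⋃ t ∈ T, E t) ⊆ (⋃ t ∈ T, E t) ∪ (B ∩ ⋃ δ ∈ C, bd (U δ)) := by
  intro x hx
  by_contra hcon
  have hx1 : x ∉ ⋃ t ∈ T, E t := fun h' => hcon (Or.inl h')
  have hUB : (⋃ t ∈ T, E t) ⊆ B := iUnion₂_subset fun t ht => (hEB t ht).trans inter_subset_left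
  have hxB : x ∈ B := closure_minimal hUB hB.cl hx
  have hx2 : x ∉ ⋃ δ ∈ C, bd (U δ) := fun h' => hcon (Or.inr ⟨hxB, h'⟩)
  obtain ⟨α₀, hα₀, hxα₀⟩ := hB.cov x hxB
  -- points below a level
  have hlow : x ∈ closure (⋃ t ∈ {t | t ∈ T ∧ t < α₀}, E t) := by
    rw [mem_closure_iff]
    intro o ho hxo
    obtain ⟨y, ⟨hyo, hyα⟩, hy⟩ := mem_closure_iff.1 hx (o ∩ U α₀) (ho.inter (h.opn α₀ hα₀))
      ⟨hxo, hxα₀⟩
    obtain ⟨t, ht, hyt⟩ := mem_iUnion₂.1 hy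
    refine ⟨y, hyo, mem_iUnion₂.2 ⟨t, ⟨ht, ?_⟩, hyt⟩⟩
    by_contra hlt
    exact (hEB t ht hyt).2.2 (h.mono _ _ (not_lt.1 hlt) (hC₁.club.1 t (hTC ht)) hyα)
  have hne : {δ : Ordinal.{0} | x ∈ closure (⋃ t ∈ {t | t ∈ T ∧ t < δ}, E t)}.Nonempty :=
    ⟨α₀, hlow⟩
  set δ := sInf {δ : Ordinal.{0} | x ∈ closure (⋃ t ∈ {t | t ∈ T ∧ t < δ}, E t)} with hδdef
  have hxδ : x ∈ closure (⋃ t ∈ {t | t ∈ T ∧ t < δ}, E t) := csInf_mem hne
  have hle : ∀ β, x ∈ closure (⋃ t ∈ {t | t ∈ T ∧ t < β}, E t) → δ ≤ β := fun β h' =>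
    csInf_le' (s := {δ : Ordinal.{0} | x ∈ closure (⋃ t ∈ {t | t ∈ T ∧ t < δ}, E t)}) h'
  have hδω : δ < ω₁ := (hle α₀ hlow).trans_lt hα₀
  -- points above smaller levels
  have hup : ∀ β < δ, x ∈ closure (⋃ t ∈ {t | t ∈ T ∧ β < t ∧ t < δ}, E t) := by
    intro β hβ
    have h1 : (⋃ t ∈ {t | t ∈ T ∧ t < δ}, E t) ⊆ (⋃ t ∈ {t | t ∈ T ∧ t < β}, E t) ∪
        ((⋃ t ∈ {t | t ∈ T ∧ t = β}, E t) ∪ ⋃ t ∈ {t | t ∈ T ∧ β < t ∧ t < δ}, E t) := by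
      intro y hy
      obtain ⟨t, ht, hyt⟩ := mem_iUnion₂.1 hy
      rcases lt_trichotomy t β with h2 | h2 | h2
      · exact Or.inl (mem_iUnion₂.2 ⟨t, ⟨ht.1, h2⟩, hyt⟩)
      · exact Or.inr (Or.inl (mem_iUnion₂.2 ⟨t, ⟨ht.1, h2⟩, hyt⟩))
      · exact Or.inr (Or.inr (mem_iUnion₂.2 ⟨t, ⟨ht.1, h2, ht.2⟩, hyt⟩))
    have h2 := closure_mono h1 hxδ
    rw [closure_union, closure_union] at h2
    rcases h2 with h3 | h3 | h3
    · exact absurd (hle β h3) (not_le.2 hβ)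
    · exfalso
      by_cases hβT : β ∈ T
      · have h4 : (⋃ t ∈ {t | t ∈ T ∧ t = β}, E t) = E β := by
          ext y
          simp only [mem_iUnion, exists_prop, mem_ofPred_eq]
          constructor
          · rintro ⟨t, ⟨-, rfl⟩, hy⟩
            exact hy
          · intro hy
            exact ⟨β, ⟨hβT, rfl⟩, hy⟩
        rw [h4, (hE β hβT).isClosed.closure_eq] at h3
        exact hx1 (mem_iUnion₂.2 ⟨β, hβT, h3⟩)
      · have h4 : (⋃ t ∈ {t | t ∈ T ∧ t = β}, E t) = ∅ := by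
          rw [eq_empty_iff_forall_notMem]
          intro y hy
          obtain ⟨t, ht, -⟩ := mem_iUnion₂.1 hy
          exact hβT (ht.2 ▸ ht.1)
        rw [h4, closure_empty] at h3
        exact h3
    · exact h3
  have hδ0 : δ ≠ 0 := by
    intro h0
    have h1 : (⋃ t ∈ {t | t ∈ T ∧ t < δ}, E t) = ∅ := by
      rw [eq_empty_iff_forall_notMem]
      intro y hy
      obtain ⟨t, ht, -⟩ := mem_iUnion₂.1 hy
      have h2 := ht.2
      rw [h0] at h2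
      exact absurd h2 (not_lt.2 zero_le)
    rw [h1, closure_empty] at hxδ
    exact hxδ
  have hTδ : ∀ β < δ, ∃ t ∈ T, β < t ∧ t < δ := by
    intro β hβ
    obtain ⟨y, -, hy⟩ := mem_closure_iff.1 (hup β hβ) univ isOpen_univ (mem_univ _)
    obtain ⟨t, ht, -⟩ := mem_iUnion₂.1 hy
    exact ⟨t, ht.1, ht.2.1, ht.2.2⟩
  have hδC : δ ∈ C := hTl δ hδω hδ0 hTδ
  have hδC₁ : δ ∈ C₁ := by
    refine hC₁.club.2.2 δ hδω hδ0 fun β hβ => ?_
    obtain ⟨t, ht, h1, h2⟩ := hTδ β hβ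
    exact ⟨t, hTC ht, h1, h2⟩
  refine hx2 (mem_biUnion hδC ⟨?_, ?_⟩)
  · refine closure_minimal ?_ isClosed_closure hxδ
    intro y hy
    obtain ⟨t, ht, hyt⟩ := mem_iUnion₂.1 hy
    have h1 := hEB t ht.1 hyt
    exact subset_closure (hC₁.sub δ hδC₁ t ht.2 ⟨h1.1, h1.2.1⟩)
  · intro hxU
    obtain ⟨β, hβ⟩ := mem_iUnion.1 (h.lim δ (hC₁.lim δ hδC₁) hxU)
    obtain ⟨hβδ, hβ⟩ := mem_iUnion.1 hβ
    obtain ⟨y, hyβ, hy⟩ := mem_closure_iff.1 (hup β hβδ) (U β) (h.opn β (hβδ.trans hδω)) hβ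
    obtain ⟨t, ht, hyt⟩ := mem_iUnion₂.1 hy
    exact (hEB t ht.1 hyt).2.2 (h.mono _ _ ht.2.1.le (ht.2.2.trans hδω) hyβ)

end

end Pool.Agent.Work.MP_ba58b9_gt
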