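import Pool.Agent.Work.MP_ba58b9_gt.Pf.Pfa

/-!
# Closed unbounded sets
-/

set_option autoImplicit false

open Set Filter Topology Ordinal

namespace Pool.Agent.Work.MP_ba58b9_gt

/-- compact sets have cluster points of sequences -/
theorem seq_cluster {X : Type} [TopologicalSpace X] {K : Set X} (hK : IsCompact K) (g : ℕ → X)
    (hg : ∀ i, g i ∈ K) : ∃ p ∈ K, ∀ m, p ∈ closure (g '' Ici m) := by
  by_contra hcon
  push Not at hcon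
  obtain ⟨m, hm⟩ := hK.elim_directed_family_closed (fun m => closure (g '' Ici m))
    (fun m => isClosed_closure) (by
      rw [eq_empty_iff_forall_notMem]
      rintro p ⟨hp, hp2⟩
      obtain ⟨m, hm⟩ := hcon p hp
      exact hm (mem_iInter.1 hp2 m)) (by
      intro a b
      exact ⟨max a b, closure_mono (image_mono (Ici_subset_Ici.2 (le_max_left a b))),
        closure_mono (image_mono (Ici_subset_Ici.2 (le_max_right a b)))⟩)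
  have : g m ∈ K ∩ closure (g '' Ici m) := ⟨hg m, subset_closure ⟨m, mem_Ici.2 le_rfl, rfl⟩⟩
  rw [hm] at this
  exact this

theorem club_stat {C : Set Ordinal.{0}} (hC : Club C) : Stat C :=
  Z1_stat_mono (Z1_stat_inter itemZ1.2.2.1 hC) inter_subset_right

theorem club_nat {C : ℕ → Set Ordinal.{0}} (hC : ∀ i, Club (C i)) :
    ∃ D, Club D ∧ (∀ δ ∈ D, Lim δ) ∧ ∀ i, D ⊆ C i := by
  classical
  refine ⟨_, Z1_diag (fun γ => if h : ∃ n : ℕ, γ = n then C h.choose else C 0) (fun γ _ => ?_),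
    fun δ hδ => hδ.1, fun i δ hδ => ?_⟩
  · by_cases h : ∃ n : ℕ, γ = n
    · simp only [h, dif_pos]
      exact hC _
    · simp only [h, dif_neg, not_false_eq_true]
      exact hC _
  · have hlt : ∀ n : ℕ, (n : Ordinal.{0}) < δ := by
      intro n
      induction n with
      | zero => exact_mod_cast pos_iff_ne_zero.2 hδ.1.2.1
      | succ n ih => exact_mod_cast hδ.1.2.2 _ ih
    have h1 := hδ.2 i (hlt i)
    have h2 : ∃ n : ℕ, (i : Ordinal.{0}) = n := ⟨i, rfl⟩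
    simp only [h2, dif_pos] at h1
    have h3 : h2.choose = i := by
      have := h2.choose_spec
      exact_mod_cast this.symm
    rwa [h3] at h1

/-- Splitting a club. -/
theorem club_split {C₀ : Set Ordinal.{0}} (hC : Club C₀) :
    ∃ (C : Set Ordinal.{0}) (nx : Ordinal.{0} → Ordinal.{0}), Club C ∧ C ⊆ C₀ ∧
      (∀ δ ∈ C, Lim δ) ∧ ∀ β < ω₁, nx β ∈ C₀ ∧ β < nx β ∧ nx β ∉ C ∧ ∀ δ ∈ C, β < δ → nx β < δ := by
  classical
  let nx : Ordinal.{0} → Ordinal.{0} := fun β => sInf {γ | γ ∈ C₀ ∧ β < γ}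
  have hnx : ∀ β < ω₁, nx β ∈ C₀ ∧ β < nx β := by
    intro β hβ
    obtain ⟨γ, h1, h2⟩ := hC.2.1 β hβ
    exact csInf_mem (s := {γ | γ ∈ C₀ ∧ β < γ}) ⟨γ, h1, h2⟩
  have hcl := Z1_diag (fun γ => {δ | nx γ < δ ∧ δ < ω₁}) (fun γ hγ => Z1_Ioi (hC.1 _ (hnx γ hγ).1))
  refine ⟨_, nx, hcl, ?_, fun δ hδ => hδ.1, fun β hβ => ⟨(hnx β hβ).1, (hnx β hβ).2, ?_, ?_⟩⟩
  · intro δ hδ
    refine hC.2.2 δ hδ.1.1 hδ.1.2.1 fun β hβ => ?_
    exact ⟨nx β, (hnx β (hβ.trans hδ.1.1)).1, (hnx β (hβ.trans hδ.1.1)).2, (hδ.2 β hβ).1⟩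
  · intro h
    exact lt_irrefl _ (h.2 β (hnx β hβ).2).1
  · intro δ hδ hlt
    exact (hδ.2 β hlt).1

/-- Countable intersections. -/
theorem club_ctbl {ι : Type*} {s : Set ι} (hs : s.Countable) (C : ι → Set Ordinal.{0})
    (hC : ∀ i ∈ s, Club (C i)) : ∃ D, Club D ∧ (∀ δ ∈ D, Lim δ) ∧ ∀ i ∈ s, D ⊆ C i := by
  rcases s.eq_empty_or_nonempty with he | hne
  · refine ⟨_, Z1_diag (fun _ => {δ | 0 < δ ∧ δ < ω₁}) (fun _ _ => Z1_Ioi (Ordinal.omega_pos 1)),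
      fun δ hδ => hδ.1, fun i hi => ?_⟩
    rw [he] at hi
    exact absurd hi (notMem_empty _)
  · obtain ⟨e, he⟩ := hs.exists_eq_range hne
    obtain ⟨D, h1, h2, h3⟩ := club_nat (C := fun n => C (e n)) (fun n => hC _ (by
      rw [he]; exact ⟨n, rfl⟩))
    refine ⟨D, h1, h2, fun i hi => ?_⟩
    rw [he] at hi
    obtain ⟨n, rfl⟩ := hi
    exact h3 n

/-- Sparse subsets of unbounded sets. -/
theorem club_sparse {S C₁ : Set Ordinal.{0}} (hS : ∀ t ∈ S, t < ω₁)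
    (hSu : ∀ β < ω₁, ∃ t ∈ S, β < t) (hC : Club C₁) :
    ∃ (C T : Set Ordinal.{0}), Club C ∧ C ⊆ C₁ ∧ (∀ δ ∈ C, Lim δ) ∧ T ⊆ S ∧
      (∀ β < ω₁, ∃ t ∈ T, β < t) ∧ (∀ t ∈ T, t ∉ C) ∧
      ∀ δ < ω₁, δ ≠ 0 → (∀ β < δ, ∃ t ∈ T, β < t ∧ t < δ) → δ ∈ C := by
  classical
  let nx : Ordinal.{0} → Ordinal.{0} := fun β => sInf {γ | γ ∈ S ∧ β < γ}
  have hnx : ∀ β < ω₁, nx β ∈ S ∧ β < nx β := by
    intro β hβ
    obtain ⟨γ, h1, h2⟩ := hSu β hβ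
    exact csInf_mem (s := {γ | γ ∈ S ∧ β < γ}) ⟨γ, h1, h2⟩
  have hnxle : ∀ β γ, γ ∈ S → β < γ → nx β ≤ γ := fun β γ h1 h2 =>
    csInf_le' (s := {γ | γ ∈ S ∧ β < γ}) ⟨h1, h2⟩
  have hcl := Z1_diag (fun γ => {δ | nx γ < δ ∧ δ < ω₁}) (fun γ hγ => Z1_Ioi (hS _ (hnx γ hγ).1))
  obtain ⟨C, hCc, hCs⟩ := Z1_inter hC hcl
  have hCω : ∀ c ∈ C, c < ω₁ := hCc.1
  refine ⟨C, nx '' C, hCc, fun δ hδ => (hCs hδ).1, fun δ hδ => (hCs hδ).2.1, ?_, ?_, ?_, ?_⟩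
  · rintro _ ⟨c, hc, rfl⟩
    exact (hnx c (hCω c hc)).1
  · intro β hβ
    obtain ⟨c, hc, h⟩ := hCc.2.1 β hβ
    exact ⟨nx c, ⟨c, hc, rfl⟩, h.trans (hnx c (hCω c hc)).2⟩
  · rintro _ ⟨c, hc, rfl⟩ h
    exact lt_irrefl _ ((hCs h).2.2 c (hnx c (hCω c hc)).2).1
  · intro δ hδ h0 hlim
    refine hCc.2.2 δ hδ h0 fun β hβ => ?_
    obtain ⟨_, ⟨c, hc, rfl⟩, h1, h2⟩ := hlim β hβ
    obtain ⟨_, ⟨c', hc', rfl⟩, h3, h4⟩ := hlim _ h2
    refine ⟨c', hc', ?_, (hnx c' (hCω c' hc')).2.trans h4⟩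
    by_contra h5
    have h6 : c' < nx c := (not_lt.1 h5).trans_lt h1
    exact absurd (hnxle c' (nx c) (hnx c (hCω c hc)).1 h6) (not_le.2 h3)

end Pool.Agent.Work.MP_ba58b9_gt
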