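import Pool.Agent.Work.MP_ba58b9_gt.Pf.Stmts2

/-!
# Infinitely many atoms
-/

set_option autoImplicit false

open Set Filter Topology Ordinal

namespace Pool.Agent.Work.MP_ba58b9_gt.NATOMS

variable {X : Type} [TopologicalSpace X] {U : Ordinal.{0} → Set X}

/-- If `F` is not almost covered by finitely many atoms, then there is an atom in `F` which is
disjoint from finitely many given sets. -/
theorem new_atom (h : CI U) (hCP : ∀ S : Set X, CPara S) {F : Set X} (hF : OB U F)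
    (hs : ¬ Sm U F) (s : Finset (Set X)) (hsA : ∀ A ∈ s, A ⊆ F ∧ Atom U A) :
    ∃ W, (W ⊆ F ∧ Atom U W) ∧ ∀ A ∈ s, Disjoint A W := by
  have h1 : ¬ Le U F (⋃₀ (s : Set (Set X))) := fun hle =>
    hs ⟨(s : Set (Set X)), s.finite_toSet, fun W hW => (hsA W (Finset.mem_coe.1 hW)).2, hle⟩
  unfold Le at h1
  push Not at h1
  obtain ⟨H, hHc, hHF, hHu, hHn⟩ := h1
  obtain ⟨α, hα, hsub⟩ := not_ubd hHn
  have hHc' : IsClosed (H \ U α) := hHc.sdiff (h.opn α hα)
  have hu : UBd U (H \ U α) := h.ubd_diff hHu hα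
  have hob : OB U (H \ U α) := hF.mono hHc' (sdiff_subset.trans hHF)
  obtain ⟨W, hW, hWa⟩ := atom_exists h hCP hob hu
  refine ⟨W, ⟨hW.trans (sdiff_subset.trans hHF), hWa⟩, fun A hA => ?_⟩
  rw [Set.disjoint_left]
  intro y hyA hyW
  have h2 := hW hyW
  exact h2.2 (hsub ⟨h2.1, mem_sUnion.2 ⟨A, Finset.mem_coe.2 hA, hyA⟩⟩)

theorem prf : PAtoms := by
  intro X _ U h hCP B hB hs
  obtain ⟨F, hFB, hFc, hFs, hmin⟩ := big_exists h hCP hB hs
  have hF : OB U F := hB.mono hFc hFB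
  obtain ⟨W, hW, hd⟩ := exists_seq_of_forall_finset_exists
    (fun W : Set X => W ⊆ F ∧ Atom U W) (fun A W : Set X => Disjoint A W)
    (fun s hsA => new_atom h hCP hF hFs s hsA)
  have hdis : ∀ i j, i ≠ j → Disjoint (W i) (W j) := by
    intro i j hij
    rcases lt_or_gt_of_ne hij with h1 | h1
    · exact hd i j h1
    · exact (hd j i h1).symm
  refine ⟨W, fun j => ⟨(hW j).1.trans hFB, (hW j).2⟩, hdis, ?_⟩
  intro l O hO hlO
  rcases hmin (F \ O) sdiff_subset (hFc.sdiff hO) with hle | hsm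
  · exfalso
    have h1 := hle (W l) (hW l).2.ob.cl (hW l).1 (hW l).2.ub
    have h2 : W l ∩ (F \ O) = ∅ := by
      rw [eq_empty_iff_forall_notMem]
      rintro x ⟨hx1, hx2⟩
      exact hx2.2 (hlO hx1)
    rw [h2] at h1
    exact not_ubd_empty h1
  · obtain ⟨𝒜, hfin, hat, hle⟩ := hsm
    have h1 : ∀ j : ℕ, ∃ A : Set X, UBd U (W j \ O) → A ∈ 𝒜 ∧ UBd U ((W j \ O) ∩ A) := by
      intro j
      by_cases hj : UBd U (W j \ O)
      · have h2 := hle (W j \ O) ((hW j).2.ob.cl.sdiff hO)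
          (fun x hx => ⟨(hW j).1 hx.1, hx.2⟩) hj
        obtain ⟨A, hA, h3⟩ := h.ubd_sUnion hfin h2
        exact ⟨A, fun _ => ⟨hA, h3⟩⟩
      · exact ⟨∅, fun h' => absurd h' hj⟩
    choose a ha using h1
    have hSfin : {j : ℕ | UBd U (W j \ O)}.Finite := by
      refine Set.Finite.of_injOn (f := a) (t := 𝒜) (fun j hj => (ha j hj).1) ?_ hfin
      intro i hi j hj hij
      by_contra hne
      obtain ⟨hi1, hi2⟩ := ha i hi
      obtain ⟨hj1, hj2⟩ := ha j hj
      rw [← hij] at hj2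
      have hA := hat _ hi1
      have h3 := hA.at_ ((W i \ O) ∩ a i) ((W j \ O) ∩ a i)
        (((hW i).2.ob.cl.sdiff hO).inter hA.ob.cl) (((hW j).2.ob.cl.sdiff hO).inter hA.ob.cl)
        inter_subset_right inter_subset_right hi2 hj2
      have h4 : ((W i \ O) ∩ a i) ∩ ((W j \ O) ∩ a i) = ∅ := by
        rw [eq_empty_iff_forall_notMem]
        rintro x ⟨hx1, hx2⟩
        exact Set.disjoint_left.1 (hdis i j hne) hx1.1.1 hx2.1.1
      rw [h4] at h3
      exact not_ubd_empty h3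
    obtain ⟨J, hJ⟩ := hSfin.bddAbove
    refine ⟨J + 1, fun j hj hju => ?_⟩
    have := hJ (show j ∈ {j : ℕ | UBd U (W j \ O)} from hju)
    omega

end Pool.Agent.Work.MP_ba58b9_gt.NATOMS
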