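import Pool.Agent.Work.MP_ba58b9_gt.Pf.Stmts

/-!
# Item CHAIN: existence of chains adapted to a closed set
-/

set_option autoImplicit false

open Set Filter Topology Ordinal

namespace Pool.Agent.Work.MP_ba58b9_gt.NCHAIN

theorem ex_exists {n : ℕ} {X : Type} [TopologicalSpace X] [T2Space X] (hX : LocN n X)
    (A : Set X) (hA : IsClosed A) (hnA : ¬ IsCompact A)
    (hc : ∀ Q : Set X, Q.Countable → IsCompact (A ∩ closure Q)) (B : Set X) :
    ∃ E : Set X, Z8P n B → Z8P n E ∧ A ∩ closure B ⊆ E ∧ (A ∩ (E \ B)).Nonempty := by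
  by_cases h : Z8P n B
  · obtain ⟨Q, hQ, hBQ⟩ := h.sep
    have hcl : closure B ⊆ closure Q := closure_minimal hBQ isClosed_closure
    have hK : IsCompact (A ∩ closure B) :=
      (hc Q hQ).of_isClosed_subset (hA.inter isClosed_closure)
        (inter_subset_inter_right A hcl)
    choose c hc1 hc2 hc3 using hX
    obtain ⟨t, -, ht⟩ := hK.elim_nhds_subcover c (fun x _ => (hc1 x).mem_nhds (hc2 x))
    have hAB : ¬ A ⊆ B := by
      intro hAB
      apply hnA
      have h1 : A ∩ closure Q = A := inter_eq_left.2 ((hAB.trans subset_closure).trans hcl)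
      rw [← h1]
      exact hc Q hQ
    obtain ⟨a, haA, haB⟩ := not_subset.1 hAB
    refine ⟨⋃₀ (c '' (t : Set X) ∪ {c a}), fun _ => ⟨⟨c '' (t : Set X) ∪ {c a}, ?_, ?_, rfl⟩, ?_, ?_⟩⟩
    · exact (t.countable_toSet.image c).union (countable_singleton _)
    · rintro v (⟨x, _, rfl⟩ | hv)
      · exact ⟨hc1 x, hc3 x⟩
      · rw [mem_singleton_iff] at hv
        subst hv
        exact ⟨hc1 a, hc3 a⟩
    · intro x hx
      obtain ⟨y, hy, hxy⟩ := mem_iUnion₂.1 (ht hx)
      exact ⟨c y, Or.inl ⟨y, hy, rfl⟩, hxy⟩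
    · exact ⟨a, haA, ⟨c a, Or.inr rfl, hc2 a⟩, haB⟩
  · exact ⟨∅, fun h' => absurd h' h⟩

theorem prf : PChain := by
  intro n X _ _ hX hconn hnsc A hA hnA hcA
  obtain ⟨hlc, -, -, -, -⟩ := itemZ2 n X hX
  choose nx hnx using z8_nx hX
  choose ex hex using ex_exists hX A hA hnA hcA
  obtain ⟨x0⟩ := hconn.toNonempty
  obtain ⟨U0, hU0, hx0, hE0⟩ := hX x0
  let U : Ordinal.{0} → Set X := WellFounded.fix Ordinal.lt_wf
    (fun α F => U0 ∪ ⋃ β, ⋃ (h : β < α), (F β h ∪ nx (F β h) ∪ ex (F β h)))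
  have hU : ∀ α, U α = U0 ∪ ⋃ β, ⋃ (_ : β < α), (U β ∪ nx (U β) ∪ ex (U β)) := by
    intro α
    exact WellFounded.fix_eq Ordinal.lt_wf _ α
  have hbd : ∀ α, Z8P n (U α) → (bd (U α)).Nonempty := by
    intro α hP
    by_contra hne
    rw [not_nonempty_iff_eq_empty] at hne
    have h2 : IsClosed (U α) := by
      rw [← closure_subset_iff_isClosed]
      intro x hx
      by_contra hxU
      have : x ∈ bd (U α) := ⟨hx, hxU⟩
      rw [hne] at this
      exact this
    have h3 : IsClopen (U α) := ⟨h2, hP.isOpen⟩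
    rcases isClopen_iff.mp h3 with h4 | h4
    · have : x0 ∈ U α := by
        rw [hU α]; exact Or.inl hx0
      rw [h4] at this
      exact this
    · rw [h4] at hP
      exact hnsc hP.second
  have hP : ∀ α, α < ω₁ → Z8P n (U α) := by
    intro α
    induction α using WellFounded.induction Ordinal.lt_wf with
    | _ α ih =>
    intro hα
    have hcount : Countable (Iio α) := by
      exact (z8_countable_Iio hα).to_subtype
    have ih0 : ∀ β : Iio α, Z8P n (U β) := fun β => ih β β.2 (lt_trans β.2 hα)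
    have ih' : ∀ β : Iio α, ∃ V : Set (Set X), V.Countable ∧
        (∀ v ∈ V, IsOpen v ∧ Nonempty (v ≃ₜ EuclideanSpace ℝ (Fin n))) ∧ U β = ⋃₀ V :=
      fun β => ih0 β
    have ih2 : ∀ β : Iio α, ∃ V : Set (Set X), V.Countable ∧
        (∀ v ∈ V, IsOpen v ∧ Nonempty (v ≃ₜ EuclideanSpace ℝ (Fin n))) ∧ ex (U β) = ⋃₀ V :=
      fun β => (hex (U β) (ih0 β)).1
    choose V hV1 hV2 hV3 using ih'
    choose W hW1 hW2 hW3 using ih2
    refine ⟨{U0} ∪ ⋃ β : Iio α, (V β ∪ {nx (U β)} ∪ W β), ?_, ?_, ?_⟩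
    · refine (countable_singleton _).union (countable_iUnion fun β => ((hV1 β).union
        (countable_singleton _)).union (hW1 β))
    · intro v hv
      rcases hv with hv | hv
      · rw [mem_singleton_iff] at hv
        rw [hv]
        exact ⟨hU0, hE0⟩
      · obtain ⟨β, hβ⟩ := mem_iUnion.mp hv
        rcases hβ with (hβ | hβ) | hβ
        · exact hV2 β v hβ
        · rw [mem_singleton_iff] at hβ
          rw [hβ]
          have := hnx (U β) (hbd β (ih0 β))
          exact ⟨this.1, this.2.1⟩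
        · exact hW2 β v hβ
    · rw [hU α, sUnion_union, sUnion_singleton, sUnion_iUnion]
      congr 1
      rw [iUnion_subtype]
      apply iUnion_congr
      intro β
      apply iUnion_congr
      intro hβ
      rw [sUnion_union, sUnion_union, sUnion_singleton, ← hV3 ⟨β, hβ⟩, ← hW3 ⟨β, hβ⟩]
  have hmono' : ∀ β α, β < α → U β ∪ nx (U β) ∪ ex (U β) ⊆ U α := by
    intro β α hβ x hx
    rw [hU α]
    exact Or.inr (mem_iUnion₂.mpr ⟨β, hβ, hx⟩)
  have hmono : ∀ β α, β < α → U β ∪ nx (U β) ⊆ U α := fun β α h =>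
    subset_union_left.trans (hmono' β α h)
  have hexs : ∀ α, ex (U α) ⊆ U (α + 1) := fun α =>
    subset_union_right.trans (hmono' α (α + 1) (lt_add_one α))
  refine ⟨U, fun α => nx (U α), ?_, ?_, ?_⟩
  · constructor
    · exact fun α hα => (hP α hα).isOpen
    · exact fun α hα => (hnx _ (hbd α (hP α hα))).1
    · exact fun α hα => (hP α hα).sep
    · exact fun α hα => (hP α hα).cof
    · exact fun β α hβ _ => hmono β α hβ
    · intro α hα x hx
      rw [hU α] at hx
      rcases hx with hx | hx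
      · refine mem_iUnion₂.mpr ⟨0, pos_iff_ne_zero.mpr hα.2.1, ?_⟩
        rw [hU 0]
        exact Or.inl hx
      · obtain ⟨β, hβ, hx'⟩ := mem_iUnion₂.mp hx
        exact mem_iUnion₂.mpr ⟨β + 1, hα.2.2 β hβ, hmono' β (β + 1) (lt_add_one β) hx'⟩
    · exact fun α hα => (hnx _ (hbd α (hP α hα))).2.2.1
    · exact fun α hα => (hnx _ (hbd α (hP α hα))).2.2.2
  · exact fun α hα => ((hex _ (hP α hα)).2.1).trans (hexs α)
  · intro α hα
    obtain ⟨a, ha, hae, hau⟩ := (hex _ (hP α hα)).2.2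
    exact ⟨a, ha, hexs α hae, hau⟩

end Pool.Agent.Work.MP_ba58b9_gt.NCHAIN
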