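import Pool.Agent.Work.MP_ba58b9_gt.Pf.Stmts2

/-!
# Item COMP: open sets in which closed sets with relatively compact countable subsets are compact
-/

set_option autoImplicit false

open Set Filter Topology Ordinal

namespace Pool.Agent.Work.MP_ba58b9_gt.NCOMP

/-- open subspaces of manifolds are manifolds -/
theorem locN_open {n : ℕ} {X : Type} [TopologicalSpace X] (hX : LocN n X) {C : Set X}
    (hC : IsOpen C) : LocN n C := by
  intro x
  obtain ⟨φ, y, hφ, hy⟩ := itemZ2_chart hX x.1
  have h1 : φ ⁻¹' C ∈ 𝓝 y := hφ.continuous.continuousAt.preimage_mem_nhds (by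
    rw [hy]; exact hC.mem_nhds x.2)
  obtain ⟨ε, hε, hεC⟩ := Metric.mem_nhds_iff.1 h1
  let u := OpenPartialHomeomorph.univBall y ε
  have hu : IsOpenEmbedding u := u.isOpenEmbedding (OpenPartialHomeomorph.univBall_source _ _)
  have hmem : ∀ z, φ (u z) ∈ C := by
    intro z
    apply hεC
    have := u.map_source (x := z) (by
      rw [OpenPartialHomeomorph.univBall_source]; trivial)
    rwa [OpenPartialHomeomorph.univBall_target _ hε] at this
  let f : EuclideanSpace ℝ (Fin n) → C := fun z => ⟨φ (u z), hmem z⟩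
  have hf : IsOpenEmbedding f := by
    have h2 : IsOpenEmbedding (Subtype.val ∘ f : EuclideanSpace ℝ (Fin n) → X) := hφ.comp hu
    exact IsOpenEmbedding.of_comp _ hC.isOpenEmbedding_subtypeVal h2
  refine ⟨range f, hf.isOpen_range, ⟨0, ?_⟩, ⟨hf.isEmbedding.toHomeomorph.symm⟩⟩
  apply Subtype.ext
  show φ (u 0) = x.1
  rw [OpenPartialHomeomorph.univBall_apply_zero, hy]

/-- countable paracompactness is invariant under homeomorphisms -/
theorem cpara_homeo {Y Z : Type} [TopologicalSpace Y] [TopologicalSpace Z] (e : Y ≃ₜ Z)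
    (h : CPara Z) : CPara Y := by
  intro u hu hcov
  obtain ⟨ι, v, hv, hvcov, hlf, href⟩ := h (fun k => e.symm ⁻¹' u k)
    (fun k => (hu k).preimage e.symm.continuous) (by
      rw [← preimage_iUnion, hcov, preimage_univ])
  refine ⟨ι, fun i => e ⁻¹' v i, fun i => (hv i).preimage e.continuous, by
    rw [← preimage_iUnion, hvcov, preimage_univ], hlf.preimage_continuous e.continuous,
    fun i => ?_⟩
  obtain ⟨k, hk⟩ := href i
  refine ⟨k, fun y hy => ?_⟩
  have := hk hy
  simpa using this

/-- subspaces of subspaces -/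
theorem cpara_sub {X : Type} [TopologicalSpace X] (hCP : ∀ S : Set X, CPara S) (C : Set X) :
    ∀ S : Set C, CPara S := fun S =>
  cpara_homeo (IsEmbedding.subtypeVal.homeomorphImage S) (hCP _)

/-- open connected subsets are second countable -/
theorem comp_sc (hMA : MA1) {n : ℕ} (hn : 2 ≤ n) {X : Type} [TopologicalSpace X] [T2Space X]
    (hX : LocN n X) (hCP : ∀ S : Set X, CPara S) {Om : Set X}
    (hNB : ∀ E ⊆ Om, IsClosed E → (∀ C ⊆ E, C.Countable → IsCompact (closure C)) → IsCompact E)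
    {C : Set X} (hC : IsOpen C) (hCc : IsConnected C) (hCO : C ⊆ Om) :
    SecondCountableTopology C := by
  obtain ⟨hLC, -, hFC, -, -⟩ := itemZ2 n X hX
  have hconn : ConnectedSpace C := isConnected_iff_connectedSpace.1 hCc
  refine (metrizable_of_ma hMA n hn C (locN_open hX hC) hconn (cpara_sub hCP C)
    (Or.inr ?_)).1
  intro E hE hEc
  have hval : IsEmbedding (Subtype.val : C → X) := IsEmbedding.subtypeVal
  rw [hval.isCompact_iff]
  apply hNB
  · rintro _ ⟨y, -, rfl⟩
    exact hCO y.2
  · rw [← closure_subset_iff_isClosed]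
    intro q hq
    obtain ⟨s, hs, hlim⟩ := mem_closure_iff_seq_limit.1 hq
    choose t htE hts using hs
    have h1 : IsCompact (closure (range t)) := hEc _ (by
      rintro _ ⟨i, rfl⟩
      exact htE i) (countable_range t)
    have h2 : IsCompact (Subtype.val '' closure (range t)) := h1.image continuous_subtype_val
    have h3 : q ∈ Subtype.val '' closure (range t) :=
      h2.isClosed.mem_of_tendsto hlim (Eventually.of_forall fun i =>
        ⟨t i, subset_closure (mem_range_self i), hts i⟩)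
    have h4 : closure (range t) ⊆ E := closure_minimal (by
      rintro _ ⟨i, rfl⟩
      exact htE i) hE
    exact image_mono h4 h3
  · intro D hD hDc
    obtain ⟨D', hD', hD'c, rfl⟩ := ot_lift hDc hD
    have h1 : IsCompact (closure D') := hEc _ hD' hD'c
    have h2 : IsCompact (Subtype.val '' closure D') := h1.image continuous_subtype_val
    exact h2.of_isClosed_subset isClosed_closure
      (closure_minimal (image_mono subset_closure) h2.isClosed)

/-- Item COMP. -/
theorem prf : PComp := by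
  classical
  intro hMA n hn X _ _ hX hCP U hU hsep Om hOm hcov hNB
  obtain ⟨hLC, hlc, hFC, -, -⟩ := itemZ2 n X hX
  have hCo : ∀ x, IsOpen (connectedComponentIn Om x) := fun x => hOm.connectedComponentIn
  have hCsub : ∀ x, connectedComponentIn Om x ⊆ Om := fun x => connectedComponentIn_subset _ _
  -- every component is bounded
  have hg : ∀ x, ∃ γ : Ordinal.{0}, γ < ω₁ ∧ connectedComponentIn Om x ⊆ U γ := by
    intro x
    by_cases hx : x ∈ Om
    · have hsc : SecondCountableTopology (connectedComponentIn Om x) :=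
        comp_sc hMA hn hX hCP hNB (hCo x) (isConnected_connectedComponentIn_iff.2 hx) (hCsub x)
      have hL : IsLindelof (connectedComponentIn Om x) := isLindelof_iff_lindelofSpace.2 inferInstance
      choose lv hlv1 hlv2 using hcov
      obtain ⟨r, hr, hrc⟩ := hL.elim_countable_subcover
        (fun β : Iio (ω₁ : Ordinal.{0}) => U β) (fun β => hU.opn β β.2) (by
          intro y hy
          exact mem_iUnion.2 ⟨⟨lv y (hCsub x hy), hlv1 _ _⟩, hlv2 _ _⟩)
      obtain ⟨γ, hγ, hle⟩ := ctbl_sup hr (fun β => (β : Ordinal.{0})) (fun β _ => β.2)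
      refine ⟨γ, hγ, fun y hy => ?_⟩
      obtain ⟨β, hβ, hyβ⟩ := mem_iUnion₂.1 (hrc hy)
      exact hU.mono _ _ (hle β hβ) hγ hyβ
    · rw [connectedComponentIn_eq_empty hx]
      exact ⟨0, Ordinal.omega_pos 1, empty_subset _⟩
  choose g hg1 hg2 using hg
  -- all components meeting a member are contained in a member
  have hG : ∀ α : Ordinal.{0}, ∃ γ : Ordinal.{0}, γ < ω₁ ∧
      (α < ω₁ → ∀ x ∈ Om, (connectedComponentIn Om x ∩ U α).Nonempty →
        connectedComponentIn Om x ⊆ U γ) := by
    intro α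
    by_cases hα : α < ω₁
    · obtain ⟨Q, hQ, hUQ⟩ := hsep α hα
      obtain ⟨γ, hγ, hle⟩ := ctbl_sup hQ g (fun q _ => hg1 q)
      refine ⟨γ, hγ, fun _ x hx hne => ?_⟩
      obtain ⟨y, hy1, hy2⟩ := hne
      obtain ⟨q, hq1, hq2⟩ := mem_closure_iff.1 (hUQ hy2)
        (connectedComponentIn Om x) (hCo x) hy1
      rw [connectedComponentIn_eq hq1]
      exact (hg2 q).trans (hU.mono _ _ (hle q hq2) hγ)
    · exact ⟨0, Ordinal.omega_pos 1, fun h => absurd h hα⟩
  choose G hG1 hG2 using hG
  refine ⟨_, Z1_diag (fun α => {δ | G α < δ ∧ δ < ω₁}) (fun α _ => Z1_Ioi (hG1 α)),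
    fun δ hδ => ⟨hδ.1, ?_⟩⟩
  rw [eq_empty_iff_forall_notMem]
  rintro x ⟨hx, hx1, hx2⟩
  obtain ⟨y, hy1, hy2⟩ := mem_closure_iff.1 hx1 _ (hCo x) (mem_connectedComponentIn hx)
  obtain ⟨α, hα⟩ := mem_iUnion.1 (hU.lim δ hδ.1 hy2)
  obtain ⟨hαδ, hyα⟩ := mem_iUnion.1 hα
  have h1 := hG2 α (hαδ.trans hδ.1.1) x hx ⟨y, hy1, hyα⟩
  exact hx2 (hU.mono _ _ (hδ.2 α hαδ).1.le hδ.1.1 (h1 (mem_connectedComponentIn hx)))

end Pool.Agent.Work.MP_ba58b9_gt.NCOMP
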