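import Pool.Agent.Work.MP_ba58b9_gt.Pf.Stmts3

/-!
# Connected open sets in one-dimensional manifolds have at most two frontier points
-/

set_option autoImplicit false

open Set Filter Topology

namespace Pool.Agent.Work.MP_ba58b9_gt.NENDS

open Pool.Agent.Work.MP_ba58b9_gt

/-- Small charts. -/
theorem small {X : Type} [TopologicalSpace X]
    (hX : ∀ x : X, ∃ N : Set X, IsOpen N ∧ x ∈ N ∧ Nonempty (N ≃ₜ ℝ)) (x : X) {O : Set X}
    (hO : IsOpen O) (hxO : x ∈ O) :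
    ∃ N : Set X, IsOpen N ∧ x ∈ N ∧ N ⊆ O ∧ Nonempty (N ≃ₜ ℝ) := by
  obtain ⟨N, hN, hxN, ⟨φ⟩⟩ := hX x
  have hO' : IsOpen (φ.symm ⁻¹' ((fun w : N => (w : X)) ⁻¹' O)) :=
    (hO.preimage continuous_subtype_val).preimage φ.symm.continuous
  have hx' : φ ⟨x, hxN⟩ ∈ φ.symm ⁻¹' ((fun w : N => (w : X)) ⁻¹' O) := by
    simp only [mem_preimage, Homeomorph.symm_apply_apply]
    exact hxO
  obtain ⟨r, hr, hb⟩ := Metric.isOpen_iff.1 hO' _ hx'
  set e := OpenPartialHomeomorph.univBall (φ ⟨x, hxN⟩) r with he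
  have h1 : IsOpenEmbedding e :=
    e.isOpenEmbedding (OpenPartialHomeomorph.univBall_source (φ ⟨x, hxN⟩) r)
  have h2 : IsOpenEmbedding ((fun w : N => (w : X)) ∘ (φ.symm ∘ e)) :=
    hN.isOpenEmbedding_subtypeVal.comp (φ.symm.isOpenEmbedding.comp h1)
  refine ⟨range ((fun w : N => (w : X)) ∘ (φ.symm ∘ e)), h2.isOpen_range, ⟨0, ?_⟩, ?_,
    ⟨h2.isEmbedding.toHomeomorph.symm⟩⟩
  · simp only [Function.comp_apply, he, OpenPartialHomeomorph.univBall_apply_zero,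
      Homeomorph.symm_apply_apply]
  · rintro _ ⟨t, rfl⟩
    have h3 : e t ∈ e.target := e.map_source (by
      rw [he, OpenPartialHomeomorph.univBall_source]; exact mem_univ _)
    rw [he, OpenPartialHomeomorph.univBall_target _ hr] at h3
    exact hb h3

section

variable {X : Type} [TopologicalSpace X] {N : Set X}

/-- open intervals of a chart -/
def I (φ : N ≃ₜ ℝ) (a b : ℝ) : Set X := (fun w : N => (w : X)) '' (φ ⁻¹' Ioo a b)

/-- closed intervals of a chart -/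
def J (φ : N ≃ₜ ℝ) (a b : ℝ) : Set X := (fun w : N => (w : X)) '' (φ ⁻¹' Icc a b)

theorem I_open (hN : IsOpen N) (φ : N ≃ₜ ℝ) (a b : ℝ) : IsOpen (I φ a b) :=
  hN.isOpenEmbedding_subtypeVal.isOpenMap _ (isOpen_Ioo.preimage φ.continuous)

theorem J_closed [T2Space X] (φ : N ≃ₜ ℝ) (a b : ℝ) : IsClosed (J φ a b) := by
  apply IsCompact.isClosed
  have h1 : IsCompact (φ ⁻¹' Icc a b) := φ.isCompact_preimage.2 isCompact_Icc
  exact h1.image continuous_subtype_val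

theorem I_conn (φ : N ≃ₜ ℝ) (a b : ℝ) : IsPreconnected (I φ a b) := by
  have h1 : IsPreconnected (φ ⁻¹' Ioo a b) := φ.isPreconnected_preimage.2 isPreconnected_Ioo
  exact h1.image _ continuous_subtype_val.continuousOn

theorem J_conn (φ : N ≃ₜ ℝ) (a b : ℝ) : IsPreconnected (J φ a b) := by
  have h1 : IsPreconnected (φ ⁻¹' Icc a b) := φ.isPreconnected_preimage.2 isPreconnected_Icc
  exact h1.image _ continuous_subtype_val.continuousOn

theorem I_sub_J (φ : N ≃ₜ ℝ) (a b : ℝ) : I φ a b ⊆ J φ a b :=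
  image_mono (preimage_mono Ioo_subset_Icc_self)

/-- Crossing the frontier. -/
theorem cross (φ : N ≃ₜ ℝ) {R : Set X} (hR : IsOpen R) {e z : X} (hz : closure R ⊆ R ∪ {e, z})
    (he : e ∉ N) {x y : N} (hxy : φ x < φ y) (hx : (x : X) ∉ R) (hy : (y : X) ∈ R) :
    z ∈ J φ (φ x) (φ y) := by
  by_contra hcon
  have h1 : J φ (φ x) (φ y) ⊆ R := by
    refine (J_conn φ (φ x) (φ y)).subset_of_closure_inter_subset hR
      ⟨y, ⟨y, ⟨hxy.le, le_rfl⟩, rfl⟩, hy⟩ ?_
    rintro v ⟨hv1, hv2⟩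
    rcases hz hv1 with h | h | h
    · exact h
    · obtain ⟨v', -, rfl⟩ := hv2
      exact absurd (h ▸ v'.2) he
    · have h' : v = z := h
      exact absurd (h' ▸ hv2) hcon
  exact hx (h1 ⟨x, ⟨le_rfl, hxy.le⟩, rfl⟩)

/-- Connected open subsets of `L` with at most one frontier point in `L`, adjacent to `e`. -/
structure Good (L : Set X) (e : X) (R : Set X) : Prop where
  opn : IsOpen R
  con : IsPreconnected R
  sub : R ⊆ L
  cl : e ∈ closure R
  fr : ∃ z ∈ L, closure R ⊆ R ∪ {e, z}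

theorem Good.nsub {L : Set X} {e : X} {R : Set X} (h : Good L e R) {M : Set X}
    (he : e ∉ closure M) : ¬ R ⊆ M := fun h' => he (closure_mono h' h.cl)

/-- Everything above a point of `R` is in `R`. -/
theorem Good.above [T2Space X] {L : Set X} {e : X} {R : Set X} (h : Good L e R) (hN : IsOpen N)
    (φ : N ≃ₜ ℝ) (he : e ∉ closure N) {x y : N} (hxy : φ x < φ y) (hx : (x : X) ∉ R)
    (hy : (y : X) ∈ R) {v : N} (hv : φ y ≤ φ v) : (v : X) ∈ R := by
  by_contra hvR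
  rcases hv.eq_or_lt with h1 | h1
  · have : y = v := φ.injective h1
    exact hvR (this ▸ hy)
  · exact ray hN φ h.con (h.nsub he) hxy h1 hx hvR hy

theorem Good.grow [T2Space X] {L : Set X} {e : X} {R : Set X} (h : Good L e R) (hN : IsOpen N)
    (φ : N ≃ₜ ℝ) (hNL : N ⊆ L) (he : e ∉ closure N) {x y : N} (hxy : φ x < φ y)
    (hx : (x : X) ∉ R) (hy : (y : X) ∈ R) : ∃ R', Good L e R' ∧ (x : X) ∈ R' := by
  have heN : e ∉ N := fun h' => he (subset_closure h')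
  obtain ⟨z, hzL, hz⟩ := h.fr
  have hzJ := cross φ h.opn hz heN hxy hx hy
  have hup : ∀ v : N, φ y ≤ φ v → (v : X) ∈ R := fun v hv => h.above hN φ he hxy hx hy hv
  refine ⟨R ∪ I φ (φ x - 1) (φ y + 1), ⟨h.opn.union (I_open hN φ _ _), ?_, ?_, ?_, ?_⟩, ?_⟩
  · exact h.con.union (y : X) hy ⟨y, ⟨by linarith, by linarith⟩, rfl⟩ (I_conn φ _ _)
  · refine union_subset h.sub ?_
    rintro _ ⟨v, -, rfl⟩
    exact hNL v.2
  · exact closure_mono subset_union_left h.cl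
  · refine ⟨φ.symm (φ x - 1), hNL (φ.symm (φ x - 1)).2, ?_⟩
    rw [closure_union]
    rintro v (hv | hv)
    · rcases hz hv with h1 | h1 | h1
      · exact Or.inl (Or.inl h1)
      · exact Or.inr (Or.inl h1)
      · have h1' : v = z := h1
        subst h1'
        obtain ⟨v', hv', rfl⟩ := hzJ
        exact Or.inl (Or.inr ⟨v', ⟨by linarith [hv'.1], by linarith [hv'.2]⟩, rfl⟩)
    · have h1 := closure_minimal (I_sub_J φ (φ x - 1) (φ y + 1)) (J_closed φ _ _) hv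
      obtain ⟨v', hv', rfl⟩ := h1
      rcases hv'.1.eq_or_lt with h2 | h2
      · refine Or.inr (Or.inr ?_)
        have h3 : v' = φ.symm (φ x - 1) := by
          rw [h2]
          exact (φ.symm_apply_apply v').symm
        exact congrArg (fun w : N => (w : X)) h3
      · rcases hv'.2.eq_or_lt with h3 | h3
        · exact Or.inl (Or.inl (hup v' (by rw [h3]; linarith)))
        · exact Or.inl (Or.inr ⟨v', ⟨h2, h3⟩, rfl⟩)
  · exact Or.inr ⟨x, ⟨by linarith, by linarith⟩, rfl⟩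

/-- One-sided intervals at frontier points. -/
theorem side [T2Space X] {L : Set X} (hLo : IsOpen L) (hL : IsPreconnected L) {e : X}
    (he : e ∈ frontier L) (hN : IsOpen N) (φ : N ≃ₜ ℝ) (hLN : ¬ L ⊆ N) (heN : e ∈ N) :
    ∃ (ψ : N ≃ₜ ℝ) (c : ℝ), ψ ⟨e, heN⟩ < c ∧ ∀ w : N, ψ ⟨e, heN⟩ < ψ w → ψ w < c →
      (w : X) ∈ L := by
  have heL : e ∉ L := by
    rw [hLo.frontier_eq] at he
    exact he.2
  obtain ⟨y, hyN, hyL⟩ := mem_closure_iff.1 (frontier_subset_closure he) N hN heN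
  have main : ∀ ψ : N ≃ₜ ℝ,
      (∀ c : ℝ, ψ ⟨e, heN⟩ < c → ∃ y : N, (y : X) ∈ L ∧ ψ ⟨e, heN⟩ < ψ y ∧ ψ y < c) →
      ∃ (ψ : N ≃ₜ ℝ) (c : ℝ), ψ ⟨e, heN⟩ < c ∧ ∀ w : N, ψ ⟨e, heN⟩ < ψ w → ψ w < c →
        (w : X) ∈ L := by
    intro ψ hψ
    obtain ⟨y, hyL, hy1, -⟩ := hψ (ψ ⟨e, heN⟩ + 1) (by linarith)
    refine ⟨ψ, ψ y, hy1, fun w hw1 hw2 => ?_⟩
    by_contra hwL
    obtain ⟨y', hy'L, hy'1, hy'2⟩ := hψ (ψ w) hw1
    exact ray hN ψ hL hLN hy'1 hy'2 heL hwL hy'L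
  by_cases hr : ∀ c : ℝ, φ ⟨e, heN⟩ < c → ∃ y : N, (y : X) ∈ L ∧ φ ⟨e, heN⟩ < φ y ∧ φ y < c
  · exact main φ hr
  · push Not at hr
    obtain ⟨c, hc, hcn⟩ := hr
    refine main (φ.trans (Homeomorph.neg ℝ)) fun c' hc' => ?_
    have hc'' : -φ ⟨e, heN⟩ < c' := hc'
    obtain ⟨v, hv, hvL⟩ := mem_closure_iff.1 (frontier_subset_closure he) (I φ (-c') c)
      (I_open hN φ _ _) ⟨⟨e, heN⟩, ⟨by linarith, hc⟩, rfl⟩
    obtain ⟨v', hv', rfl⟩ := hv
    refine ⟨v', hvL, ?_, ?_⟩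
    · show -φ ⟨e, heN⟩ < -φ v'
      have h1 : φ v' ≠ φ ⟨e, heN⟩ := by
        intro h
        have h2 : v' = ⟨e, heN⟩ := φ.injective h
        rw [h2] at hvL
        exact heL hvL
      have h2 : ¬ φ ⟨e, heN⟩ < φ v' := fun h => absurd hv'.2 (not_lt.2 (hcn v' hvL h))
      have h3 : φ v' < φ ⟨e, heN⟩ := lt_of_le_of_ne (not_lt.1 h2) h1
      linarith
    · show -φ v' < c'
      have := hv'.1
      linarith

end

/-- If there are two different frontier points, then there is no third one. -/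
theorem two {X : Type} [TopologicalSpace X] [T2Space X]
    (hX : ∀ x : X, ∃ N : Set X, IsOpen N ∧ x ∈ N ∧ Nonempty (N ≃ₜ ℝ)) {L : Set X}
    (hLo : IsOpen L) (hL : IsPreconnected L) {e₁ e₂ : X} (h₁ : e₁ ∈ frontier L)
    (h₂ : e₂ ∈ frontier L) (hne : e₁ ≠ e₂) : closure L ⊆ L ∪ {e₁, e₂} := by
  have he₁L : e₁ ∉ L := by
    rw [hLo.frontier_eq] at h₁
    exact h₁.2
  have he₂L : e₂ ∉ L := by
    rw [hLo.frontier_eq] at h₂
    exact h₂.2
  obtain ⟨p, -, hp⟩ := mem_closure_iff.1 (frontier_subset_closure h₁) univ isOpen_univ (mem_univ _)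
  have hpo : IsOpen ({p}ᶜ : Set X) := isOpen_compl_singleton
  -- a first good set
  have hfirst : ∃ R, Good L e₁ R ∧ R.Nonempty := by
    obtain ⟨N, hN, he₁N, hNp, ⟨φ⟩⟩ := small hX e₁ hpo (fun h => he₁L (by
      rw [mem_singleton_iff.1 h]; exact hp))
    have hLN : ¬ L ⊆ N := fun h => hNp (h hp) rfl
    obtain ⟨ψ, c, hc, hψ⟩ := side hLo hL h₁ hN φ hLN he₁N
    set a := ψ ⟨e₁, he₁N⟩ with ha
    set b := (a + c) / 2 with hb
    have hab : a < b := by rw [hb]; linarith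
    have hbc : b < c := by rw [hb]; linarith
    have hbz : ψ (ψ.symm b) = b := ψ.apply_symm_apply b
    refine ⟨I ψ a b, ⟨I_open hN ψ _ _, I_conn ψ _ _, ?_, ?_, ?_⟩, ?_⟩
    · rintro _ ⟨v, hv, rfl⟩
      exact hψ v hv.1 (hv.2.trans hbc)
    · rw [mem_closure_iff]
      intro o ho heo
      have h3 : IsOpen (ψ.symm ⁻¹' ((fun w : N => (w : X)) ⁻¹' o)) :=
        (ho.preimage continuous_subtype_val).preimage ψ.symm.continuous
      have h4 : a ∈ ψ.symm ⁻¹' ((fun w : N => (w : X)) ⁻¹' o) := by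
        rw [ha]
        simp only [mem_preimage, Homeomorph.symm_apply_apply]
        exact heo
      obtain ⟨r, hr, hb'⟩ := Metric.isOpen_iff.1 h3 _ h4
      set t := min (a + r / 2) ((a + b) / 2) with ht
      have ht1 : a < t := lt_min (by linarith) (by linarith)
      have ht2 : t < b := (min_le_right _ _).trans_lt (by linarith)
      have ht3 : t ∈ Metric.ball a r := by
        rw [Metric.mem_ball, Real.dist_eq, abs_of_pos (by linarith)]
        have := min_le_left (a + r / 2) ((a + b) / 2)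
        rw [← ht] at this
        linarith
      have h5 : ψ (ψ.symm t) = t := ψ.apply_symm_apply t
      exact ⟨ψ.symm t, hb' ht3, ψ.symm t, by rw [mem_preimage, h5]; exact ⟨ht1, ht2⟩, rfl⟩
    · refine ⟨ψ.symm b, hψ _ (by rw [hbz]; exact hab) (by rw [hbz]; exact hbc), ?_⟩
      intro v hv
      obtain ⟨v', hv', rfl⟩ := closure_minimal (I_sub_J ψ a b) (J_closed ψ a b) hv
      rcases hv'.1.eq_or_lt with h2 | h2
      · have h3 : v' = ⟨e₁, he₁N⟩ := ψ.injective (h2.symm.trans ha)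
        exact Or.inr (Or.inl (congrArg (fun w : N => (w : X)) h3))
      · rcases hv'.2.eq_or_lt with h3 | h3
        · have h4 : v' = ψ.symm b := by
            rw [← h3]
            exact (ψ.symm_apply_apply v').symm
          exact Or.inr (Or.inr (congrArg (fun w : N => (w : X)) h4))
        · exact Or.inl ⟨v', ⟨h2, h3⟩, rfl⟩
    · have h5 : ψ (ψ.symm ((a + b) / 2)) = (a + b) / 2 := ψ.apply_symm_apply _
      exact ⟨ψ.symm ((a + b) / 2), ψ.symm ((a + b) / 2), by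
        rw [mem_preimage, h5]; exact ⟨by linarith, by linarith⟩, rfl⟩
  -- all points of `L` are in good sets
  have hall : L ⊆ ⋃₀ {R | Good L e₁ R} := by
    refine hL.subset_of_closure_inter_subset (isOpen_sUnion fun R hR => hR.opn) ?_ ?_
    · obtain ⟨R, hR, v, hv⟩ := hfirst
      exact ⟨v, hR.sub hv, R, hR, hv⟩
    · rintro z ⟨hz1, hz2⟩
      obtain ⟨U, V, hU, hV, hzU, heV, hUV⟩ := t2_separation (show z ≠ e₁ from fun h =>
        he₁L (h ▸ hz2))
      obtain ⟨M, hM, hzM, hMO, ⟨φ⟩⟩ := small hX z (hLo.inter hU) ⟨hz2, hzU⟩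
      have heM : e₁ ∉ closure M := by
        intro h
        have h1 : closure M ⊆ Vᶜ :=
          closure_minimal (fun v hv h2 => disjoint_left.1 hUV (hMO hv).2 h2) hV.isClosed_compl
        exact h1 h heV
      obtain ⟨y, hyM, R, hR, hyR⟩ := mem_closure_iff.1 hz1 M hM hzM
      by_cases hzR : z ∈ R
      · exact ⟨R, hR, hzR⟩
      · have hne' : φ ⟨z, hzM⟩ ≠ φ ⟨y, hyM⟩ := by
          intro h
          have h1 : (⟨z, hzM⟩ : M) = ⟨y, hyM⟩ := φ.injective h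
          have h2 : z = y := congrArg (fun w : M => (w : X)) h1
          exact hzR (h2 ▸ hyR)
        rcases lt_or_gt_of_ne hne' with h1 | h1
        · obtain ⟨R', hR', hz'⟩ := hR.grow hM φ (fun v hv => (hMO hv).1) heM
            (x := ⟨z, hzM⟩) (y := ⟨y, hyM⟩) h1 hzR hyR
          exact ⟨R', hR', hz'⟩
        · obtain ⟨R', hR', hz'⟩ := hR.grow hM (φ.trans (Homeomorph.neg ℝ))
            (fun v hv => (hMO hv).1) heM (x := ⟨z, hzM⟩) (y := ⟨y, hyM⟩)
            (show -φ ⟨z, hzM⟩ < -φ ⟨y, hyM⟩ by linarith) hzR hyR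
          exact ⟨R', hR', hz'⟩
  -- the other end
  obtain ⟨U, V, hU, hV, he₂U, he₁V, hUV⟩ := t2_separation hne.symm
  obtain ⟨N, hN, he₂N, hNO, ⟨φ⟩⟩ := small hX e₂ (hU.inter hpo) ⟨he₂U, fun h => he₂L (by
    rw [mem_singleton_iff.1 h]; exact hp)⟩
  have hLN : ¬ L ⊆ N := fun h => (hNO (h hp)).2 rfl
  have heN : e₁ ∉ closure N := by
    intro h
    have h1 : closure N ⊆ Vᶜ :=
      closure_minimal (fun v hv h2 => disjoint_left.1 hUV (hNO hv).1 h2) hV.isClosed_compl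
    exact h1 h he₁V
  have heN' : e₁ ∉ N := fun h => heN (subset_closure h)
  obtain ⟨ψ, c, hc, hψ⟩ := side hLo hL h₂ hN φ hLN he₂N
  obtain ⟨y, hy1, hy2⟩ : ∃ y : N, ψ ⟨e₂, he₂N⟩ < ψ y ∧ ψ y < c := by
    refine ⟨ψ.symm ((ψ ⟨e₂, he₂N⟩ + c) / 2), ?_, ?_⟩
    · rw [ψ.apply_symm_apply]; linarith
    · rw [ψ.apply_symm_apply]; linarith
  obtain ⟨R, hR, hyR⟩ := hall (hψ y hy1 hy2)
  have he₂R : e₂ ∉ R := fun h => he₂L (hR.sub h)
  obtain ⟨z, hzL, hz⟩ := hR.fr
  have hzJ : z ∈ J ψ (ψ ⟨e₂, he₂N⟩) (ψ y) :=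
    cross ψ hR.opn hz heN' (x := ⟨e₂, he₂N⟩) hy1 he₂R hyR
  have hup : ∀ v : N, ψ y ≤ ψ v → (v : X) ∈ R := fun v hv =>
    hR.above hN ψ heN (x := ⟨e₂, he₂N⟩) hy1 he₂R hyR hv
  set W : Set X := R ∪ I ψ (ψ ⟨e₂, he₂N⟩) (ψ y + 1) with hW
  have hWo : IsOpen W := hR.opn.union (I_open hN ψ _ _)
  have hWL : W ⊆ L := by
    refine union_subset hR.sub ?_
    rintro _ ⟨v, hv, rfl⟩
    rcases lt_or_ge (ψ v) c with h1 | h1
    · exact hψ v hv.1 h1
    · exact hR.sub (hup v (hy2.le.trans h1))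
  have hWc : closure W ⊆ W ∪ {e₁, e₂} := by
    rw [hW, closure_union]
    rintro v (hv | hv)
    · rcases hz hv with h1 | h1 | h1
      · exact Or.inl (Or.inl h1)
      · exact Or.inr (Or.inl h1)
      · have h1' : v = z := h1
        subst h1'
        obtain ⟨v', hv', rfl⟩ := hzJ
        refine Or.inl (Or.inr ⟨v', ⟨lt_of_le_of_ne hv'.1 ?_, by linarith [hv'.2]⟩, rfl⟩)
        intro h
        have h2 : (⟨e₂, he₂N⟩ : N) = v' := ψ.injective h
        have h3 : e₂ = v' := congrArg (fun w : N => (w : X)) h2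
        exact he₂L (h3 ▸ hzL)
    · obtain ⟨v', hv', rfl⟩ := closure_minimal (I_sub_J ψ _ _) (J_closed ψ _ _) hv
      rcases hv'.1.eq_or_lt with h2 | h2
      · have h3 : v' = ⟨e₂, he₂N⟩ := ψ.injective h2.symm
        exact Or.inr (Or.inr (congrArg (fun w : N => (w : X)) h3))
      · rcases hv'.2.eq_or_lt with h3 | h3
        · exact Or.inl (Or.inl (hup v' (by rw [h3]; linarith)))
        · exact Or.inl (Or.inr ⟨v', ⟨h2, h3⟩, rfl⟩)
  have hLW : L ⊆ W := by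
    refine hL.subset_of_closure_inter_subset hWo ⟨y, hψ y hy1 hy2, Or.inl hyR⟩ ?_
    rintro v ⟨hv1, hv2⟩
    rcases hWc hv1 with h1 | h1 | h1
    · exact h1
    · exact absurd (h1 ▸ hv2) he₁L
    · have h1' : v = e₂ := h1
      exact absurd (h1' ▸ hv2) he₂L
  intro v hv
  rcases hWc (closure_mono hLW hv) with h1 | h1
  · exact Or.inl (hWL h1)
  · exact Or.inr h1

theorem prf : PEnds := by
  intro X _ _ hX L hLo hL e₁ h₁ e₂ h₂ e₃ h₃
  by_cases hne : e₁ = e₂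
  · exact Or.inl hne
  · have h := two hX hLo hL h₁ h₂ hne (frontier_subset_closure h₃)
    have he₃L : e₃ ∉ L := by
      rw [hLo.frontier_eq] at h₃
      exact h₃.2
    rcases h with h | h | h
    · exact absurd h he₃L
    · exact Or.inr (Or.inl h.symm)
    · have h' : e₃ = e₂ := h
      exact Or.inr (Or.inr h'.symm)

end Pool.Agent.Work.MP_ba58b9_gt.NENDS
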