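import Pool.Agent.Work.MP_ba58b9_gt.Pf.Stmts2

/-!
# Item HIT: atoms which catch the chosen points meet the closures of all unbounded subsets
-/

set_option autoImplicit false

open Set Filter Topology Ordinal

namespace Pool.Agent.Work.MP_ba58b9_gt.NHIT

open Pool.Agent.Work.MP_ba58b9_gt

theorem prf : PHit := by
  intro hPart X _ _ U hU hCP B hB C₁ hC₁ p hp W hWB hWc hcatch T hTC hTcof
  by_contra hcon
  obtain ⟨γ0, hγ0, hsub⟩ := not_ubd hcon
  obtain ⟨C, T1, hC, hCC, -, hT1S, hT1cof, hT1C, hT1lim⟩ :=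
    club_sparse (S := {t | t ∈ T ∧ γ0 < t}) (C₁ := C₁)
      (fun t ht => hC₁.club.1 t (hTC ht.1)) (by
        intro β hβ
        obtain ⟨t, ht, hlt⟩ := hTcof (max β γ0) (max_lt hβ hγ0)
        exact ⟨t, ⟨ht, (le_max_right _ _).trans_lt hlt⟩, (le_max_left _ _).trans_lt hlt⟩) hC₁.club
  have hT1T : T1 ⊆ T := fun t ht => (hT1S ht).1
  have hT1C₁ : T1 ⊆ C₁ := hT1T.trans hTC
  have hT1ω : ∀ t ∈ T1, t < ω₁ := fun t ht => hC₁.club.1 t (hT1C₁ ht)
  -- the closure of the chosen points misses `W`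
  have hPU : ∀ x ∈ p '' T1, x ∉ U γ0 := by
    rintro _ ⟨t, ht, rfl⟩ hx
    exact (hp t (hT1C₁ ht)).2.2 (hU.mono _ _ (hT1S ht).2.le (hT1ω t ht) hx)
  have hclPU : ∀ x ∈ closure (p '' T1), x ∉ U γ0 := by
    intro x hx hxU
    obtain ⟨y, hyU, hyP⟩ := mem_closure_iff.1 hx (U γ0) (hU.opn γ0 hγ0) hxU
    exact hPU y hyP hyU
  have hclW : ∀ x ∈ closure (p '' T1), x ∉ W := by
    intro x hx hxW
    exact hclPU x hx (hsub ⟨closure_mono (image_mono hT1T) hx, hxW⟩)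
  obtain ⟨c, hc⟩ := hPart T1 hT1ω hT1cof
  set K : Set X := ⋃ δ ∈ C, bd (U δ) with hKdef
  have hcl : ∀ T2 ⊆ T1, closure (p '' T2) ⊆ p '' T2 ∪ (B ∩ K) := by
    intro T2 hT2
    have h1 := cl_levels hU hB (C := C) (T := T2) (E := fun t => {p t}) hC₁ (hT2.trans hT1C₁)
      (fun δ hδ h0 hl => hT1lim δ hδ h0 fun β hβ => by
        obtain ⟨t, ht, h2, h3⟩ := hl β hβ
        exact ⟨t, hT2 ht, h2, h3⟩)
      (fun t _ => isCompact_singleton)
      (fun t ht => singleton_subset_iff.2 (hp t (hT1C₁ (hT2 ht))))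
    rwa [image_eq_iUnion]
  have hPB : closure (p '' T1) ⊆ B := by
    refine closure_minimal ?_ hB.cl
    rintro _ ⟨t, ht, rfl⟩
    exact (hp t (hT1C₁ ht)).1
  have hPKc : IsClosed (closure (p '' T1) ∩ K) := by
    have : closure (p '' T1) ∩ K = closure (p '' T1) ∩ (B ∩ K) := by
      rw [← inter_assoc, inter_eq_left.2 hPB]
    rw [this]
    exact isClosed_closure.inter ((hC₁.sub' hC hCC).closed hU hB)
  set Y : Set X := (closure (p '' T1) ∩ K)ᶜ with hYdef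
  have hYo : IsOpen Y := hPKc.isOpen_compl
  obtain ⟨W', hWo, hWa, hFW, hWe⟩ := itemZ6 Y (hCP Y)
    (fun m => {y : Y | (y : X) ∈ p '' {t | t ∈ T1 ∧ m ≤ c t}})
    (by
      intro m
      have h1 : {y : Y | (y : X) ∈ p '' {t | t ∈ T1 ∧ m ≤ c t}} =
          (fun y : Y => (y : X)) ⁻¹' closure (p '' {t | t ∈ T1 ∧ m ≤ c t}) := by
        ext y
        constructor
        · intro hy
          exact subset_closure hy
        · intro hy
          rcases hcl _ (fun t ht => ht.1) hy with h2 | h2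
          · exact h2
          · exact absurd ⟨closure_mono (image_mono fun t ht => ht.1) hy, h2.2⟩ y.2
      rw [h1]
      exact isClosed_closure.preimage continuous_subtype_val)
    (by
      intro m m' hmm y hy
      obtain ⟨t, ht, hyt⟩ := hy
      exact ⟨t, ⟨ht.1, hmm.trans ht.2⟩, hyt⟩)
    (by
      rw [eq_empty_iff_forall_notMem]
      intro y hy
      obtain ⟨t, ht, hyt⟩ := mem_iInter.1 hy 0
      obtain ⟨t', ht', hyt'⟩ := mem_iInter.1 hy (c t + 1)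
      have hne : t ≠ t' := by
        rintro rfl
        exact absurd ht'.2 (by omega)
      have h1 := hp t (hT1C₁ ht.1)
      have h2 := hp t' (hT1C₁ ht'.1)
      rw [hyt'] at h2
      rw [hyt] at h1
      exact hC₁.disj (hT1C₁ ht.1) (hT1C₁ ht'.1) hne h1.1 h1.2 h2.2)
  have hOo : ∀ m, IsOpen ((fun y : Y => (y : X)) '' W' m) := fun m =>
    hYo.isOpenEmbedding_subtypeVal.isOpenMap _ (hWo m)
  have hWY : W ⊆ Y := fun w hw h => hclW w h.1 hw
  have hWOB : OB U W := hB.mono hWc hWB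
  -- some closure misses `W`
  have hm : ∃ m, ∀ x ∈ W, x ∉ closure ((fun y : Y => (y : X)) '' W' m) := by
    by_contra hno
    push Not at hno
    choose x hx1 hx2 using hno
    obtain ⟨q, hqW, hq⟩ := hWOB.cluster hU x hx1
    have h9 : (⟨q, hWY hqW⟩ : Y) ∈ ⋂ m, closure (W' m) := by
      refine mem_iInter.2 fun m => ?_
      rw [closure_subtype]
      refine closure_minimal ?_ isClosed_closure (hq m)
      rintro _ ⟨i, hi, rfl⟩
      exact closure_mono (image_mono (hWa (mem_Ici.1 hi))) (hx2 i)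
    rw [hWe] at h9
    exact h9
  obtain ⟨m, hm⟩ := hm
  obtain ⟨γ, hγ, hγ2⟩ := hcatch (closure ((fun y : Y => (y : X)) '' W' m))ᶜ
    isClosed_closure.isOpen_compl (fun w hw => hm w hw)
  obtain ⟨t, ht, hlt, hct⟩ := hc m γ hγ
  have hpt := hγ2 t (hT1C₁ ht) hlt
  have hptY : p t ∈ Y := by
    rintro ⟨-, h1⟩
    obtain ⟨δ, hδ, h2⟩ := mem_iUnion₂.1 h1
    have hne : δ ≠ t := fun h => hT1C t ht (h ▸ hδ)
    exact hC₁.disj (hCC hδ) (hT1C₁ ht) hne (hp t (hT1C₁ ht)).1 h2 (hp t (hT1C₁ ht)).2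
  have hptO : p t ∈ (fun y : Y => (y : X)) '' W' m :=
    ⟨⟨p t, hptY⟩, hFW m ⟨t, ⟨ht, hct.ge⟩, rfl⟩, rfl⟩
  obtain ⟨z, hz1, hz2⟩ := mem_closure_iff.1 hpt _ (hOo m) hptO
  exact hz2 (subset_closure hz1)

end Pool.Agent.Work.MP_ba58b9_gt.NHIT
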