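import Pool.Agent.Work.MP_ba58b9_gt.Pf.Stmts2

/-!
# Item INF: finitely many atoms
-/

set_option autoImplicit false

open Set Filter Topology Ordinal

namespace Pool.Agent.Work.MP_ba58b9_gt.NINF

/-- The points `p δ` selected as cluster points. -/
theorem sel {X : Type} [TopologicalSpace X] {U : Ordinal.{0} → Set X} (hU : CI U)
    {B : Set X} (hB : OB U B) {W : ℕ → Set X} (hW : ∀ j, W j ⊆ B)
    {C0 : Set Ordinal.{0}} (hC0 : Club C0) (hne : ∀ δ ∈ C0, ∀ j, (W j ∩ bd (U δ)).Nonempty) :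
    ∃ (p : Ordinal.{0} → X) (w : Ordinal.{0} → ℕ → X), ∀ δ ∈ C0,
      (∀ j, w δ j ∈ W j ∩ bd (U δ)) ∧ p δ ∈ B ∩ bd (U δ) ∧ ∀ m, p δ ∈ closure (w δ '' Ici m) := by
  classical
  obtain ⟨d0, hd0, -⟩ := hC0.2.1 0 (Ordinal.omega_pos 1)
  obtain ⟨x0, -⟩ := hne d0 hd0 0
  have h1 : ∀ δ : Ordinal.{0}, ∃ (p : X) (w : ℕ → X), δ ∈ C0 →
      (∀ j, w j ∈ W j ∩ bd (U δ)) ∧ p ∈ B ∩ bd (U δ) ∧ ∀ m, p ∈ closure (w '' Ici m) := by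
    intro δ
    by_cases hδ : δ ∈ C0
    · choose w hw using hne δ hδ
      have hcpt : IsCompact (B ∩ bd (U δ)) := by
        have : B ∩ bd (U δ) = (B ∩ closure (U δ)) \ U δ := by
          ext x
          constructor
          · rintro ⟨h7, h8, h9⟩
            exact ⟨⟨h7, h8⟩, h9⟩
          · rintro ⟨⟨h7, h8⟩, h9⟩
            exact ⟨h7, h8, h9⟩
        rw [this]
        exact (hB.cpt δ (hC0.1 δ hδ)).diff (hU.opn δ (hC0.1 δ hδ))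
      obtain ⟨p, hp, hp2⟩ := seq_cluster hcpt w (fun j => ⟨hW j (hw j).1, (hw j).2⟩)
      exact ⟨p, w, fun _ => ⟨hw, hp, hp2⟩⟩
    · exact ⟨x0, fun _ => x0, fun h => absurd h hδ⟩
  choose p w h using h1
  exact ⟨p, w, h⟩

/-- The application of the proper forcing axiom. -/
theorem force (hPFA : PFA) {X : Type} [TopologicalSpace X] {U : Ordinal.{0} → Set X} (hU : CI U)
    {C0 : Set Ordinal.{0}} (hC0 : Club C0) {p : Ordinal.{0} → X}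
    (hp : ∀ δ ∈ C0, p δ ∉ U δ) {W : Set X} (hW : OB U W)
    (hhit : ∀ T ⊆ C0, Cof T → UBd U (closure (p '' T) ∩ W)) {u : Ordinal.{0} → Set X}
    (hu : ∀ δ ∈ C0, IsOpen (u δ) ∧ W ∩ closure (U δ) ⊆ u δ) :
    ∃ (Δ : Set Ordinal.{0}) (b : Ordinal.{0} → Ordinal.{0}), Club Δ ∧ Δ ⊆ C0 ∧
      (∀ δ ∈ Δ, b δ < δ) ∧ ∀ δ ∈ Δ, ∀ ε ∈ Δ, ε < δ → b δ ≤ ε → p ε ∈ u δ := by
  classical
  obtain ⟨I, o, ho, ho1, hran, -⟩ := pf_index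
  let Y : Type := {i : I // o i ∈ C0}
  let lev : Y → Ordinal.{0} := fun y => o y.1
  have hlinj : Function.Injective lev := fun y z h => Subtype.ext (ho h)
  have hlC : ∀ y : Y, lev y ∈ C0 := fun y => y.2
  obtain ⟨d0, hd0, -⟩ := hC0.2.1 0 (Ordinal.omega_pos 1)
  have h1 : ∀ Z : Set Y, ∃ (δ0 : Ordinal.{0}) (x : X), Unb lev Z → δ0 < ω₁ ∧
      x ∈ closure (p '' (lev '' Z)) ∧ x ∈ W ∧ x ∈ U δ0 := by
    intro Z
    by_cases hZ : Unb lev Z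
    · have hT := hhit (lev '' Z) (by
        rintro _ ⟨z, -, rfl⟩
        exact hlC z) (by
        intro β hβ
        obtain ⟨z, hz, hz2⟩ := hZ β hβ
        exact ⟨_, ⟨z, hz, rfl⟩, hz2⟩)
      obtain ⟨x, hx, -⟩ := not_subset.1 (hT 0 (Ordinal.omega_pos 1))
      obtain ⟨α, hα, hxα⟩ := hW.cov x hx.2
      exact ⟨α, x, fun _ => ⟨hα, hx.1, hx.2, hxα⟩⟩
    · exact ⟨0, p d0, fun h => absurd h hZ⟩
  choose δ0 x hx using h1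
  have hG : GH lev (fun z y => p (lev z) ∈ u (lev y)) C0 (fun Z => Z)
      (fun Z => {δ | δ0 Z < δ ∧ δ < ω₁}) := by
    refine ⟨fun y => ho1 _, hC0, ?_, fun Z _ => Subset.rfl, ?_, fun Z hZ => Z1_Ioi (hx Z hZ).1, ?_⟩
    · intro δ hδ
      obtain ⟨i, hi⟩ := hran δ (hC0.1 δ hδ)
      exact ⟨⟨i, by rw [hi]; exact hδ⟩, hi⟩
    · intro Z _ α hα
      refine ((Z1_countable hα).preimage_of_injOn hlinj.injOn).mono ?_
      rintro z ⟨-, hz⟩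
      exact hz
    · rintro Z hZ y₀ ⟨hy1, hy2⟩ L hL
      obtain ⟨hδ0, hxc, hxW, hxU⟩ := hx Z hZ
      have hxU' : x Z ∈ U (lev y₀) := hU.mono _ _ hy1.le hy2 hxU
      have hopn : IsOpen (u (lev y₀) ∩ (⋂ y ∈ {y : Y | y ∈ L}, u (lev y)) ∩ U (lev y₀)) := by
        refine ((hu _ (hlC y₀)).1.inter ?_).inter (hU.opn _ hy2)
        exact (List.finite_toSet L).isOpen_biInter fun y _ => (hu _ (hlC y)).1
      have hmem : x Z ∈ u (lev y₀) ∩ (⋂ y ∈ {y : Y | y ∈ L}, u (lev y)) ∩ U (lev y₀) := by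
        refine ⟨⟨(hu _ (hlC y₀)).2 ⟨hxW, subset_closure hxU'⟩, mem_iInter₂.2 fun y hy => ?_⟩, hxU'⟩
        refine (hu _ (hlC y)).2 ⟨hxW, subset_closure ?_⟩
        exact hU.mono _ _ (hL y hy).1.le (ho1 _) hxU'
      obtain ⟨q, ⟨⟨hq1, hq2⟩, hq3⟩, hq4⟩ := mem_closure_iff.1 hxc _ hopn hmem
      obtain ⟨_, ⟨z, hz, rfl⟩, rfl⟩ := hq4
      refine ⟨z, hz, ?_, hq1, fun y hy => mem_iInter₂.1 hq2 y hy⟩
      by_contra hcon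
      exact hp _ (hlC z) (hU.mono _ _ (not_lt.1 hcon) (ho1 _) hq3)
  obtain ⟨Δ, y, b, hΔ, h3, h4⟩ := gl_main hPFA hG
  refine ⟨Δ, b, hΔ, ?_, fun δ hδ => (h3 δ hδ).2, ?_⟩
  · intro δ hδ
    rw [← (h3 δ hδ).1]
    exact hlC _
  · intro δ hδ ε hε hlt hb
    have := h4 δ hδ ε hε hlt hb
    rwa [(h3 δ hδ).1, (h3 ε hε).1] at this

theorem prf (h0 : PPart) (h1 : PAtoms) (h2 : PHit) : PInf := by
  classical
  intro hPFA X _ _ _ U hU hCP B hB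
  by_contra hSm
  obtain ⟨W, hW, hWd, hWO⟩ := h1 X U hU hCP B hB hSm
  obtain ⟨CB, hCB⟩ := hB.lv hU
  choose Ci hCi hCi2 using fun j => (hW j).2.ob.ub_club hU (hW j).2.ub
  obtain ⟨D, hD, hDl, hDi⟩ := club_nat hCi
  obtain ⟨C0, hC0, hC0s⟩ := Z1_inter hD hCB.club
  have hLv : Lv U B C0 := hCB.sub' hC0 (fun δ hδ => (hC0s hδ).2)
  obtain ⟨p, w, hpw⟩ := sel hU hB (fun j => (hW j).1) hC0
    (fun δ hδ j => (hCi2 j δ (hDi j (hC0s hδ).1)).2)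
  have hQ : ∀ l, ∀ O : Set X, IsOpen O → W l ⊆ O → ∃ γ < ω₁, ∀ δ ∈ C0, γ < δ →
      p δ ∈ closure O := by
    intro l O hO hWl
    obtain ⟨J, hJ⟩ := hWO l O hO hWl
    have h3 : ∀ j : ℕ, ∃ α : Ordinal.{0}, α < ω₁ ∧ (J ≤ j → W j \ O ⊆ U α) := by
      intro j
      by_cases hj : J ≤ j
      · obtain ⟨α, hα, h4⟩ := not_ubd (hJ j hj)
        exact ⟨α, hα, fun _ => h4⟩
      · exact ⟨0, Ordinal.omega_pos 1, fun h => absurd h hj⟩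
    choose α hα hα2 using h3
    obtain ⟨γ, hγ, hγ2⟩ := seq_sup α hα
    refine ⟨γ, hγ, fun δ hδ hlt => ?_⟩
    obtain ⟨hw1, -, hp2⟩ := hpw δ hδ
    refine closure_mono ?_ (hp2 J)
    rintro _ ⟨j, hj, rfl⟩
    by_contra hcon
    have h5 := hα2 j (mem_Ici.1 hj) ⟨(hw1 j).1, hcon⟩
    exact (hw1 j).2.2 (hU.mono _ _ ((hγ2 j).trans hlt.le) (hC0.1 δ hδ) h5)
  have hHit : ∀ l, ∀ T ⊆ C0, Cof T → UBd U (closure (p '' T) ∩ W l) := fun l =>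
    h2 h0 X U hU hCP B hB C0 hLv p (fun δ hδ => (hpw δ hδ).2.1) (W l) (hW l).1 (hW l).2.ob.cl
      (hQ l)
  have hu : ∀ δ : Ordinal.{0}, ∃ u : Set X, δ ∈ C0 → IsOpen u ∧ W 0 ∩ closure (U δ) ⊆ u ∧
      closure u ⊆ (W 1)ᶜ := by
    intro δ
    by_cases hδ : δ ∈ C0
    · obtain ⟨V, hV1, hV2, hV3, -⟩ := exists_open_between_and_isCompact_closure
        ((hW 0).2.ob.cpt δ (hC0.1 δ hδ)) (hW 1).2.ob.cl.isOpen_compl (by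
          rintro x ⟨hx, -⟩ hx1
          exact Set.disjoint_left.1 (hWd 0 1 (by decide)) hx hx1)
      exact ⟨V, fun _ => ⟨hV1, hV2, hV3⟩⟩
    · exact ⟨∅, fun h => absurd h hδ⟩
  choose u hu using hu
  obtain ⟨Δ, b, hΔ, hΔC, hb, hpu⟩ := force hPFA hU hC0 (p := p)
    (fun δ hδ => (hpw δ hδ).2.1.2.2) (hW 0).2.ob (hHit 0) (u := u)
    (fun δ hδ => ⟨(hu δ hδ).1, (hu δ hδ).2.1⟩)
  obtain ⟨C, T, hC, hCs, hCl, hTS, hTu, hTC, -⟩ := club_sparse hΔ.1 hΔ.2.1 hΔ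
  have hFu := hHit 1 T (hTS.trans hΔC) hTu
  have hFO : OB U (closure (p '' T) ∩ W 1) :=
    (hW 1).2.ob.mono (isClosed_closure.inter (hW 1).2.ob.cl) inter_subset_right
  obtain ⟨CF, hCF, hCF2⟩ := hFO.ub_club hU hFu
  obtain ⟨C', hC', hC's⟩ := Z1_inter hCF hC
  obtain ⟨δ, hδ, -⟩ := hC'.2.1 0 (Ordinal.omega_pos 1)
  have hδC : δ ∈ C := (hC's hδ).2
  have hδΔ : δ ∈ Δ := hCs hδC
  have hδ0 : δ ∈ C0 := hΔC hδΔ
  obtain ⟨x, ⟨hxT, hxW⟩, hxb1, hxb2⟩ := (hCF2 δ (hC's hδ).1).2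
  have hxB : x ∈ B := (hW 1).1 hxW
  have hsplit : p '' T ⊆ (p '' {t | t ∈ T ∧ b δ ≤ t ∧ t < δ}) ∪
      ((p '' {t | t ∈ T ∧ t < b δ}) ∪ (p '' {t | t ∈ T ∧ δ < t})) := by
    rintro _ ⟨t, ht, rfl⟩
    rcases lt_trichotomy t δ with h5 | h5 | h5
    · rcases lt_or_ge t (b δ) with h6 | h6
      · exact Or.inr (Or.inl ⟨t, ⟨ht, h6⟩, rfl⟩)
      · exact Or.inl ⟨t, ⟨ht, h6, h5⟩, rfl⟩
    · exact absurd hδC (h5 ▸ hTC t ht)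
    · exact Or.inr (Or.inr ⟨t, ⟨ht, h5⟩, rfl⟩)
  have hx := closure_mono hsplit hxT
  rw [closure_union, closure_union] at hx
  rcases hx with hx | hx | hx
  · refine (hu δ hδ0).2.2 (closure_mono ?_ hx) hxW
    rintro _ ⟨t, ⟨ht, h5, h6⟩, rfl⟩
    exact hpu δ hδΔ t (hTS ht) h6 h5
  · refine hxb2 (hLv.sub δ hδ0 (b δ) (hb δ hδΔ) ⟨hxB, ?_⟩)
    refine closure_minimal ?_ isClosed_closure hx
    rintro _ ⟨t, ⟨ht, h5⟩, rfl⟩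
    have h6 := (hpw t (hΔC (hTS ht))).2.1.2.1
    exact closure_mono (hU.mono _ _ h5.le ((hb δ hδΔ).trans (hC0.1 δ hδ0))) h6
  · have hne : {t : Ordinal.{0} | t ∈ C0 ∧ δ < t}.Nonempty := by
      obtain ⟨t, ht, h5⟩ := hC0.2.1 δ (hC0.1 δ hδ0)
      exact ⟨t, ht, h5⟩
    obtain ⟨hd1, hd2⟩ := csInf_mem hne
    set d := sInf {t : Ordinal.{0} | t ∈ C0 ∧ δ < t} with hd
    have hxd : x ∈ U d := hLv.sub d hd1 δ hd2 ⟨hxB, hxb1⟩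
    obtain ⟨y, hyd, t, ⟨ht, h5⟩, rfl⟩ := mem_closure_iff.1 hx (U d) (hU.opn d (hC0.1 d hd1)) hxd
    have hdt : d ≤ t := csInf_le' (s := {t : Ordinal.{0} | t ∈ C0 ∧ δ < t})
      ⟨hΔC (hTS ht), h5⟩
    exact (hpw t (hΔC (hTS ht))).2.1.2.2
      (hU.mono _ _ hdt (hC0.1 t (hΔC (hTS ht))) hyd)

end Pool.Agent.Work.MP_ba58b9_gt.NINF
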