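import Pool.Agent.Work.MP_ba58b9_gt.Pf.Stmts2
import Pool.Agent.Work.MP_ba58b9_gt.Pf.GlE

/-!
# Item ISO: traces of atoms and isolated points of boundaries
-/

set_option autoImplicit false

open Set Filter Topology Ordinal

namespace Pool.Agent.Work.MP_ba58b9_gt.NISO

/-- Points of the closure of a sparse set of points on the boundaries. -/
theorem iso_F {X : Type} [TopologicalSpace X] {U : Ordinal.{0} → Set X} (h : CI U) {A : Set X}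
    {CA : Set Ordinal.{0}} (hCA : Lv U A CA) {x : Ordinal.{0} → X} {T : Set Ordinal.{0}}
    (hT : T ⊆ CA) (hx : ∀ t ∈ T, x t ∈ bd (U t)) {δ : Ordinal.{0}} (hδ : δ ∈ CA) (hδT : δ ∉ T)
    {q : X} (hqA : q ∈ A) (hq : q ∈ bd (U δ)) (hqc : q ∈ closure (x '' T)) {b : Ordinal.{0}}
    (hb : b < δ) : q ∈ closure (x '' {t | t ∈ T ∧ b ≤ t ∧ t < δ}) := by
  have hδω : δ < ω₁ := hCA.club.1 δ hδ
  obtain ⟨γ, hγ1, hγ2⟩ := hCA.club.2.1 δ hδω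
  have hne : ({γ | γ ∈ CA ∧ δ < γ} : Set Ordinal.{0}).Nonempty := ⟨γ, hγ1, hγ2⟩
  obtain ⟨h1, h2⟩ := csInf_mem hne
  set δ1 := sInf {γ | γ ∈ CA ∧ δ < γ} with hδ1
  have hle : ∀ t ∈ CA, δ < t → δ1 ≤ t := fun t ht htδ =>
    csInf_le' (s := {γ | γ ∈ CA ∧ δ < γ}) ⟨ht, htδ⟩
  have hδ1ω : δ1 < ω₁ := hCA.club.1 δ1 h1
  have hqU : q ∈ U δ1 := hCA.sub δ1 h1 δ h2 ⟨hqA, hq.1⟩
  have hqb : q ∉ closure (U b) := fun hqb => hq.2 (hCA.sub δ hδ b hb ⟨hqA, hqb⟩)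
  rw [mem_closure_iff]
  intro o ho hqo
  obtain ⟨y, ⟨hyo, hyU, hyb⟩, t, ht, rfl⟩ := mem_closure_iff.1 hqc
    (o ∩ (U δ1 ∩ (closure (U b))ᶜ)) (ho.inter ((h.opn δ1 hδ1ω).inter isClosed_closure.isOpen_compl))
    ⟨hqo, hqU, hqb⟩
  have htω : t < ω₁ := hCA.club.1 t (hT ht)
  refine ⟨x t, hyo, t, ⟨ht, ?_, ?_⟩, rfl⟩
  · by_contra hcon
    have hlt : t < b := not_le.1 hcon
    exact hyb (closure_mono (h.mono t b hlt.le (hb.trans hδω)) (hx t ht).1)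
  · by_contra hcon
    have hlt : δ < t := lt_of_le_of_ne (not_lt.1 hcon) (fun he => hδT (he ▸ ht))
    exact (hx t ht).2 (h.mono δ1 t (hle t (hT ht) hlt) htω hyU)

theorem iso_key {X : Type} [TopologicalSpace X] {U : Ordinal.{0} → Set X} (h : CI U)
    {O A V : Set X} (hA : Atom U A) (hAO : A ⊆ O) {α0 : Ordinal.{0}}
    (hAV : A ∩ V ⊆ U α0)
    (hstar : ∀ Z ⊆ A, IsClosed Z → UBd U Z → ∃ C, Club C ∧ ∀ δ ∈ C, Lim δ ∧ O ∩ bd (U δ) ⊆ Z ∪ V)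
    {CA C0 : Set Ordinal.{0}} (hCA : Lv U A CA) (hC0 : Club C0) (hC0A : C0 ⊆ CA)
    (hC0α : ∀ δ ∈ C0, α0 < δ) {x : Ordinal.{0} → X} (hx : ∀ δ ∈ C0, x δ ∈ A ∩ bd (U δ))
    (S : Set Ordinal.{0}) (hS : S ⊆ C0) (hSu : ∀ β < ω₁, ∃ t ∈ S, β < t) :
    ∃ T D : Set Ordinal.{0}, T ⊆ S ∧ Club D ∧ D ⊆ C0 ∧ ∀ δ ∈ D,
      O ∩ bd (U δ) ⊆ closure (x '' T) ∪ V ∧ ∀ q ∈ A ∩ bd (U δ), ∀ b < δ,
        q ∈ closure (x '' {t | t ∈ T ∧ b ≤ t ∧ t < δ}) := by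
  obtain ⟨C, T, hC, hCC0, hCl, hTS, hTu, hTC, -⟩ := club_sparse (fun t ht => hC0.1 t (hS ht)) hSu hC0
  have hZA : closure (x '' T) ⊆ A := by
    refine closure_minimal ?_ hA.ob.cl
    rintro _ ⟨t, ht, rfl⟩
    exact (hx t (hS (hTS ht))).1
  have hZu : UBd U (closure (x '' T)) := by
    intro α hα hsub
    obtain ⟨t, ht, hlt⟩ := hTu α hα
    have h1 : x t ∈ U α := hsub (subset_closure ⟨t, ht, rfl⟩)
    exact (hx t (hS (hTS ht))).2.2 (h.mono α t hlt.le (hC0.1 t (hS (hTS ht))) h1)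
  obtain ⟨C', hC', hC'2⟩ := hstar _ hZA isClosed_closure hZu
  obtain ⟨D, hD, hDs⟩ := Z1_inter hC hC'
  refine ⟨T, D, hTS, hD, fun δ hδ => hCC0 (hDs hδ).1, fun δ hδ => ⟨(hC'2 δ (hDs hδ).2).2, ?_⟩⟩
  rintro q ⟨hqA, hq⟩ b hb
  have hδ0 : δ ∈ C0 := hCC0 (hDs hδ).1
  have hqV : q ∉ V := fun hqV => hq.2 (h.mono α0 δ (hC0α δ hδ0).le (hC0.1 δ hδ0) (hAV ⟨hqA, hqV⟩))
  rcases (hC'2 δ (hDs hδ).2).2 ⟨hAO hqA, hq⟩ with h1 | h1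
  · exact iso_F h hCA (fun t ht => hC0A (hS (hTS ht))) (fun t ht => (hx t (hS (hTS ht))).2)
      (hC0A hδ0) (fun hδT => hTC δ hδT (hDs hδ).1) hqA hq h1 hb
  · exact absurd h1 hqV

theorem prf : PIsoF := by
  classical
  intro hPFA X _ _ U h hSt O A V hO hA hAO hV hAVn hstar
  obtain ⟨α0, hα0, hAV⟩ := not_ubd hAVn
  obtain ⟨CA, hCA⟩ := hA.ob.lv h
  obtain ⟨Cu, hCu, hCu2⟩ := hA.ob.ub_club h hA.ub
  obtain ⟨C1, hC1, hC1s⟩ := Z1_inter hCu hCA.club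
  obtain ⟨C0, hC0, hC0s⟩ := Z1_inter hC1 (Z1_Ioi hα0)
  have hC0u : ∀ δ ∈ C0, (A ∩ bd (U δ)).Nonempty := fun δ hδ => (hCu2 δ (hC1s (hC0s hδ).1).1).2
  have hC0A : C0 ⊆ CA := fun δ hδ => (hC1s (hC0s hδ).1).2
  have hC0α : ∀ δ ∈ C0, α0 < δ := fun δ hδ => (hC0s hδ).2.1
  obtain ⟨c0, hc0, -⟩ := hC0.2.1 0 (Ordinal.omega_pos 1)
  obtain ⟨x0, -⟩ := hC0u c0 hc0
  -- the points
  have h1 : ∀ δ : Ordinal.{0}, ∃ x : X, δ ∈ C0 → x ∈ A ∩ bd (U δ) := by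
    intro δ
    by_cases hδ : δ ∈ C0
    · obtain ⟨x, hx⟩ := hC0u δ hδ
      exact ⟨x, fun _ => hx⟩
    · exact ⟨x0, fun h' => absurd h' hδ⟩
  choose x hx using h1
  -- the neighbourhoods
  have h2 : ∀ δ : Ordinal.{0}, ∃ u : Set X, IsOpen u ∧ x δ ∈ u ∧
      ((∃ y ∈ A ∩ bd (U δ), y ≠ x δ) → ∃ y ∈ A ∩ bd (U δ), y ∉ closure u) := by
    intro δ
    by_cases hy : ∃ y ∈ A ∩ bd (U δ), y ≠ x δ
    · obtain ⟨y, hy1, hy2⟩ := hy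
      obtain ⟨u, v, hu, hv, hxu, hyv, huv⟩ := t2_separation hy2.symm
      refine ⟨u, hu, hxu, fun _ => ⟨y, hy1, fun hyc => ?_⟩⟩
      obtain ⟨z, hz1, hz2⟩ := mem_closure_iff.1 hyc v hv hyv
      exact disjoint_left.1 huv hz2 hz1
    · exact ⟨univ, isOpen_univ, mem_univ _, fun h' => absurd h' hy⟩
  choose u hu1 hu2 hu3 using h2
  have hkey := iso_key h hA hAO hAV hstar hCA hC0 hC0A hC0α hx
  obtain ⟨I, o, ho, ho1, hran, -⟩ := pf_index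
  let lev : {i : I // o i ∈ C0} → Ordinal.{0} := fun y => o y.1
  have hlev : Function.Injective lev := fun y z hyz => Subtype.ext (ho hyz)
  let R : {i : I // o i ∈ C0} → {i : I // o i ∈ C0} → Prop := fun z y => x (lev z) ∈ u (lev y)
  -- the data for unbounded sets
  have h3 : ∀ Z : Set {i : I // o i ∈ C0}, ∃ T D : Set Ordinal.{0}, Unb lev Z →
      T ⊆ lev '' Z ∧ Club D ∧ D ⊆ C0 ∧ ∀ δ ∈ D,
      O ∩ bd (U δ) ⊆ closure (x '' T) ∪ V ∧ ∀ q ∈ A ∩ bd (U δ), ∀ b < δ,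
        q ∈ closure (x '' {t | t ∈ T ∧ b ≤ t ∧ t < δ}) := by
    intro Z
    by_cases hZ : Unb lev Z
    · obtain ⟨T, D, hTD⟩ := hkey (lev '' Z) (by
        rintro _ ⟨y, -, rfl⟩
        exact y.2) (by
        intro β hβ
        obtain ⟨y, hy, hlt⟩ := hZ β hβ
        exact ⟨lev y, ⟨y, hy, rfl⟩, hlt⟩)
      exact ⟨T, D, fun _ => hTD⟩
    · exact ⟨∅, ∅, fun h' => absurd h' hZ⟩
  choose T D hTD using h3
  have hG : GH lev R C0 (fun Z => {z | z ∈ Z ∧ lev z ∈ T Z}) D := by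
    refine ⟨fun y => ho1 _, hC0, fun δ hδ => ?_, fun Z _ z hz => hz.1, fun Z _ α hα => ?_,
      fun Z hZ => (hTD Z hZ).2.1, fun Z hZ y₀ hy₀ L hL => ?_⟩
    · obtain ⟨i, rfl⟩ := hran δ (hC0.1 δ hδ)
      exact ⟨⟨i, hδ⟩, rfl⟩
    · refine ((Z1_countable hα).preimage_of_injOn hlev.injOn).mono ?_
      rintro z ⟨-, hz⟩
      exact hz
    · obtain ⟨hT1, hD1, hD2, hD3⟩ := hTD Z hZ
      have h4 := (hD3 _ hy₀).2 (x (lev y₀)) (hx _ y₀.2) 0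
        ((zero_le : 0 ≤ α0).trans_lt (hC0α _ y₀.2))
      have hGo : IsOpen (⋂ y ∈ {y | y ∈ L}, u (lev y)) :=
        (List.finite_toSet L).isOpen_biInter fun y _ => hu1 _
      obtain ⟨_, ⟨hz1, hz2⟩, t, ⟨ht, -, htlt⟩, rfl⟩ := mem_closure_iff.1 h4
        (u (lev y₀) ∩ ⋂ y ∈ {y | y ∈ L}, u (lev y)) ((hu1 _).inter hGo)
        ⟨hu2 _, mem_iInter₂.2 fun y hy => (hL y hy).2⟩
      obtain ⟨z, hz, rfl⟩ := hT1 ht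
      exact ⟨z, ⟨hz, ht⟩, htlt, hz1, fun y hy => mem_iInter₂.1 hz2 y hy⟩
  obtain ⟨Δ, y, b, hΔ, hΔ1, hΔ2⟩ := gl_main hPFA hG
  have hΔC0 : Δ ⊆ C0 := by
    intro δ hδ
    have h4 : lev (y δ) ∈ C0 := (y δ).2
    rw [(hΔ1 δ hδ).1] at h4
    exact h4
  obtain ⟨T', D', hT', hD'1, hD'2, hD'3⟩ := hkey Δ hΔC0 (fun β hβ => by
    obtain ⟨γ, hγ, hlt⟩ := hΔ.2.1 β hβ
    exact ⟨γ, hγ, hlt⟩)
  obtain ⟨E, hE, hEs⟩ := Z1_inter hΔ hD'1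
  obtain ⟨δ, ⟨-, hδi⟩, hδE⟩ := hSt E hE
  have hδΔ : δ ∈ Δ := (hEs hδE).1
  have hδ0 : δ ∈ C0 := hΔC0 hδΔ
  obtain ⟨h5, h6⟩ := hD'3 δ (hEs hδE).2
  have hxV : x δ ∉ V := fun hxV => (hx δ hδ0).2.2
    (h.mono α0 δ (hC0α δ hδ0).le (hC0.1 δ hδ0) (hAV ⟨(hx δ hδ0).1, hxV⟩))
  have h7 : ∃ q ∈ A ∩ bd (U δ), q ≠ x δ := by
    by_contra hcon
    push Not at hcon
    refine hδi (x δ) ⟨(hx δ hδ0).2, O \ V, hO.sdiff hV, ⟨hAO (hx δ hδ0).1, hxV⟩, ?_⟩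
    rintro q ⟨⟨hqO, hqV⟩, hq⟩
    rcases h5 ⟨hqO, hq⟩ with h8 | h8
    · have hqA : q ∈ A := by
        refine closure_minimal ?_ hA.ob.cl h8
        rintro _ ⟨t, ht, rfl⟩
        exact (hx t (hΔC0 (hT' ht))).1
      exact hcon q ⟨hqA, hq⟩
    · exact absurd h8 hqV
  obtain ⟨q, hq, hqc⟩ := hu3 δ h7
  refine hqc (closure_mono ?_ (h6 q hq (b δ) (hΔ1 δ hδΔ).2))
  rintro _ ⟨t, ⟨ht, hbt, htδ⟩, rfl⟩
  have h8 := hΔ2 δ hδΔ t (hT' ht) htδ hbt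
  have h9 : x (lev (y t)) ∈ u (lev (y δ)) := h8
  rw [(hΔ1 δ hδΔ).1, (hΔ1 t (hT' ht)).1] at h9
  exact h9

end Pool.Agent.Work.MP_ba58b9_gt.NISO
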