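import Pool.Agent.Work.MP_ba58b9_gt.Pf.Stmts2

/-!
# Neighbourhood bases of compact sets in locally Euclidean spaces (item NBHD)
-/

set_option autoImplicit false

open Set Filter Topology Ordinal

namespace Pool.Agent.Work.MP_ba58b9_gt.NNBHD

open Pool.Agent.Work.MP_ba58b9_gt

/-- A countable family of open sets which is a base at all points of a compact set. -/
theorem ctbl_base {n : ℕ} {X : Type} [TopologicalSpace X] (hX : LocN n X) {K : Set X}
    (hK : IsCompact K) :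
    ∃ 𝓑 : Set (Set X), 𝓑.Countable ∧ (∀ b ∈ 𝓑, IsOpen b) ∧
      ∀ x ∈ K, ∀ O : Set X, IsOpen O → x ∈ O → ∃ b ∈ 𝓑, x ∈ b ∧ b ⊆ O := by
  choose φ y hφ hy using fun x => itemZ2_chart hX x
  obtain ⟨t, -, ht⟩ := hK.elim_nhds_subcover (fun x => range (φ x)) (fun x _ =>
    (hφ x).isOpen_range.mem_nhds ⟨y x, hy x⟩)
  refine ⟨⋃ x ∈ t, (fun s => φ x '' s) '' TopologicalSpace.countableBasis _, ?_, ?_, ?_⟩
  · exact t.countable_toSet.biUnion fun x _ =>
      (TopologicalSpace.countable_countableBasis _).image _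
  · intro b hb
    simp only [mem_iUnion] at hb
    obtain ⟨x, -, s, hs, rfl⟩ := hb
    exact (hφ x).isOpenMap _ (TopologicalSpace.isOpen_of_mem_countableBasis hs)
  · intro z hz O hO hzO
    have hz' := ht hz
    simp only [mem_iUnion] at hz'
    obtain ⟨x, hx, w, rfl⟩ := hz'
    obtain ⟨s, hs, hws, hsO⟩ := (TopologicalSpace.isBasis_countableBasis _).exists_subset_of_mem_open
      (show w ∈ φ x ⁻¹' O from hzO) (hO.preimage (hφ x).continuous)
    refine ⟨φ x '' s, ?_, mem_image_of_mem _ hws, image_subset_iff.2 hsO⟩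
    simp only [mem_iUnion]
    exact ⟨x, hx, s, hs, rfl⟩

theorem prf : PNbhd := by
  intro n X _ _ hX K G hK hG hKG
  obtain ⟨hlc, hlconn, -, -, -⟩ := itemZ2 n X hX
  obtain ⟨G₀, hG₀, hKG₀, hclG, hclc⟩ := exists_open_between_and_isCompact_closure hK hG hKG
  obtain ⟨𝓑, h𝓑c, h𝓑o, h𝓑⟩ := ctbl_base hX hK
  -- finite unions
  have hfam : ∀ O : Set X, IsOpen O → K ⊆ O →
      ∃ s ⊆ 𝓑, s.Finite ∧ K ⊆ ⋃₀ s ∧ ⋃₀ s ⊆ O := by
    intro O hO hKO
    have h1 : ∀ x : X, ∃ b : Set X, x ∈ K → b ∈ 𝓑 ∧ x ∈ b ∧ b ⊆ O := by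
      intro x
      by_cases hx : x ∈ K
      · obtain ⟨b, hb, hxb, hbO⟩ := h𝓑 x hx O hO (hKO hx)
        exact ⟨b, fun _ => ⟨hb, hxb, hbO⟩⟩
      · exact ⟨∅, fun h => absurd h hx⟩
    choose b hb using h1
    obtain ⟨t, htK, ht⟩ := hK.elim_nhds_subcover b (fun x hx =>
      (h𝓑o _ (hb x hx).1).mem_nhds (hb x hx).2.1)
    refine ⟨b '' (t : Set X), ?_, t.finite_toSet.image b, ?_, ?_⟩
    · rintro _ ⟨x, hx, rfl⟩
      exact (hb x (htK x hx)).1
    · intro z hz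
      have hz' := ht hz
      simp only [mem_iUnion] at hz'
      obtain ⟨x, hx, hzx⟩ := hz'
      exact ⟨b x, ⟨x, hx, rfl⟩, hzx⟩
    · rintro z ⟨_, ⟨x, hx, rfl⟩, hzx⟩
      exact (hb x (htK x hx)).2.2 hzx
  let F : Set (Set X) := {B | ∃ s ⊆ 𝓑, s.Finite ∧ K ⊆ ⋃₀ s ∧ B = ⋃₀ s}
  have hFc : F.Countable := by
    have h2 : {s : Set (Set X) | s.Finite ∧ s ⊆ 𝓑}.Countable := Set.countable_ofPred_finite_subset h𝓑c
    refine (h2.image (fun s => ⋃₀ s)).mono ?_
    rintro B ⟨s, hs, hsf, -, rfl⟩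
    exact ⟨s, ⟨hsf, hs⟩, rfl⟩
  have hFne : F.Nonempty := by
    obtain ⟨s, hs, hsf, hKs, -⟩ := hfam univ isOpen_univ (subset_univ _)
    exact ⟨⋃₀ s, s, hs, hsf, hKs, rfl⟩
  obtain ⟨f, hf⟩ := hFc.exists_eq_range hFne
  have hfo : ∀ j, IsOpen (f j) ∧ K ⊆ f j := by
    intro j
    have : f j ∈ F := hf ▸ mem_range_self j
    obtain ⟨s, hs, -, hKs, hB⟩ := this
    rw [hB]
    exact ⟨isOpen_sUnion fun b hb => h𝓑o b (hs hb), hKs⟩
  let V' : ℕ → Set X := fun i => G₀ ∩ ⋂ j ∈ Set.Iic i, f j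
  have hV'o : ∀ i, IsOpen (V' i) := fun i =>
    hG₀.inter ((Set.finite_Iic i).isOpen_biInter fun j _ => (hfo j).1)
  have hV'K : ∀ i, K ⊆ V' i := fun i =>
    subset_inter hKG₀ (subset_iInter₂ fun j _ => (hfo j).2)
  have hV'a : ∀ i j, i ≤ j → V' j ⊆ V' i := fun i j hij =>
    inter_subset_inter_right _ (biInter_subset_biInter_left (Set.Iic_subset_Iic.2 hij))
  have hsub : ∀ i, (⋃ x ∈ K, connectedComponentIn (V' i) x) ⊆ V' i := fun i =>
    iUnion₂_subset fun x _ => connectedComponentIn_subset _ _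
  have hcl : closure (⋃ x ∈ K, connectedComponentIn (V' 0) x) ⊆ closure G₀ :=
    closure_mono ((hsub 0).trans inter_subset_left)
  refine ⟨fun i => ⋃ x ∈ K, connectedComponentIn (V' i) x, ?_, ?_, ?_, ?_, ?_, ?_⟩
  · intro i j hij
    exact iUnion₂_mono fun x _ => connectedComponentIn_mono x (hV'a i j hij)
  · intro i
    refine ⟨isOpen_biUnion fun x _ => (hV'o i).connectedComponentIn, fun x hx => ?_⟩
    exact mem_biUnion hx (mem_connectedComponentIn (hV'K i hx))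
  · exact hclc.of_isClosed_subset isClosed_closure hcl
  · exact hcl.trans hclG
  · intro O hO hKO
    obtain ⟨s, hs, hsf, hKs, hsO⟩ := hfam O hO hKO
    have : ⋃₀ s ∈ range f := hf ▸ ⟨s, hs, hsf, hKs, rfl⟩
    obtain ⟨i, hi⟩ := this
    refine ⟨i, (hsub i).trans ?_⟩
    refine inter_subset_right.trans ((biInter_subset_of_mem (Set.mem_Iic.2 le_rfl)).trans ?_)
    rw [hi]
    exact hsO
  · intro i z hz
    simp only [mem_iUnion] at hz
    obtain ⟨x, hx, hzx⟩ := hz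
    exact ⟨connectedComponentIn (V' i) x, subset_biUnion_of_mem (u := fun x =>
      connectedComponentIn (V' i) x) hx, isPreconnected_connectedComponentIn, hzx, x,
      mem_connectedComponentIn (hV'K i hx), hx⟩

end Pool.Agent.Work.MP_ba58b9_gt.NNBHD
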