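import Pool.Agent.Work.MP_ba58b9_gt.Pf.Stmts3

/-!
# Item NORMONE: Hausdorff one-dimensional manifolds are normal
-/

set_option autoImplicit false

open Set Filter Topology

namespace Pool.Agent.Work.MP_ba58b9_gt.NNORMONE

open Pool.Agent.Work.MP_ba58b9_gt

variable {X : Type} [TopologicalSpace X]

/-- the parametrization of a chart -/
theorem emb {N : Set X} (hN : IsOpen N) (φ : N ≃ₜ ℝ) :
    IsOpenEmbedding (fun r : ℝ => ((φ.symm r : N) : X)) :=
  hN.isOpenEmbedding_subtypeVal.comp φ.symm.isOpenEmbedding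

/-- one-dimensional manifolds are locally connected -/
theorem locConn (h : ∀ x : X, ∃ N : Set X, IsOpen N ∧ x ∈ N ∧ Nonempty (N ≃ₜ ℝ)) :
    LocallyConnectedSpace X := by
  rw [locallyConnectedSpace_iff_connected_subsets]
  intro x U hU
  obtain ⟨N, hN, hx, ⟨φ⟩⟩ := h x
  have he := emb hN φ
  have hxe : (fun r : ℝ => ((φ.symm r : N) : X)) (φ ⟨x, hx⟩) = x := by simp
  have h1 : (fun r : ℝ => ((φ.symm r : N) : X)) ⁻¹' U ∈ 𝓝 (φ ⟨x, hx⟩) := by
    apply he.continuous.continuousAt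
    rw [hxe]
    exact hU
  obtain ⟨ε, hε, hb⟩ := Metric.mem_nhds_iff.1 h1
  refine ⟨(fun r : ℝ => ((φ.symm r : N) : X)) '' Metric.ball (φ ⟨x, hx⟩) ε, ?_, ?_, ?_⟩
  · apply (he.isOpenMap _ Metric.isOpen_ball).mem_nhds
    exact ⟨φ ⟨x, hx⟩, Metric.mem_ball_self hε, hxe⟩
  · exact ((convex_ball _ _).isPreconnected).image _ he.continuous.continuousOn
  · rintro _ ⟨r, hr, rfl⟩
    exact hb hr

/-- a bounded open embedding of the line in the line -/
theorem line (a ε : ℝ) (hε : 0 < ε) : ∃ g : ℝ → ℝ, IsOpenEmbedding g ∧ g 0 = a ∧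
    ∀ t, g t ∈ Metric.closedBall a ε := by
  have h1 : IsOpenEmbedding (fun t : ℝ => Real.arctan t) := by
    have h2 : (fun t : ℝ => Real.arctan t) =
        (fun w : Ioo (-(Real.pi / 2)) (Real.pi / 2) => (w : ℝ)) ∘
          Real.tanOrderIso.symm.toHomeomorph := by
      funext t
      rfl
    rw [h2]
    exact isOpen_Ioo.isOpenEmbedding_subtypeVal.comp
      Real.tanOrderIso.symm.toHomeomorph.isOpenEmbedding
  have hc : ε / 2 ≠ 0 := by positivity
  refine ⟨fun t => a + (ε / 2) * Real.arctan t, ?_, by simp, ?_⟩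
  · exact (Homeomorph.addLeft a).isOpenEmbedding.comp
      ((Homeomorph.mulLeft₀ (ε / 2) hc).isOpenEmbedding.comp h1)
  · intro t
    rw [Metric.mem_closedBall, Real.dist_eq]
    have h3 : |Real.arctan t| ≤ 2 := by
      rw [abs_le]
      have := Real.neg_pi_div_two_lt_arctan t
      have := Real.arctan_lt_pi_div_two t
      have := Real.pi_lt_d2
      constructor <;> linarith
    have h4 : |a + ε / 2 * Real.arctan t - a| = ε / 2 * |Real.arctan t| := by
      rw [add_sub_cancel_left, abs_mul, abs_of_pos (by positivity)]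
    rw [h4]
    nlinarith

/-- small charts -/
theorem small [T2Space X] (h : ∀ x : X, ∃ N : Set X, IsOpen N ∧ x ∈ N ∧ Nonempty (N ≃ₜ ℝ))
    (x : X) (U : Set X) (hU : U ∈ 𝓝 x) :
    ∃ N : Set X, IsOpen N ∧ x ∈ N ∧ Nonempty (N ≃ₜ ℝ) ∧ closure N ⊆ U := by
  obtain ⟨N, hN, hx, ⟨φ⟩⟩ := h x
  have he := emb hN φ
  have hxe : (fun r : ℝ => ((φ.symm r : N) : X)) (φ ⟨x, hx⟩) = x := by simp
  have h1 : (fun r : ℝ => ((φ.symm r : N) : X)) ⁻¹' U ∈ 𝓝 (φ ⟨x, hx⟩) := by
    apply he.continuous.continuousAt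
    rw [hxe]
    exact hU
  obtain ⟨ε, hε, hb⟩ := Metric.nhds_basis_closedBall.mem_iff.1 h1
  obtain ⟨g, hg, hg0, hgb⟩ := line (φ ⟨x, hx⟩) ε hε
  have hf := he.comp hg
  refine ⟨range ((fun r : ℝ => ((φ.symm r : N) : X)) ∘ g), hf.isOpen_range, ⟨0, ?_⟩,
    ⟨hf.isEmbedding.toHomeomorph.symm⟩, ?_⟩
  · show (fun r : ℝ => ((φ.symm r : N) : X)) (g 0) = x
    rw [hg0]
    exact hxe
  · have h2 : IsClosed ((fun r : ℝ => ((φ.symm r : N) : X)) '' Metric.closedBall (φ ⟨x, hx⟩) ε) :=
      ((isCompact_closedBall _ _).image he.continuous).isClosed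
    refine (closure_minimal ?_ h2).trans ?_
    · rintro _ ⟨t, rfl⟩
      exact ⟨g t, hgb t, rfl⟩
    · rintro _ ⟨r, hr, rfl⟩
      exact hb hr

/-- a set without three distinct points is finite -/
theorem fin_of_three {S : Set X}
    (h : ∀ e₁ ∈ S, ∀ e₂ ∈ S, ∀ e₃ ∈ S, e₁ = e₂ ∨ e₁ = e₃ ∨ e₂ = e₃) : S.Finite := by
  by_cases h1 : ∃ a ∈ S, ∃ b ∈ S, a ≠ b
  · obtain ⟨a, ha, b, hb, hab⟩ := h1
    refine (Set.toFinite {a, b}).subset ?_
    intro c hc
    rcases h a ha b hb c hc with h2 | h2 | h2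
    · exact absurd h2 hab
    · exact Or.inl h2.symm
    · exact Or.inr h2.symm
  · push_neg at h1
    exact Set.Subsingleton.finite fun a ha b hb => h1 a ha b hb

/-- one side of a point in a chart -/
theorem side [T2Space X] [LocallyConnectedSpace X] {A O : Set X} (hO : IsOpen O)
    (hOA : ∀ z ∈ O, z ∉ A) (P : Set X → Set X)
    (hPo : ∀ y ∈ O, IsOpen (P (connectedComponentIn O y)))
    (hPf : ∀ y ∈ O, frontier (connectedComponentIn O y) ∩ A ⊆ P (connectedComponentIn O y))
    {N : Set X} (hN : IsOpen N) (φ : N ≃ₜ ℝ) (x : N) (hxA : (x : X) ∈ A) :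
    ∃ V : Set X, IsOpen V ∧ (x : X) ∈ V ∧ ∀ w : N, φ x < φ w → (w : X) ∈ V → (w : X) ∈ O →
      ¬ connectedComponentIn O (w : X) ⊆ N → (w : X) ∈ P (connectedComponentIn O (w : X)) := by
  have hxO : (x : X) ∉ O := fun h => hOA _ h hxA
  by_cases h0 : ∃ w : N, φ x < φ w ∧ (w : X) ∈ O ∧ ¬ connectedComponentIn O (w : X) ⊆ N
  swap
  · push_neg at h0
    refine ⟨univ, isOpen_univ, mem_univ _, ?_⟩
    intro w h1 _ h2 h3
    exact absurd (h0 w h1 h2) h3
  obtain ⟨w₀, hw₀, hw₀O, hw₀N⟩ := h0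
  have key : ∀ w w' : N, φ x < φ w → φ w < φ w' → (w : X) ∈ O → (w' : X) ∈ O →
      ¬ connectedComponentIn O (w : X) ⊆ N →
      connectedComponentIn O (w : X) = connectedComponentIn O (w' : X) := by
    intro w w' h1 h2 h3 h4 h5
    apply connectedComponentIn_eq
    by_contra h6
    exact ray hN φ isPreconnected_connectedComponentIn h5 h1 h2
      (fun h => hxO (connectedComponentIn_subset _ _ h)) h6 (mem_connectedComponentIn h3)
  have key2 : ∀ w : N, φ x < φ w → (w : X) ∈ O → ¬ connectedComponentIn O (w : X) ⊆ N →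
      connectedComponentIn O (w : X) = connectedComponentIn O (w₀ : X) := by
    intro w h1 h2 h3
    rcases lt_trichotomy (φ w) (φ w₀) with h4 | h4 | h4
    · exact key w w₀ h1 h4 h2 hw₀O h3
    · rw [φ.injective h4]
    · exact (key w₀ w hw₀ h4 hw₀O h2 hw₀N).symm
  have hJo : IsOpen (connectedComponentIn O (w₀ : X)) := hO.connectedComponentIn
  by_cases h1 : (x : X) ∈ closure (connectedComponentIn O (w₀ : X))
  · refine ⟨P (connectedComponentIn O (w₀ : X)), hPo _ hw₀O, hPf _ hw₀O ⟨?_, hxA⟩, ?_⟩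
    · rw [hJo.frontier_eq]
      exact ⟨h1, fun h => hxO (connectedComponentIn_subset _ _ h)⟩
    · intro w h2 h3 h4 h5
      rw [key2 w h2 h4 h5]
      exact h3
  · refine ⟨(closure (connectedComponentIn O (w₀ : X)))ᶜ, isClosed_closure.isOpen_compl, h1, ?_⟩
    intro w h2 h3 h4 h5
    exfalso
    apply h3
    apply subset_closure
    rw [← key2 w h2 h4 h5]
    exact mem_connectedComponentIn h4

/-- the enlarged set is open -/
theorem openG [T2Space X] [LocallyConnectedSpace X]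
    (h : ∀ x : X, ∃ N : Set X, IsOpen N ∧ x ∈ N ∧ Nonempty (N ≃ₜ ℝ))
    {A B O : Set X} (hB : IsClosed B) (hAB : Disjoint A B) (hO : IsOpen O)
    (hOiff : ∀ z, z ∈ O ↔ (z ∉ A ∧ z ∉ B)) (P : Set X → Set X)
    (hPo : ∀ y ∈ O, IsOpen (P (connectedComponentIn O y)))
    (hPf : ∀ y ∈ O, frontier (connectedComponentIn O y) ∩ A ⊆ P (connectedComponentIn O y))
    (hPu : ∀ y ∈ O, frontier (connectedComponentIn O y) ∩ B = ∅ →
      (frontier (connectedComponentIn O y) ∩ A).Nonempty → P (connectedComponentIn O y) = univ) :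
    IsOpen {y | y ∈ A ∨ (y ∈ O ∧ y ∈ P (connectedComponentIn O y))} := by
  rw [isOpen_iff_mem_nhds]
  rintro x (hx | ⟨hxO, hxP⟩)
  · have hxB : x ∉ B := fun hb => (disjoint_left.1 hAB) hx hb
    obtain ⟨N, hN, hxN, ⟨φ⟩, hcl⟩ := small h x Bᶜ (hB.isOpen_compl.mem_nhds hxB)
    have hOA : ∀ z ∈ O, z ∉ A := fun z hz => ((hOiff z).1 hz).1
    obtain ⟨V₁, hV₁, hxV₁, h1⟩ := side hO hOA P hPo hPf hN φ ⟨x, hxN⟩ hx
    obtain ⟨V₂, hV₂, hxV₂, h2⟩ :=
      side hO hOA P hPo hPf hN (φ.trans (Homeomorph.neg ℝ)) ⟨x, hxN⟩ hx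
    have hxO : x ∉ O := fun h => hOA _ h hx
    have hmem : N ∩ V₁ ∩ V₂ ∈ 𝓝 x :=
      ((hN.inter hV₁).inter hV₂).mem_nhds ⟨⟨hxN, hxV₁⟩, hxV₂⟩
    refine mem_of_superset hmem ?_
    rintro w ⟨⟨hwN, hwV₁⟩, hwV₂⟩
    have hwB : w ∉ B := hcl (subset_closure hwN)
    by_cases hwA : w ∈ A
    · exact Or.inl hwA
    have hwO : w ∈ O := (hOiff w).2 ⟨hwA, hwB⟩
    refine Or.inr ⟨hwO, ?_⟩
    by_cases hJ : connectedComponentIn O w ⊆ N
    · have hfB : frontier (connectedComponentIn O w) ∩ B = ∅ := by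
        rw [eq_empty_iff_forall_notMem]
        rintro z ⟨hz1, hz2⟩
        exact hcl (closure_mono hJ (frontier_subset_closure hz1)) hz2
      have hJo : IsOpen (connectedComponentIn O w) := hO.connectedComponentIn
      have hfne : (frontier (connectedComponentIn O w)).Nonempty := by
        rw [nonempty_iff_ne_empty]
        intro hf
        have hclop : IsClopen (connectedComponentIn O w) := by
          rw [isClopen_iff_frontier_eq_empty]
          exact hf
        have hNc : IsPreconnected N := by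
          have h3 : IsPreconnected (range (fun r : ℝ => ((φ.symm r : N) : X))) :=
            isPreconnected_range (emb hN φ).continuous
          have h4 : range (fun r : ℝ => ((φ.symm r : N) : X)) = N := by
            ext z
            constructor
            · rintro ⟨r, rfl⟩
              exact (φ.symm r).2
            · intro hz
              exact ⟨φ ⟨z, hz⟩, by simp⟩
          rwa [h4] at h3
        have h5 : N ⊆ connectedComponentIn O w :=
          hNc.subset_isClopen hclop ⟨w, hwN, mem_connectedComponentIn hwO⟩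
        exact hxO (connectedComponentIn_subset _ _ (h5 hxN))
      have hfO : ∀ z ∈ frontier (connectedComponentIn O w), z ∉ O := by
        intro z hz hzO
        rw [hJo.frontier_eq] at hz
        have h6 : IsOpen (connectedComponentIn O z) := hO.connectedComponentIn
        obtain ⟨v, hv1, hv2⟩ := mem_closure_iff.1 hz.1 _ h6 (mem_connectedComponentIn hzO)
        apply hz.2
        rw [connectedComponentIn_eq hv2, ← connectedComponentIn_eq hv1]
        exact mem_connectedComponentIn hzO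
      have hfA : (frontier (connectedComponentIn O w) ∩ A).Nonempty := by
        obtain ⟨z, hz⟩ := hfne
        refine ⟨z, hz, ?_⟩
        by_contra hzA
        apply hfO z hz
        refine (hOiff z).2 ⟨hzA, fun hzB => ?_⟩
        have : z ∈ frontier (connectedComponentIn O w) ∩ B := ⟨hz, hzB⟩
        rw [hfB] at this
        exact this
      rw [hPu w hwO hfB hfA]
      exact mem_univ _
    · have hne : φ ⟨w, hwN⟩ ≠ φ ⟨x, hxN⟩ := by
        intro h3
        have h4 := φ.injective h3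
        have h5 : w = x := congrArg Subtype.val h4
        exact hxO (h5 ▸ hwO)
      rcases lt_or_gt_of_ne hne with h3 | h3
      · refine h2 ⟨w, hwN⟩ ?_ hwV₂ hwO hJ
        show -(φ ⟨x, hxN⟩) < -(φ ⟨w, hwN⟩)
        linarith
      · exact h1 ⟨w, hwN⟩ h3 hwV₁ hwO hJ
  · have hJo : IsOpen (connectedComponentIn O x) := hO.connectedComponentIn
    refine mem_of_superset ((hJo.inter (hPo x hxO)).mem_nhds
      ⟨mem_connectedComponentIn hxO, hxP⟩) ?_
    rintro w ⟨hw1, hw2⟩
    refine Or.inr ⟨connectedComponentIn_subset _ _ hw1, ?_⟩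
    rw [← connectedComponentIn_eq hw1]
    exact hw2

/-- item NORMONE -/
theorem prf (hends : PEnds) : PNormOne := by
  intro X _ _ h
  haveI : LocallyConnectedSpace X := locConn h
  refine ⟨fun A B hA hB hAB => ?_⟩
  set O : Set X := (A ∪ B)ᶜ with hOdef
  have hO : IsOpen O := (hA.union hB).isOpen_compl
  have hOiff : ∀ z, z ∈ O ↔ (z ∉ A ∧ z ∉ B) := by
    intro z
    rw [hOdef, mem_compl_iff, mem_union, not_or]
  have hex : ∀ J : Set X, ∃ PQ : Set X × Set X, (∃ y ∈ O, J = connectedComponentIn O y) →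
      IsOpen PQ.1 ∧ IsOpen PQ.2 ∧ Disjoint PQ.1 PQ.2 ∧ frontier J ∩ A ⊆ PQ.1 ∧
      frontier J ∩ B ⊆ PQ.2 ∧
      (frontier J ∩ B = ∅ → (frontier J ∩ A).Nonempty → PQ.1 = univ) ∧
      (frontier J ∩ A = ∅ → (frontier J ∩ B).Nonempty → PQ.2 = univ) := by
    intro J
    by_cases hJ : ∃ y ∈ O, J = connectedComponentIn O y
    swap
    · exact ⟨(∅, ∅), fun h => absurd h hJ⟩
    obtain ⟨y, hy, rfl⟩ := hJ
    have hfin : (frontier (connectedComponentIn O y)).Finite :=
      fin_of_three (hends X h _ hO.connectedComponentIn isPreconnected_connectedComponentIn)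
    rcases eq_empty_or_nonempty (frontier (connectedComponentIn O y) ∩ A) with hfa | hfa
    · refine ⟨(∅, univ), fun _ => ⟨isOpen_empty, isOpen_univ, disjoint_bot_left, ?_,
        subset_univ _, ?_, fun _ _ => rfl⟩⟩
      · rw [hfa]
      · intro _ hne
        rw [hfa] at hne
        exact absurd hne (by simp)
    rcases eq_empty_or_nonempty (frontier (connectedComponentIn O y) ∩ B) with hfb | hfb
    · refine ⟨(univ, ∅), fun _ => ⟨isOpen_univ, isOpen_empty, disjoint_bot_right,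
        subset_univ _, ?_, fun _ _ => rfl, ?_⟩⟩
      · rw [hfb]
      · intro hne _
        rw [hne] at hfa
        exact absurd hfa (by simp)
    have h1 : IsCompact (frontier (connectedComponentIn O y) ∩ A) :=
      (hfin.subset inter_subset_left).isCompact
    have h2 : IsCompact (frontier (connectedComponentIn O y) ∩ B) :=
      (hfin.subset inter_subset_left).isCompact
    have h3 : Disjoint (frontier (connectedComponentIn O y) ∩ A)
        (frontier (connectedComponentIn O y) ∩ B) :=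
      hAB.mono inter_subset_right inter_subset_right
    obtain ⟨U, V, hU, hV, hAU, hBV, hUV⟩ := SeparatedNhds.of_isCompact_isCompact h1 h2 h3
    refine ⟨(U, V), fun _ => ⟨hU, hV, hUV, hAU, hBV, ?_, ?_⟩⟩
    · intro hne _
      rw [hne] at hfb
      exact absurd hfb (by simp)
    · intro hne _
      rw [hne] at hfa
      exact absurd hfa (by simp)
  choose PQ hPQ using hex
  have hPQ' : ∀ y ∈ O, _ := fun y hy => hPQ (connectedComponentIn O y) ⟨y, hy, rfl⟩
  refine ⟨{y | y ∈ A ∨ (y ∈ O ∧ y ∈ (PQ (connectedComponentIn O y)).1)},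
    {y | y ∈ B ∨ (y ∈ O ∧ y ∈ (PQ (connectedComponentIn O y)).2)}, ?_, ?_,
    fun y hy => Or.inl hy, fun y hy => Or.inl hy, ?_⟩
  · exact openG h hB hAB hO hOiff (fun J => (PQ J).1) (fun y hy => (hPQ' y hy).1)
      (fun y hy => (hPQ' y hy).2.2.2.1) (fun y hy => (hPQ' y hy).2.2.2.2.2.1)
  · exact openG h hA hAB.symm hO (fun z => (hOiff z).trans and_comm) (fun J => (PQ J).2)
      (fun y hy => (hPQ' y hy).2.1) (fun y hy => (hPQ' y hy).2.2.2.2.1)
      (fun y hy => (hPQ' y hy).2.2.2.2.2.2)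
  · rw [disjoint_left]
    rintro y (h1 | ⟨h1, h1'⟩) (h2 | ⟨h2, h2'⟩)
    · exact (disjoint_left.1 hAB) h1 h2
    · exact ((hOiff y).1 h2).1 h1
    · exact ((hOiff y).1 h1).2 h2
    · exact (disjoint_left.1 (hPQ' y h1).2.2.1) h1' h2'

end Pool.Agent.Work.MP_ba58b9_gt.NNORMONE
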