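import Pool.Agent.Work.MP_ba58b9_gt.Pf.Stmts2

/-!
# Item NOWILD
-/

set_option autoImplicit false

open Set Filter Topology Ordinal

namespace Pool.Agent.Work.MP_ba58b9_gt.NNOWILD

/-- compactness of the traces -/
theorem cpt_tr {X : Type} [TopologicalSpace X] {U : Ordinal.{0} → Set X} (h : CI U) {W : Set X}
    (hW : OB U W) {ε : Ordinal.{0}} (hε : ε < ω₁) : IsCompact (W ∩ bd (U ε)) := by
  have : W ∩ bd (U ε) = (W ∩ closure (U ε)) \ U ε := by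
    ext x
    constructor
    · rintro ⟨h7, h8, h9⟩
      exact ⟨⟨h7, h8⟩, h9⟩
    · rintro ⟨⟨h7, h8⟩, h9⟩
      exact ⟨h7, h8, h9⟩
  rw [this]
  exact (hW.cpt ε hε).diff (h.opn ε hε)

/-- the limits of a cofinal set contain a club -/
theorem lim_club {T : Set Ordinal.{0}} (hT : ∀ t ∈ T, t < ω₁) (hc : Cof T) :
    ∃ C, Club C ∧ ∀ δ ∈ C, ∀ β < δ, ∃ t ∈ T, β < t ∧ t < δ := by
  have h1 : ∀ β : Ordinal.{0}, ∃ t : Ordinal.{0}, β < ω₁ → t ∈ T ∧ β < t := by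
    intro β
    by_cases hβ : β < ω₁
    · obtain ⟨t, h1, h2⟩ := hc β hβ
      exact ⟨t, fun _ => ⟨h1, h2⟩⟩
    · exact ⟨0, fun h => absurd h hβ⟩
  choose g hg using h1
  refine ⟨_, Z1_diag (fun β => {δ | g β < δ ∧ δ < ω₁})
    (fun β hβ => Z1_Ioi (hT _ (hg β hβ).1)), fun δ hδ β hβ => ?_⟩
  have h2 := hg β (hβ.trans hδ.1.1)
  exact ⟨g β, h2.1, h2.2, (hδ.2 β hβ).1⟩

/-- the trace at `ε` is disjoint from the closure of the union of the members of the chain with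
index in `C` below `ε` -/
theorem tr_below {X : Type} [TopologicalSpace X] {U : Ordinal.{0} → Set X} (h : CI U) {W : Set X}
    {C₁ C : Set Ordinal.{0}} (hlv : Lv U W C₁) (hC : Club C) {ε : Ordinal.{0}} (hε : ε ∈ C₁)
    (hεC : ε ∉ C) {x : X} (hxW : x ∈ W) (hx : x ∈ bd (U ε)) :
    x ∉ closure (⋃ c ∈ {c | c ∈ C ∧ c < ε}, U c) := by
  have hεω : ε < ω₁ := hlv.club.1 ε hε
  rcases ({c | c ∈ C ∧ c < ε} : Set Ordinal.{0}).eq_empty_or_nonempty with he | hne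
  · rw [he]
    simp
  · have hcount : ({c | c ∈ C ∧ c < ε} : Set Ordinal.{0}).Countable :=
      (Z1_countable hεω).mono fun c hc => hc.2
    obtain ⟨γ, hγ1, hγ2, hγ3⟩ := ctbl_lub hcount hne (fun c => c) (fun c hc => hc.2.trans hεω)
    have hγC : γ ∈ C := by
      by_cases hmem : ∃ c ∈ C, c < ε ∧ γ ≤ c
      · obtain ⟨c, h1, h2, h3⟩ := hmem
        have : γ = c := le_antisymm h3 (hγ2 c ⟨h1, h2⟩)
        rw [this]
        exact h1
      · push Not at hmem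
        obtain ⟨c0, hc0⟩ := hne
        refine hC.2.2 γ hγ1 ?_ fun β hβ => ?_
        · have h4 := hmem c0 hc0.1 hc0.2
          exact pos_iff_ne_zero.1 (lt_of_le_of_lt zero_le h4)
        · obtain ⟨c, hc, h5⟩ := hγ3 β hβ
          exact ⟨c, hc.1, h5, hmem c hc.1 hc.2⟩
    have hγε : γ ≤ ε := by
      by_contra hcon
      obtain ⟨c, hc, h9⟩ := hγ3 ε (not_le.1 hcon)
      exact absurd hc.2 (not_lt.2 h9.le)
    have hγlt : γ < ε := lt_of_le_of_ne hγε fun h' => hεC (h' ▸ hγC)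
    intro hx2
    have hsub : (⋃ c ∈ {c | c ∈ C ∧ c < ε}, U c) ⊆ U γ :=
      iUnion₂_subset fun c hc => h.mono _ _ (hγ2 c hc) hγ1
    exact hx.2 (hlv.sub ε hε γ hγlt ⟨hxW, closure_mono hsub hx2⟩)

theorem prf : PNoWild := by
  classical
  intro hPart X _ _ hCP U h W hW C₁ V N hTD S D hSC₁ hScof hD hDC₁ hwild
  have hC₁ω : ∀ δ ∈ C₁, δ < ω₁ := hTD.lv.club.1
  obtain ⟨C, T, hC, hCD, hCl, hTS, hTu, hTC, hTl⟩ := club_sparse (S := S) (C₁ := D)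
    (fun t ht => hC₁ω t (hSC₁ ht)) hScof hD
  have hTC₁ : T ⊆ C₁ := hTS.trans hSC₁
  have hTω : ∀ t ∈ T, t < ω₁ := fun t ht => hC₁ω t (hTC₁ ht)
  have hCω : ∀ c ∈ C, c < ω₁ := hC.1
  have hCC₁ : C ⊆ C₁ := hCD.trans hDC₁
  have hLvC : Lv U W C := hTD.lv.sub' hC hCC₁
  set K : Set X := ⋃ δ ∈ C, bd (U δ) with hKdef
  have hKcl : IsClosed (W ∩ K) := hLvC.closed h hW
  set Y : Set X := (W ∩ K)ᶜ with hYdef
  have hYo : IsOpen Y := hKcl.isOpen_compl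
  set E : Ordinal.{0} → Set X := fun ε => W ∩ bd (U ε) with hEdef
  have hEc : ∀ ε ∈ T, IsCompact (E ε) := fun ε hε => cpt_tr h hW (hTω ε hε)
  have hEK : ∀ ε ∈ T, ∀ x ∈ E ε, x ∈ Y := by
    intro ε hε x hx hxK
    obtain ⟨δ, hδ, h8⟩ := mem_iUnion₂.1 hxK.2
    have hne : δ ≠ ε := fun h' => hTC ε hε (h' ▸ hδ)
    exact hTD.lv.disj (hCC₁ hδ) (hTC₁ hε) hne hx.1 h8 hx.2
  obtain ⟨c, hc⟩ := hPart T hTω hTu
  let F : ℕ → Set Y := fun m => {y : Y | ∃ ε ∈ T, m ≤ c ε ∧ (y : X) ∈ E ε}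
  have hFcl : ∀ m, IsClosed (F m) := by
    intro m
    have h1 := cl_levels h hW (C := C) (T := {ε | ε ∈ T ∧ m ≤ c ε}) hTD.lv
      (fun t ht => hTC₁ ht.1) (fun δ hδ h0 hl => hTl δ hδ h0 fun β hβ => by
        obtain ⟨t, ht, h2⟩ := hl β hβ
        exact ⟨t, ht.1, h2⟩) (E := E) (fun t ht => hEc t ht.1) (fun t ht => Subset.rfl)
    rw [← closure_subset_iff_isClosed]
    intro y hy
    rw [closure_subtype] at hy
    have h2 : (y : X) ∈ closure (⋃ t ∈ {ε | ε ∈ T ∧ m ≤ c ε}, E t) := by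
      refine closure_mono ?_ hy
      rintro _ ⟨z, ⟨ε, hε, hm, hz⟩, rfl⟩
      exact mem_iUnion₂.2 ⟨ε, ⟨hε, hm⟩, hz⟩
    rcases h1 h2 with h3 | h3
    · obtain ⟨ε, hε, hz⟩ := mem_iUnion₂.1 h3
      exact ⟨ε, hε.1, hε.2, hz⟩
    · exact absurd h3 y.2
  have hFanti : Antitone F := by
    rintro m m' hmm y ⟨ε, hε, hm, hy⟩
    exact ⟨ε, hε, hmm.trans hm, hy⟩
  have hFe : (⋂ m, F m) = ∅ := by
    rw [eq_empty_iff_forall_notMem]
    intro y hy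
    obtain ⟨ε, hε, -, hyε⟩ := mem_iInter.1 hy 0
    obtain ⟨ε', hε', hm, hyε'⟩ := mem_iInter.1 hy (c ε + 1)
    have hne : ε' ≠ ε := by
      rintro rfl
      omega
    exact hTD.lv.disj (hTC₁ hε') (hTC₁ hε) hne hyε.1 hyε'.2 hyε.2
  obtain ⟨W', hWo, hWa, hFW, hWe⟩ := itemZ6 Y (hCP Y) F hFcl hFanti hFe
  set O : ℕ → Set X := fun m => (fun y : Y => (y : X)) '' W' m with hOdef
  have hOo : ∀ m, IsOpen (O m) := fun m => hYo.isOpenEmbedding_subtypeVal.isOpenMap _ (hWo m)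
  have hOa : Antitone O := fun m m' hmm => image_mono (hWa hmm)
  have hEO : ∀ ε ∈ T, E ε ⊆ O (c ε) := by
    intro ε hε x hx
    exact ⟨⟨x, hEK ε hε x hx⟩, hFW (c ε) ⟨ε, hε, le_rfl, hx⟩, rfl⟩
  -- neighbourhoods of the traces
  have hf : ∀ ε : Ordinal.{0}, ∃ i : ℕ, ε ∈ T →
      V ε i ⊆ O (c ε) \ closure (⋃ a ∈ {a | a ∈ C ∧ a < ε}, U a) := by
    intro ε
    by_cases hε : ε ∈ T
    · obtain ⟨i, hi⟩ := hTD.base ε (hTC₁ hε)
        (O (c ε) \ closure (⋃ a ∈ {a | a ∈ C ∧ a < ε}, U a))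
        ((hOo _).sdiff isClosed_closure) (fun x hx => ⟨hEO ε hε hx,
          tr_below h hTD.lv hC (hTC₁ hε) (hTC ε hε) hx.1 hx.2⟩)
      exact ⟨i, fun _ => hi⟩
    · exact ⟨0, fun h' => absurd h' hε⟩
  choose f hf using hf
  have hn : ∀ m, ∃ n, Cof {ε | ε ∈ T ∧ c ε = m ∧ f ε = n} := by
    intro m
    by_contra hcon
    push Not at hcon
    unfold Cof at hcon
    push Not at hcon
    choose b hb hb2 using hcon
    obtain ⟨δ, hδ, hle⟩ := seq_sup b hb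
    obtain ⟨t, ht, h1, h2⟩ := hc m δ hδ
    exact absurd (hb2 (f t) t ⟨ht, h2, rfl⟩) (not_le.2 ((hle _).trans_lt h1))
  choose n hn using hn
  obtain ⟨LC, hLC, hLC2⟩ := lim_club hCω (fun β hβ => hC.2.1 β hβ)
  choose L hL hL2 using fun m => lim_club (T := {ε | ε ∈ T ∧ c ε = m ∧ f ε = n m})
    (fun t ht => hTω t ht.1) (hn m)
  obtain ⟨D', hD', -, hD'L⟩ := club_nat hL
  obtain ⟨D1, hD1, hD1s⟩ := Z1_inter hD' hC
  obtain ⟨D2, hD2, hD2s⟩ := Z1_inter hD1 hLC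
  obtain ⟨δ, hδ, -⟩ := hD2.2.1 0 (Ordinal.omega_pos 1)
  have hδC : δ ∈ C := (hD1s (hD2s hδ).1).2
  have hδC₁ : δ ∈ C₁ := hCC₁ hδC
  have hδLC := hLC2 δ (hD2s hδ).2
  have hδL := fun m => hL2 m δ (hD'L m (hD1s (hD2s hδ).1).1)
  have hNcl : IsClosed (N δ) := (hTD.ncpt δ hδC₁).isClosed
  have hfr : IsCompact (frontier (N δ)) :=
    (hTD.ncpt δ hδC₁).of_isClosed_subset isClosed_frontier hNcl.frontier_subset
  have hclaim : ∀ m, ∀ β < δ, ∃ q ∈ frontier (N δ), q ∈ O m ∧ q ∈ U δ ∧ q ∉ U β := by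
    intro m β hβ
    obtain ⟨β', hβ', hw⟩ := hwild δ (hCD hδC) (n m)
    obtain ⟨c₀, hc₀, h1, h2⟩ := hδLC (max β β') (max_lt hβ hβ')
    obtain ⟨ε, ⟨hεT, hcε, hfε⟩, h3, h4⟩ := hδL m c₀ h2
    have hε₁ : ε ∈ C₁ := hTC₁ hεT
    obtain ⟨z, hz, hzN⟩ := not_subset.1
      (hw ε (hTS hεT) ((le_max_right _ _).trans_lt (h1.trans h3)) h4)
    obtain ⟨Q, hQV, hQp, hzQ, x, hxQ, hxE⟩ := hTD.conn ε hε₁ (n m) z hz
    have hxi : x ∈ interior (N δ) := hTD.nint δ hδC₁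
      ⟨hxE.1, closure_mono (h.mono _ _ h4.le (hCω δ hδC)) hxE.2.1⟩
    have hQf : (Q ∩ frontier (N δ)).Nonempty := by
      by_contra hcon
      rw [not_nonempty_iff_eq_empty] at hcon
      obtain ⟨y, hyQ, hy1, hy2⟩ := hQp (interior (N δ)) (N δ)ᶜ isOpen_interior hNcl.isOpen_compl
        (by
          intro y hy
          by_cases hyN : y ∈ N δ
          · left
            by_contra hyi
            have : y ∈ Q ∩ frontier (N δ) := ⟨hy, by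
              rw [hNcl.frontier_eq]
              exact ⟨hyN, hyi⟩⟩
            rw [hcon] at this
            exact this
          · exact Or.inr hyN) ⟨x, hxQ, hxi⟩ ⟨z, hzQ, hzN⟩
      exact hy2 (interior_subset hy1)
    obtain ⟨q, hqQ, hqf⟩ := hQf
    have hqV := hQV hqQ
    have hqV' : q ∈ V ε (f ε) := by rw [hfε]; exact hqV
    have h5 := hf ε hεT hqV'
    refine ⟨q, hqf, hcε ▸ h5.1, ?_, fun hqU => h5.2 (subset_closure ?_)⟩
    · exact hTD.low δ hδC₁ ε hε₁ h4 (subset_closure (hTD.anti ε hε₁ (Nat.zero_le _) hqV))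
    · exact mem_iUnion₂.2 ⟨c₀, ⟨hc₀, h3⟩,
        h.mono _ _ ((le_max_left _ _).trans h1.le) (hCω _ hc₀) hqU⟩
  have hP : ∀ m, ((frontier (N δ) ∩ closure (O m ∩ U δ)) \ U δ).Nonempty := by
    intro m
    by_contra hcon
    rw [not_nonempty_iff_eq_empty, sdiff_eq_empty] at hcon
    obtain ⟨β, hβ, h1⟩ := h.cpt_sub (hCl δ hδC) (hfr.inter_right isClosed_closure) hcon
    obtain ⟨q, h2, h3, h4, h5⟩ := hclaim m β hβ
    exact h5 (h1 ⟨h2, subset_closure ⟨h3, h4⟩⟩)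
  have hcl : ∀ m, IsClosed ((frontier (N δ) ∩ closure (O m ∩ U δ)) \ U δ) := fun m =>
    (isClosed_frontier.inter isClosed_closure).sdiff (h.opn δ (hCω δ hδC))
  obtain ⟨y, hy⟩ := IsCompact.nonempty_iInter_of_sequence_nonempty_isCompact_isClosed
    (fun m => (frontier (N δ) ∩ closure (O m ∩ U δ)) \ U δ)
    (fun m => sdiff_subset_sdiff_left (inter_subset_inter_right _
      (closure_mono (inter_subset_inter_left _ (hOa (Nat.le_succ m)))))) hP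
    ((hfr.inter_right isClosed_closure).diff (h.opn δ (hCω δ hδC))) hcl
  rw [mem_iInter] at hy
  have hyY : y ∉ Y := by
    intro hyY
    have h9 : (⟨y, hyY⟩ : Y) ∈ ⋂ m, closure (W' m) := by
      refine mem_iInter.2 fun m => ?_
      rw [closure_subtype]
      exact closure_mono inter_subset_left (hy m).1.2
    rw [hWe] at h9
    exact h9
  have hyW : y ∈ W ∩ K := by
    by_contra hcon
    exact hyY hcon
  have hyi : y ∈ interior (N δ) :=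
    hTD.nint δ hδC₁ ⟨hyW.1, closure_mono inter_subset_right (hy 0).1.2⟩
  exact (hy 0).1.1.2 hyi

end Pool.Agent.Work.MP_ba58b9_gt.NNOWILD
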