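import Pool.Agent.Work.MP_ba58b9_gt.Pf.Stmts

/-! item PART -/

set_option autoImplicit false

open Set Filter Topology Ordinal

namespace Pool.Agent.Work.MP_ba58b9_gt.NPART

open Pool.Agent.Work.MP_ba58b9_gt

private theorem notCountable (T : Set Ordinal.{0}) (hT : ∀ t ∈ T, t < ω₁)
    (hU : ∀ β < ω₁, ∃ t ∈ T, β < t) : ¬ T.Countable := by
  intro hc
  have hne : T.Nonempty := by
    obtain ⟨t, ht, _⟩ := hU 0 (Ordinal.omega_pos 1)
    exact ⟨t, ht⟩
  obtain ⟨e, he⟩ := hc.exists_eq_range hne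
  have h1 : (⨆ n, e n) < ω₁ :=
    Ordinal.iSup_lt_omega_one (fun n => hT _ (by rw [he]; exact ⟨n, rfl⟩))
  obtain ⟨t, ht, hlt⟩ := hU _ h1
  rw [he] at ht
  obtain ⟨n, rfl⟩ := ht
  exact absurd (Ordinal.le_iSup e n) (not_le.2 hlt)

theorem prf : PPart := by
  classical
  intro T hT hU
  have hTc := notCountable T hT hU
  have h1 : Cardinal.aleph0 ≤ Cardinal.mk T := by
    rw [← Cardinal.infinite_iff]
    by_contra h
    rw [not_infinite_iff_finite] at h
    exact hTc (Set.toFinite T).countable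
  have h2 : Cardinal.mk T = Cardinal.mk (T × ULift.{1} ℕ) := by
    rw [Cardinal.mk_prod, Cardinal.mk_uLift, Cardinal.lift_id, Cardinal.lift_id, Cardinal.mk_nat,
      Cardinal.lift_aleph0]
    exact (Cardinal.mul_aleph0_eq h1).symm
  obtain ⟨e⟩ := Cardinal.eq.1 h2
  refine ⟨fun t => if h : t ∈ T then (e ⟨t, h⟩).2.down else 0, fun k β hβ => ?_⟩
  by_contra hcon
  push Not at hcon
  apply hTc
  have hcount : Countable (Iio (β + 1)) := (Z1_countable (Z1_succ hβ)).to_subtype
  have hle : ∀ x : T, ((e.symm (x, ULift.up k) : T) : Ordinal.{0}) < β + 1 := by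
    intro x
    by_contra hx
    have hx' : β < ((e.symm (x, ULift.up k) : T) : Ordinal.{0}) := by
      have h3 := not_lt.1 hx
      exact lt_of_lt_of_le (lt_add_one β) h3
    refine hcon _ (e.symm (x, ULift.up k)).2 hx' ?_
    rw [dif_pos (e.symm (x, ULift.up k)).2]
    have h4 : (⟨((e.symm (x, ULift.up k) : T) : Ordinal.{0}), (e.symm (x, ULift.up k)).2⟩ : T) =
        e.symm (x, ULift.up k) := rfl
    rw [h4, Equiv.apply_symm_apply]
  have hinj : Function.Injective
      (fun x : T => (⟨((e.symm (x, ULift.up k) : T) : Ordinal.{0}), hle x⟩ : Iio (β + 1))) := by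
    intro x y hxy
    have h5 : e.symm (x, ULift.up k) = e.symm (y, ULift.up k) :=
      Subtype.ext (congrArg (fun z : Iio (β + 1) => (z : Ordinal.{0})) hxy)
    exact congrArg Prod.fst (e.symm.injective h5)
  exact Set.countable_coe_iff.1 hinj.countable

end Pool.Agent.Work.MP_ba58b9_gt.NPART
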