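import Pool.Agent.Work.MP_ba58b9_gt.Pf.Stmts2

/-!
# Item PID: an unbounded set of levels whose neighbourhoods escape
-/

set_option autoImplicit false

open Set Filter Topology Ordinal

namespace Pool.Agent.Work.MP_ba58b9_gt.NPID

theorem tm_empty {X : Type} [TopologicalSpace X] (U : Ordinal.{0} → Set X)
    (V : Ordinal.{0} → ℕ → Set X) : Tm U V ∅ := by
  refine ⟨0, fun A' hA' _ => ?_⟩
  have h : A' = ∅ := subset_empty_iff.1 hA'
  subst h
  exact ⟨∅, isCompact_empty, ⟨0, Ordinal.omega_pos 1, empty_subset _⟩, by simp⟩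

/-- Points: a level, an element above it, and a set of smaller levels. -/
structure Pt {X I : Type} (o : I → Ordinal.{0}) (C₁ : Set Ordinal.{0})
    (V : Ordinal.{0} → ℕ → Set X) (N : Ordinal.{0} → Set X) : Type where
  lv : I
  xx : I
  aa : Set I
  h1 : o lv ∈ C₁
  h2 : o xx ∈ C₁
  h3 : o lv ≤ o xx
  h4 : ∀ j ∈ aa, o j < o lv
  h5 : ∀ n, {j | j ∈ aa ∧ V (o j) n ⊆ N (o lv)}.Finite

/-- Covers by countably many tame sets. -/
def Cv {X I : Type} [TopologicalSpace X] (U : Ordinal.{0} → Set X) {o : I → Ordinal.{0}}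
    {C₁ : Set Ordinal.{0}} {V : Ordinal.{0} → ℕ → Set X} {N : Ordinal.{0} → Set X}
    (Z : Set (Pt o C₁ V N)) (A : ℕ → Set Ordinal.{0}) : Prop :=
  (∀ k, A k ⊆ C₁ ∧ Tm U V (A k)) ∧ ∀ z ∈ Z, ∃ k, o z.xx ∈ A k

/-- Sets of points without such a cover. -/
def Big {X I : Type} [TopologicalSpace X] (U : Ordinal.{0} → Set X) {o : I → Ordinal.{0}}
    {C₁ : Set Ordinal.{0}} {V : Ordinal.{0} → ℕ → Set X} {N : Ordinal.{0} → Set X}
    (Z : Set (Pt o C₁ V N)) : Prop :=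
  ¬ ∃ A, Cv U Z A

theorem prf : PPid := by
  classical
  intro hPFA X _ U W C₁ V N hTD hsm1 hsm2
  obtain ⟨I, o, ho, ho1, hran, -⟩ := pf_index
  have hinv0 : ∀ ξ : Ordinal.{0}, ∃ i : I, ξ < ω₁ → o i = ξ := by
    intro ξ
    by_cases h : ξ < ω₁
    · obtain ⟨i, hi⟩ := hran ξ h
      exact ⟨i, fun _ => hi⟩
    · obtain ⟨i, hi⟩ := hran 0 (Ordinal.omega_pos 1)
      exact ⟨i, fun h' => absurd h' h⟩
  choose inv hinv using hinv0
  have hC1 : Club C₁ := hTD.lv.club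
  -- covers
  have hAA0 : ∀ Z : Set (Pt o C₁ V N), ∃ A, ¬ Big U Z → Cv U Z A := by
    intro Z
    by_cases h : Big U Z
    · exact ⟨fun _ => ∅, fun h' => absurd h h'⟩
    · obtain ⟨A, hA⟩ := not_not.1 h
      exact ⟨A, fun _ => hA⟩
  choose AA hAA using hAA0
  have hbb0 : ∀ Z : Set (Pt o C₁ V N), ∃ (b : Set Ordinal.{0}) (s : Ordinal.{0}), s < ω₁ ∧
      (Big U Z → b ⊆ (fun z : Pt o C₁ V N => o z.xx) '' Z ∧ b.Infinite ∧
        (∀ δ ∈ C₁, ∀ n, {ε | ε ∈ b ∧ V ε n ⊆ N δ}.Finite) ∧ b.Countable ∧ ∀ ξ ∈ b, ξ ≤ s) := by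
    intro Z
    by_cases h : Big U Z
    · have hsub : (fun z : Pt o C₁ V N => o z.xx) '' Z ⊆ C₁ := by
        rintro _ ⟨z, -, rfl⟩
        exact z.h2
      obtain ⟨b, hb1, hb2, hb3, hb4⟩ := hsm1 _ hsub (fun hT =>
        h ⟨fun _ => (fun z : Pt o C₁ V N => o z.xx) '' Z, fun _ => ⟨hsub, hT⟩,
          fun z hz => ⟨0, z, hz, rfl⟩⟩)
      obtain ⟨s, hs, hs2⟩ := ctbl_sup hb2 id (fun ξ hξ => hC1.1 _ (hsub (hb1 hξ)))
      exact ⟨b, s, hs, fun _ => ⟨hb1, hb3, hb4, hb2, hs2⟩⟩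
    · exact ⟨∅, 0, Ordinal.omega_pos 1, fun h' => absurd h' h⟩
  choose bb s hs hbb using hbb0
  have hZd0 : ∀ Z : Set (Pt o C₁ V N), ∃ D ⊆ Z, D.Countable ∧
      (Big U Z → ∀ ξ ∈ bb Z, ∃ z ∈ D, o z.xx = ξ) := by
    intro Z
    by_cases h : Big U Z
    · obtain ⟨hb1, -, -, hb2, -⟩ := hbb Z h
      obtain ⟨D, hD, hDb⟩ := SurjOn.exists_bijOn_subset (f := fun z : Pt o C₁ V N => o z.xx)
        (s := Z) (t := bb Z) hb1
      exact ⟨D, hD, hDb.mapsTo.countable_of_injOn hDb.injOn hb2, fun _ ξ hξ => hDb.surjOn hξ⟩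
    · exact ⟨∅, empty_subset _, countable_empty, fun h' => absurd h' h⟩
  choose Zd hZd1 hZd2 hZd3 using hZd0
  have hinvb : ∀ Z : Set (Pt o C₁ V N), Big U Z → ∀ ξ ∈ bb Z, o (inv ξ) = ξ := by
    intro Z hZ ξ hξ
    obtain ⟨z, -, hz⟩ := (hbb Z hZ).1 hξ
    exact hinv ξ (hz ▸ ho1 _)
  have hempty : ¬ Big U (∅ : Set (Pt o C₁ V N)) := fun h =>
    h ⟨fun _ => ∅, fun _ => ⟨empty_subset _, tm_empty U V⟩,
      fun z hz => absurd hz (notMem_empty z)⟩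
  have hG : GH2 (fun y : Pt o C₁ V N => o y.lv) (fun z y => z.xx ∈ y.aa)
      (fun Z => Big U Z)
      (fun Z y => (¬ Big U Z → ∀ k, o y.xx ∉ AA Z k) ∧
        (Big U Z → {ξ | ξ ∈ bb Z ∧ inv ξ ∉ y.aa}.Finite))
      C₁ Zd (fun Z => {δ | s Z < δ ∧ δ < ω₁}) := by
    refine ⟨fun y => ho1 _, hC1, fun Z _ => hZd1 Z,
      fun Z _ α _ => (hZd2 Z).mono (fun z hz => hz.1), fun Z => Z1_Ioi (hs Z), ?_, ?_, ?_⟩
    · intro 𝒵 h𝒵 δ hδ hDc
      obtain ⟨e, he⟩ := (h𝒵.insert (∅ : Set (Pt o C₁ V N))).exists_eq_range ⟨_, mem_insert _ _⟩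
      have hmem : ∀ Z ∈ 𝒵, ∃ j, e j = Z := by
        intro Z hZ
        have h1 : Z ∈ range e := by
          rw [← he]
          exact mem_insert_of_mem _ hZ
        exact h1
      have hbig : ∀ j, Big U (e j) → e j ∈ 𝒵 := by
        intro j hj
        have h1 : e j ∈ insert (∅ : Set (Pt o C₁ V N)) 𝒵 := by
          rw [he]
          exact ⟨j, rfl⟩
        rcases h1 with h1 | h1
        · rw [h1] at hj
          exact absurd hj hempty
        · exact h1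
      obtain ⟨x, hx, hδx, hx2⟩ := hsm2
        (fun m => if Big U (e m.unpair.1) then ∅ else AA (e m.unpair.1) m.unpair.2) (by
          intro m
          by_cases h : Big U (e m.unpair.1)
          · simp only [if_pos h]
            exact ⟨empty_subset _, tm_empty U V⟩
          · simp only [if_neg h]
            exact (hAA _ h).1 _) δ (hC1.1 δ hδ)
      obtain ⟨i0, hi0⟩ := hran δ (hC1.1 δ hδ)
      obtain ⟨i1, hi1⟩ := hran x (hC1.1 x hx)
      refine ⟨⟨i0, i1, {i | ∃ j, Big U (e j) ∧ o i ∈ bb (e j) ∧ ¬ V (o i) j ⊆ N δ},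
        hi0 ▸ hδ, hi1 ▸ hx, by rw [hi0, hi1]; exact hδx.le, ?_, ?_⟩, hi0,
        fun Z hZ => ⟨?_, ?_⟩⟩
      · rintro i ⟨j, hj1, hj2, -⟩
        rw [hi0]
        exact ((hbb _ hj1).2.2.2.2 _ hj2).trans_lt (hDc _ (hbig j hj1)).1
      · intro n
        rw [hi0]
        refine ((finite_Iio n).biUnion (t := fun j => {i | Big U (e j) ∧
          (o i ∈ bb (e j) ∧ V (o i) n ⊆ N δ)}) ?_).subset ?_
        · intro j _
          by_cases h : Big U (e j)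
          · refine (((hbb _ h).2.2.1 δ hδ n).preimage ho.injOn).subset ?_
            rintro i ⟨-, h1⟩
            exact h1
          · refine finite_empty.subset ?_
            rintro i ⟨h1, -⟩
            exact absurd h1 h
        · rintro i ⟨⟨j, hj1, hj2, hj3⟩, hin⟩
          refine mem_iUnion₂.2 ⟨j, ?_, hj1, hj2, hin⟩
          by_contra hcon
          have hnj : n ≤ j := not_lt.1 hcon
          have hoi : o i ∈ C₁ := by
            obtain ⟨z, -, hz⟩ := (hbb _ hj1).1 hj2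
            exact hz ▸ z.h2
          exact hj3 ((hTD.anti _ hoi hnj).trans hin)
      · intro hZb k hk
        obtain ⟨j, rfl⟩ := hmem Z hZ
        refine hx2 (Nat.pair j k) ?_
        simp only [Nat.unpair_pair]
        rw [if_neg hZb, ← hi1]
        exact hk
      · intro hZb
        obtain ⟨j, rfl⟩ := hmem Z hZ
        refine ((hbb _ hZb).2.2.1 δ hδ j).subset ?_
        rintro ξ ⟨hξ, hξ2⟩
        refine ⟨hξ, ?_⟩
        by_contra hcon
        refine hξ2 ⟨j, hZb, ?_, ?_⟩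
        · rw [hinvb _ hZb ξ hξ]
          exact hξ
        · rw [hinvb _ hZb ξ hξ]
          exact hcon
    · intro Z y hZ hGd hy
      obtain ⟨k, hk⟩ := (hAA Z hZ).2 y hy
      exact hGd.1 hZ k hk
    · intro Z hZ y₀ hy₀ L hL
      obtain ⟨hb1, hb3, hb4, hb2, hbs⟩ := hbb Z hZ
      have hfin : (⋃ y ∈ {y | y ∈ y₀ :: L}, {ξ | ξ ∈ bb Z ∧ inv ξ ∉ y.aa}).Finite := by
        refine (List.finite_toSet (y₀ :: L)).biUnion fun y hy => ?_
        rcases List.mem_cons.1 hy with rfl | hy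
        · exact hy₀.2 hZ
        · exact (hL y hy).2.2.2 hZ
      obtain ⟨ξ, hξ, hξ2⟩ := hb3.exists_notMem_finite hfin
      have hξ3 : ∀ y ∈ y₀ :: L, inv ξ ∈ y.aa := by
        intro y hy
        by_contra hcon
        exact hξ2 (mem_iUnion₂.2 ⟨y, hy, hξ, hcon⟩)
      obtain ⟨z, hz, hzx⟩ := hZd3 Z hZ ξ hξ
      have hzi : z.xx = inv ξ := ho (by rw [hzx, hinvb Z hZ ξ hξ])
      refine ⟨z, hz, ?_, ?_, fun y hy => ?_⟩
      · refine z.h3.trans_lt ?_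
        rw [hzi]
        exact y₀.h4 _ (hξ3 y₀ List.mem_cons_self)
      · change z.xx ∈ y₀.aa
        rw [hzi]
        exact hξ3 y₀ List.mem_cons_self
      · change z.xx ∈ y.aa
        rw [hzi]
        exact hξ3 y (List.mem_cons_of_mem _ hy)
  obtain ⟨Δ, y, b, hΔ, hΔ1, hΔ2⟩ := gm_main hPFA hG
  have hh0 : ∀ η : Ordinal.{0}, ∃ β : Ordinal.{0}, η < ω₁ → β < ω₁ ∧
      ∀ ε < η, o (y ε).xx ≤ β := by
    intro η
    by_cases h : η < ω₁
    · obtain ⟨β, hβ, hβ2⟩ := Z1_sup h (fun ε => o (y ε).xx) (fun ε _ => ho1 _)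
      exact ⟨β, fun _ => ⟨hβ, hβ2⟩⟩
    · exact ⟨0, fun h' => absurd h' h⟩
  choose h hh using hh0
  have hcl := Z1_diag (fun η => {δ | h η < δ ∧ δ < ω₁}) (fun η hη => Z1_Ioi (hh η hη).1)
  obtain ⟨D, hD, hDs⟩ := Z1_inter hΔ hcl
  have hle : ∀ ε ∈ Δ, ε ≤ o (y ε).xx := by
    intro ε hε
    have h1 : o (y ε).lv = ε := (hΔ1 ε hε).1
    have h2 := (y ε).h3
    rw [h1] at h2
    exact h2
  refine ⟨{t | ∃ ε ∈ Δ, t = o (y ε).xx}, D, ?_, ?_, hD, ?_, ?_⟩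
  · rintro _ ⟨ε, -, rfl⟩
    exact (y ε).h2
  · intro β hβ
    obtain ⟨ε, hε, hlt⟩ := hΔ.2.1 β hβ
    exact ⟨_, ⟨ε, hε, rfl⟩, hlt.trans_le (hle ε hε)⟩
  · intro δ hδ
    have h1 : o (y δ).lv = δ := (hΔ1 δ (hDs hδ).1).1
    have h2 := (y δ).h1
    rw [h1] at h2
    exact h2
  · intro δ hδ n
    have hδΔ := (hDs hδ).1
    have h1 : o (y δ).lv = δ := (hΔ1 δ hδΔ).1
    have h2 : b δ < δ := (hΔ1 δ hδΔ).2
    have hfin := (y δ).h5 n
    obtain ⟨β, hβ, hβ2⟩ : ∃ β < δ, ∀ j ∈ {j | j ∈ (y δ).aa ∧ V (o j) n ⊆ N (o (y δ).lv)},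
        o j ≤ β := by
      rcases ({j | j ∈ (y δ).aa ∧ V (o j) n ⊆ N (o (y δ).lv)} : Set I).eq_empty_or_nonempty
        with he | hne
      · refine ⟨b δ, h2, ?_⟩
        rw [he]
        exact fun j hj => absurd hj (notMem_empty j)
      · obtain ⟨m, hm, hmax⟩ := Set.exists_max_image _ o hfin hne
        refine ⟨o m, ?_, hmax⟩
        have h3 := (y δ).h4 m hm.1
        rw [h1] at h3
        exact h3
    refine ⟨max (h (b δ)) β, max_lt ((hDs hδ).2.2 (b δ) h2).1 hβ, ?_⟩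
    rintro _ ⟨ε, hε, rfl⟩ hlt hltδ hsub
    have hεδ := (hle ε hε).trans_lt hltδ
    have hbε : b δ ≤ ε := by
      by_contra hcon
      exact absurd ((hh (b δ) (h2.trans (hΔ.1 δ hδΔ))).2 ε (not_le.1 hcon))
        (not_le.2 ((le_max_left _ _).trans_lt hlt))
    have h4 : (y ε).xx ∈ (y δ).aa := hΔ2 δ hδΔ ε hε hεδ hbε
    have h5 := hβ2 (y ε).xx ⟨h4, by rw [h1]; exact hsub⟩
    exact absurd h5 (not_le.2 ((le_max_right _ _).trans_lt hlt))

end Pool.Agent.Work.MP_ba58b9_gt.NPID
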