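import Pool.Agent.Work.MP_ba58b9_gt.Pf.Stmts

/-!
# Pseudo-intersections under Martin's axiom
-/

set_option autoImplicit false

open Set

namespace Pool.Agent.Work.MP_ba58b9_gt.NPSEUDO

/-- Conditions: a finite subset of `A` and a finite set of indices. -/
def Po {I J : Type} (A : Set I) (_a : J → Set I) : Type :=
  {p : Set I × Set J // p.1 ⊆ A ∧ p.1.Finite ∧ p.2.Finite}

instance {I J : Type} (A : Set I) (a : J → Set I) : Preorder (Po A a) where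
  le q p := p.1.1 ⊆ q.1.1 ∧ p.1.2 ⊆ q.1.2 ∧ ∀ x ∈ q.1.1, x ∉ p.1.1 → ∀ j ∈ p.1.2, x ∉ a j
  le_refl p := ⟨Subset.rfl, Subset.rfl, fun x hx hx' => absurd hx hx'⟩
  le_trans r q p h1 h2 := ⟨h2.1.trans h1.1, h2.2.1.trans h1.2.1, fun x hx hx' j hj => by
    by_cases hq : x ∈ q.1.1
    · exact h2.2.2 x hq hx' j hj
    · exact h1.2.2 x hx hq j (h2.2.1 hj)⟩

theorem le_def {I J : Type} {A : Set I} {a : J → Set I} (q p : Po A a) :
    q ≤ p ↔ p.1.1 ⊆ q.1.1 ∧ p.1.2 ⊆ q.1.2 ∧ ∀ x ∈ q.1.1, x ∉ p.1.1 → ∀ j ∈ p.1.2, x ∉ a j :=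
  Iff.rfl

theorem dense_j {I J : Type} {A : Set I} {a : J → Set I} (j : J) (p : Po A a) :
    ∃ q : Po A a, j ∈ q.1.2 ∧ q ≤ p :=
  ⟨⟨(p.1.1, insert j p.1.2), p.2.1, p.2.2.1, p.2.2.2.insert j⟩, mem_insert _ _,
    Subset.rfl, subset_insert _ _, fun _ hx hx' => absurd hx hx'⟩

theorem dense_m {I J : Type} {A : Set I} {a : J → Set I}
    (h : ∀ (F : Set I) (s : Set J), F.Finite → s.Finite → ¬ A ⊆ F ∪ ⋃ j ∈ s, a j)
    (m : ℕ) (p : Po A a) : ∃ q : Po A a, m ≤ q.1.1.ncard ∧ q ≤ p := by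
  induction m with
  | zero => exact ⟨p, Nat.zero_le _, le_refl p⟩
  | succ m ih =>
    obtain ⟨q, hq, hqp⟩ := ih
    have h1 := h q.1.1 q.1.2 q.2.2.1 q.2.2.2
    rw [not_subset] at h1
    obtain ⟨x, hxA, hx⟩ := h1
    rw [mem_union, not_or] at hx
    have hx2 : ∀ j ∈ q.1.2, x ∉ a j := by
      intro j hj hxj
      exact hx.2 (mem_iUnion₂.2 ⟨j, hj, hxj⟩)
    refine ⟨⟨(insert x q.1.1, q.1.2), insert_subset hxA q.2.1, q.2.2.1.insert x, q.2.2.2⟩, ?_, ?_⟩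
    · change m + 1 ≤ (insert x q.1.1).ncard
      rw [ncard_insert_of_notMem hx.1 q.2.2.1]
      omega
    · refine le_trans (b := q) ?_ hqp
      refine ⟨subset_insert _ _, Subset.rfl, ?_⟩
      intro y hy hy' j hj
      rcases hy with hy | hy
      · rw [hy]; exact hx2 j hj
      · exact absurd hy hy'

theorem prf : PPseudo := by
  intro hMA I J hJ A a hA hcov
  have hne : Nonempty (Po A a) := ⟨⟨(∅, ∅), empty_subset _, finite_empty, finite_empty⟩⟩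
  obtain ⟨G, -, -, hdir, hgen⟩ := hMA (Po A a)
    (by
      intro S hS
      have hc : {F : Set I | F.Finite ∧ F ⊆ A}.Countable := countable_ofPred_finite_subset hA
      refine MapsTo.countable_of_injOn (f := fun p : Po A a => p.1.1)
        (t := {F : Set I | F.Finite ∧ F ⊆ A}) ?_ ?_ hc
      · intro p _
        exact ⟨p.2.2.1, p.2.1⟩
      · intro p hp q hq hpq
        by_contra hne'
        refine hS hp hq hne' ?_
        have hpq' : p.1.1 = q.1.1 := hpq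
        refine ⟨⟨(p.1.1, p.1.2 ∪ q.1.2), p.2.1, p.2.2.1, p.2.2.2.union q.2.2.2⟩, ?_, ?_⟩
        · exact ⟨Subset.rfl, subset_union_left, fun x hx hx' => absurd hx hx'⟩
        · exact ⟨hpq'.symm.subset, subset_union_right,
            fun _ hx hx' => absurd (hpq'.subset hx) hx'⟩)
    (range (fun j : J => {p : Po A a | j ∈ p.1.2}) ∪
      range (fun m : ℕ => {p : Po A a | m ≤ p.1.1.ncard}))
    (by
      refine (Cardinal.mk_union_le _ _).trans ?_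
      refine Cardinal.add_le_of_le (Cardinal.aleph0_le_aleph 1)
        (Cardinal.mk_range_le.trans hJ) (Cardinal.mk_range_le.trans ?_)
      rw [Cardinal.mk_nat]
      exact Cardinal.aleph0_le_aleph 1)
    (by
      rintro _ (⟨j, rfl⟩ | ⟨m, rfl⟩) p
      · obtain ⟨q, hq1, hq2⟩ := dense_j j p
        exact ⟨q, hq1, hq2⟩
      · obtain ⟨q, hq1, hq2⟩ := dense_m hcov m p
        exact ⟨q, hq1, hq2⟩)
  refine ⟨{x | ∃ p ∈ G, x ∈ p.1.1}, ?_, ?_, ?_⟩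
  · rintro x ⟨p, -, hx⟩
    exact p.2.1 hx
  · intro hfin
    obtain ⟨p, hpG, hp⟩ := hgen _ (Or.inr ⟨{x | ∃ p ∈ G, x ∈ p.1.1}.ncard + 1, rfl⟩)
    have h1 : p.1.1 ⊆ {x | ∃ p ∈ G, x ∈ p.1.1} := fun x hx => ⟨p, hpG, hx⟩
    have h2 := ncard_le_ncard h1 hfin
    have h3 : {x | ∃ p ∈ G, x ∈ p.1.1}.ncard + 1 ≤ p.1.1.ncard := hp
    omega
  · intro j
    obtain ⟨p, hpG, hp⟩ := hgen _ (Or.inl ⟨j, rfl⟩)
    refine p.2.2.1.subset ?_
    rintro x ⟨⟨q, hqG, hxq⟩, hxj⟩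
    by_contra hxp
    obtain ⟨r, hrG, hrp, hrq⟩ := hdir p hpG q hqG
    exact hrp.2.2 x (hrq.1 hxq) hxp j hp hxj

end Pool.Agent.Work.MP_ba58b9_gt.NPSEUDO
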