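import Pool.Agent.Work.MP_ba58b9_gt.Pf.Stmts2

/-!
# Item SM1: sets of levels which are not tame contain large almost disjoint countable sets
-/

set_option autoImplicit false

open Set Filter Topology Ordinal

namespace Pool.Agent.Work.MP_ba58b9_gt.NSM1

theorem prf : PSm1 := by
  intro hMA hps X _ _ U hU W hW C₁ V N hTD A hA hT
  have h1 : ∀ n, ∃ A' ⊆ A, A'.Countable ∧ ¬ Rc U V A' n := by
    intro n
    by_contra hcon
    push Not at hcon
    exact hT ⟨n, fun A' hA' hc => hcon A' hA' hc⟩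
  choose A' hA'1 hA'2 hA'3 using h1
  have hA2 : (⋃ n, A' n) ⊆ A := iUnion_subset hA'1
  have hA2c : (⋃ n, A' n).Countable := countable_iUnion hA'2
  obtain ⟨I, o, ho, ho1, hran, hcard⟩ := pf_index
  have hJ : Cardinal.mk (I × ℕ) ≤ Cardinal.aleph 1 := by
    rw [Cardinal.mk_prod, Cardinal.lift_id, Cardinal.lift_id, hcard, Cardinal.mk_nat]
    exact (Cardinal.mul_le_max _ _).trans (by
      rw [max_le_iff, max_le_iff]
      exact ⟨⟨le_rfl, Cardinal.aleph0_le_aleph 1⟩, Cardinal.aleph0_le_aleph 1⟩)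
  have hω : ∀ ε ∈ C₁, ε < ω₁ := fun ε hε => hTD.lv.club.1 ε hε
  obtain ⟨b, hb, hbi, hbf⟩ := hps hMA I (I × ℕ) hJ (o ⁻¹' (⋃ n, A' n))
    (fun j => {i | o j.1 ∈ C₁ ∧ V (o i) j.2 ⊆ N (o j.1)})
    (hA2c.preimage ho) (by
      intro F s hF hs hsub
      obtain ⟨m, hm⟩ : ∃ m : ℕ, ∀ j ∈ s, j.2 ≤ m := by
        obtain ⟨m, hm⟩ := (hs.image Prod.snd).bddAbove
        exact ⟨m, fun j hj => hm (mem_image_of_mem _ hj)⟩
      refine hA'3 m ?_
      set K : Set X := (⋃ i ∈ {i | i ∈ F ∧ o i ∈ C₁}, closure (V (o i) 0)) ∪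
        ⋃ j ∈ {j | j ∈ s ∧ o j.1 ∈ C₁}, N (o j.1) with hKdef
      have hK : IsCompact K := by
        refine IsCompact.union ?_ ?_
        · exact (hF.subset (fun i hi => hi.1)).isCompact_biUnion fun i hi => hTD.cpt _ hi.2
        · exact (hs.subset (fun j hj => hj.1)).isCompact_biUnion fun j hj => hTD.ncpt _ hj.2
      obtain ⟨α, hα, hKα⟩ := hU.cpt_bd hK (by
        rintro x (hx | hx)
        · obtain ⟨i, hi, hxi⟩ := mem_iUnion₂.1 hx
          obtain ⟨δ, hδ, hlt⟩ := hTD.lv.club.2.1 (o i) (ho1 i)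
          exact ⟨δ, hω δ hδ, hTD.low δ hδ (o i) hi.2 hlt hxi⟩
        · obtain ⟨j, hj, hxj⟩ := mem_iUnion₂.1 hx
          obtain ⟨β, hβ, h2⟩ := hTD.nbd _ hj.2
          exact ⟨β, hβ, h2 hxj⟩)
      refine ⟨K, hK, ⟨α, hα, hKα⟩, ?_⟩
      refine iUnion₂_subset fun ε hε => ?_
      have hεA : ε ∈ ⋃ n, A' n := mem_iUnion.2 ⟨m, hε⟩
      have hεC : ε ∈ C₁ := hA (hA2 hεA)
      obtain ⟨i, hi⟩ := hran ε (hω ε hεC)
      have hiS : i ∈ o ⁻¹' (⋃ n, A' n) := by rw [mem_preimage, hi]; exact hεA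
      rcases hsub hiS with h2 | h2
      · refine Subset.trans ?_ (subset_union_left)
        refine Subset.trans ?_ (subset_biUnion_of_mem (u := fun i => closure (V (o i) 0))
          (show i ∈ {i | i ∈ F ∧ o i ∈ C₁} from ⟨h2, hi ▸ hεC⟩))
        rw [hi]
        exact (hTD.anti ε hεC (Nat.zero_le m)).trans subset_closure
      · obtain ⟨j, hj, hj2⟩ := mem_iUnion₂.1 h2
        refine Subset.trans ?_ (subset_union_right)
        refine Subset.trans ?_ (subset_biUnion_of_mem (u := fun j : I × ℕ => N (o j.1))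
          (show j ∈ {j | j ∈ s ∧ o j.1 ∈ C₁} from ⟨hj, hj2.1⟩))
        have h3 := hj2.2
        rw [hi] at h3
        exact (hTD.anti ε hεC (hm j hj)).trans h3)
  refine ⟨o '' b, ?_, ?_, hbi.image ho.injOn, ?_⟩
  · rintro _ ⟨i, hi, rfl⟩
    exact hA2 (hb hi)
  · refine hA2c.mono ?_
    rintro _ ⟨i, hi, rfl⟩
    exact hb hi
  · intro δ hδ n
    obtain ⟨j, hj⟩ := hran δ (hω δ hδ)
    refine ((hbf (j, n)).image o).subset ?_
    rintro _ ⟨⟨i, hi, rfl⟩, h2⟩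
    exact ⟨i, ⟨hi, by change o j ∈ C₁ ∧ _; rw [hj]; exact ⟨hδ, h2⟩⟩, rfl⟩

end Pool.Agent.Work.MP_ba58b9_gt.NSM1
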