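import Pool.Agent.Work.MP_ba58b9_gt.Pf.Stmts2

/-!
# Hereditarily countably paracompact manifolds: item TDEX (neighbourhoods of the traces)
-/

set_option autoImplicit false

open Set Filter Topology Ordinal

namespace Pool.Agent.Work.MP_ba58b9_gt.NTDEX

theorem prf (h : PNbhd) : PTdex := by
  classical
  intro n X _ _ hX U hU W hW hu
  obtain ⟨hLC, -, -, -, -⟩ := itemZ2 n X hX
  obtain ⟨Ca, hCa⟩ := OB.lv hU hW
  obtain ⟨Cb, hCb, hCb2⟩ := OB.ub_club hU hW hu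
  obtain ⟨C0, hC0, hC0s⟩ := Z1_inter hCa.club hCb
  have hω : ∀ δ ∈ C0, δ < ω₁ := hC0.1
  have h1 : ∀ ε : Ordinal.{0}, ∃ (β : Ordinal.{0}) (V : ℕ → Set X), β < ω₁ ∧
      (ε ∈ C0 → Antitone V ∧ (∀ i, IsOpen (V i) ∧ W ∩ bd (U ε) ⊆ V i) ∧
        IsCompact (closure (V 0)) ∧ closure (V 0) ⊆ U β ∧
        (∀ O, IsOpen O → W ∩ bd (U ε) ⊆ O → ∃ i, V i ⊆ O) ∧
        ∀ i, ∀ z ∈ V i, ∃ Q ⊆ V i, IsPreconnected Q ∧ z ∈ Q ∧
          (Q ∩ (W ∩ bd (U ε))).Nonempty) := by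
    intro ε
    by_cases hε : ε ∈ C0
    · have hK : IsCompact (W ∩ bd (U ε)) := by
        have h2 : W ∩ bd (U ε) = (W ∩ closure (U ε)) \ U ε := by
          unfold bd
          rw [inter_sdiff_assoc]
        rw [h2]
        exact (hW.cpt ε (hω ε hε)).diff (hU.opn ε (hω ε hε))
      obtain ⟨β, hβ, hKβ⟩ := hU.cpt_bd hK (fun x hx => hW.cov x hx.1)
      obtain ⟨V, h3, h4, h5, h6, h7, h8⟩ := h n X hX _ _ hK (hU.opn β hβ) hKβ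
      exact ⟨β, V, hβ, fun _ => ⟨h3, h4, h5, h6, h7, h8⟩⟩
    · exact ⟨0, fun _ => ∅, Ordinal.omega_pos 1, fun h' => absurd h' hε⟩
  have h2 : ∀ δ : Ordinal.{0}, ∃ N : Set X, δ ∈ C0 → IsCompact N ∧
      W ∩ closure (U δ) ⊆ interior N ∧ ∃ β < ω₁, N ⊆ U β := by
    intro δ
    by_cases hδ : δ ∈ C0
    · have hK := hW.cpt δ (hω δ hδ)
      obtain ⟨β, hβ, hKβ⟩ := hU.cpt_bd hK (fun x hx => hW.cov x hx.1)
      obtain ⟨V, h3, h4, h5, h6⟩ :=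
        exists_open_between_and_isCompact_closure hK (hU.opn β hβ) hKβ
      exact ⟨closure V, fun _ => ⟨h6, h4.trans (interior_maximal subset_closure h3), β, hβ, h5⟩⟩
    · exact ⟨∅, fun h' => absurd h' hδ⟩
  choose β V hβ hV using h1
  choose N hN using h2
  obtain ⟨C₁, hC₁, hC₁s⟩ := Z1_inter hC0
    (Z1_diag (fun γ => {δ | β γ < δ ∧ δ < ω₁}) (fun γ _ => Z1_Ioi (hβ γ)))
  have hin : ∀ δ ∈ C₁, δ ∈ C0 := fun δ hδ => (hC₁s hδ).1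
  refine ⟨C₁, V, N, hCa.sub' hC₁ fun δ hδ => (hC0s (hin δ hδ)).1, ?_, ?_, ?_, ?_, ?_, ?_, ?_, ?_,
    ?_, ?_, ?_⟩
  · exact fun δ hδ => (hCb2 δ (hC0s (hin δ hδ)).2).2
  · exact fun ε hε => (hV ε (hin ε hε)).1
  · exact fun ε hε i => ((hV ε (hin ε hε)).2.1 i).1
  · exact fun ε hε i => ((hV ε (hin ε hε)).2.1 i).2
  · exact fun ε hε => (hV ε (hin ε hε)).2.2.1
  · intro δ hδ ε hε hlt
    exact (hV ε (hin ε hε)).2.2.2.1.trans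
      (hU.mono _ _ ((hC₁s hδ).2.2 ε hlt).1.le (hC₁.1 δ hδ))
  · exact fun ε hε => (hV ε (hin ε hε)).2.2.2.2.1
  · exact fun ε hε => (hV ε (hin ε hε)).2.2.2.2.2
  · exact fun δ hδ => (hN δ (hin δ hδ)).1
  · exact fun δ hδ => (hN δ (hin δ hδ)).2.1
  · exact fun δ hδ => (hN δ (hin δ hδ)).2.2

end Pool.Agent.Work.MP_ba58b9_gt.NTDEX
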