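import Pool.Agent.Work.MP_ba58b9_gt.Pf.Stmts2

/-!
# Item TRACE: traces of open sets almost covered by finitely many atoms
-/

set_option autoImplicit false

open Set Filter Topology Ordinal

namespace Pool.Agent.Work.MP_ba58b9_gt.NTRACE

theorem prf (hcomp : PComp) : PTrace := by
  intro hMA n hn X _ _ hX hCP U h hsep W O hW hO hWO hB hs
  classical
  -- a family of minimal cardinality
  have hex : ∃ k : ℕ, ∃ 𝒜 : Set (Set X), 𝒜.Finite ∧ 𝒜.ncard = k ∧ (∀ W ∈ 𝒜, Atom U W) ∧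
      Le U (closure O) (⋃₀ 𝒜) := by
    obtain ⟨𝒜, h1, h2, h3⟩ := hs
    exact ⟨𝒜.ncard, 𝒜, h1, rfl, h2, h3⟩
  obtain ⟨𝒜, hf, hcard, hat, hle⟩ := Nat.find_spec hex
  have hmin : ∀ m < Nat.find hex, ¬ ∃ 𝒜 : Set (Set X), 𝒜.Finite ∧ 𝒜.ncard = m ∧
      (∀ W ∈ 𝒜, Atom U W) ∧ Le U (closure O) (⋃₀ 𝒜) := fun m hm => Nat.find_min hex hm
  have hone : ∀ A₁ ∈ 𝒜, ∀ A₂ ∈ 𝒜, A₁ ≠ A₂ → ¬ UBd U (A₁ ∩ A₂) := by
    intro A₁ h1 A₂ h2 hne hu
    refine hmin (𝒜 \ {A₁}).ncard (by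
      rw [← hcard]
      exact Set.ncard_sdiff_singleton_lt_of_mem h1 hf) ⟨𝒜 \ {A₁}, hf.sdiff, rfl,
        fun W hW => hat W hW.1, ?_⟩
    intro H hH hHB hHu
    obtain ⟨A', hA', hu'⟩ := h.ubd_sUnion hf (hle H hH hHB hHu)
    by_cases he : A' = A₁
    · rw [he] at hu'
      have h3 := (hat A₁ h1).at_ (H ∩ A₁) (A₁ ∩ A₂) (hH.inter (hat A₁ h1).ob.cl)
        ((hat A₁ h1).ob.cl.inter (hat A₂ h2).ob.cl) inter_subset_right inter_subset_left hu' hu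
      refine h3.mono ?_
      rintro x ⟨⟨hx1, -⟩, -, hx2⟩
      exact ⟨hx1, A₂, ⟨h2, fun h' => hne (mem_singleton_iff.1 h').symm⟩, hx2⟩
    · refine hu'.mono ?_
      rintro x ⟨hx1, hx2⟩
      exact ⟨hx1, A', ⟨hA', fun h' => he (mem_singleton_iff.1 h')⟩, hx2⟩
  obtain ⟨A₁, hA₁, hu₁⟩ := h.ubd_sUnion hf (hle W hW.ob.cl (hWO.trans subset_closure) hW.ub)
  have hVc : IsClosed (⋃₀ (𝒜 \ {A₁})) := by
    rw [sUnion_eq_biUnion]
    exact hf.sdiff.isClosed_biUnion fun A hA => (hat A hA.1).ob.cl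
  refine ⟨W ∩ A₁, ⋃₀ (𝒜 \ {A₁}), hW.sub (hW.ob.cl.inter (hat A₁ hA₁).ob.cl) inter_subset_left hu₁,
    inter_subset_left.trans hWO, hVc, ?_, ?_⟩
  · intro hu
    obtain ⟨A', hA', hu'⟩ := h.ubd_sUnion hf.sdiff hu
    refine hone A₁ hA₁ A' hA'.1 (fun h' => hA'.2 (mem_singleton_iff.2 h'.symm)) (hu'.mono ?_)
    rintro x ⟨⟨-, hx1⟩, hx2⟩
    exact ⟨hx1, hx2⟩
  · intro Z hZA hZ hZu
    have hleZ : Le U (closure O) (Z ∪ ⋃₀ (𝒜 \ {A₁})) := by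
      intro H hH hHB hHu
      obtain ⟨A', hA', hu'⟩ := h.ubd_sUnion hf (hle H hH hHB hHu)
      by_cases he : A' = A₁
      · rw [he] at hu'
        have h3 := (hat A₁ hA₁).at_ (H ∩ A₁) Z (hH.inter (hat A₁ hA₁).ob.cl) hZ
          inter_subset_right (hZA.trans inter_subset_right) hu' hZu
        refine h3.mono ?_
        rintro x ⟨⟨hx1, -⟩, hx2⟩
        exact ⟨hx1, Or.inl hx2⟩
      · refine hu'.mono ?_
        rintro x ⟨hx1, hx2⟩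
        exact ⟨hx1, Or.inr ⟨A', ⟨hA', fun h' => he (mem_singleton_iff.1 h')⟩, hx2⟩⟩
    obtain ⟨C, hC, hC2⟩ := hcomp hMA n hn X hX hCP U h hsep (O \ (Z ∪ ⋃₀ (𝒜 \ {A₁})))
      (hO.sdiff (hZ.union hVc)) (fun x hx => hB.cov x (subset_closure hx.1)) (by
        intro E hE hEc _
        have hEB : E ⊆ closure O := fun x hx => subset_closure (hE hx).1
        have hEo : OB U E := hB.mono hEc hEB
        by_cases hEu : UBd U E
        · exfalso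
          have h4 := hleZ E hEc hEB hEu
          have h5 : E ∩ (Z ∪ ⋃₀ (𝒜 \ {A₁})) = ∅ := by
            rw [eq_empty_iff_forall_notMem]
            rintro x ⟨hx1, hx2⟩
            exact (hE hx1).2 hx2
          rw [h5] at h4
          exact not_ubd_empty h4
        · obtain ⟨α, hα, hEα⟩ := not_ubd hEu
          have h6 := hEo.cpt α hα
          rwa [inter_eq_left.2 (hEα.trans subset_closure)] at h6)
    refine ⟨C, hC, fun δ hδ => ⟨(hC2 δ hδ).1, ?_⟩⟩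
    rintro x ⟨hx1, hx2⟩
    by_contra hx3
    have h7 : x ∈ (O \ (Z ∪ ⋃₀ (𝒜 \ {A₁}))) ∩ bd (U δ) := ⟨⟨hx1, hx3⟩, hx2⟩
    rw [(hC2 δ hδ).2] at h7
    exact h7

end Pool.Agent.Work.MP_ba58b9_gt.NTRACE
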