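import Pool.Agent.Work.MP_ba58b9_gt.Pf.Stmts3

/-!
# Manifolds of dimension at most one are normal
-/

set_option autoImplicit false

open Set Filter Topology

namespace Pool.Agent.Work.MP_ba58b9_gt

theorem normal_low (h1 : PNormOne) (n : ℕ) (hn : n < 2) (X : Type) [TopologicalSpace X]
    [T2Space X] (hX : LocN n X) : NormalSpace X := by
  interval_cases n
  · have hd : DiscreteTopology X := by
      refine discreteTopology_iff_isOpen_singleton.2 fun x => ?_
      obtain ⟨U, hU, hx, ⟨φ⟩⟩ := hX x
      have : Subsingleton U := by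
        refine ⟨fun a b => φ.injective ?_⟩
        exact Subsingleton.elim _ _
      have h2 : U = {x} := by
        ext y
        constructor
        · intro hy
          exact congrArg Subtype.val (Subsingleton.elim (⟨y, hy⟩ : U) ⟨x, hx⟩)
        · rintro rfl
          exact hx
      rw [← h2]
      exact hU
    infer_instance
  · refine h1 X fun x => ?_
    obtain ⟨U, hU, hx, ⟨φ⟩⟩ := hX x
    exact ⟨U, hU, hx, ⟨φ.trans ((EuclideanSpace.equiv (Fin 1) ℝ).toHomeomorph.trans
      (Homeomorph.funUnique (Fin 1) ℝ))⟩⟩

end Pool.Agent.Work.MP_ba58b9_gt
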