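import Pool.Agent.Work.MP_ba58b9_gt.Pf.Asm
import Pool.Agent.Work.MP_ba58b9_gt.Pf.LowDim
import Pool.Agent.Work.MP_ba58b9_gt.Pf.I_SEP
import Pool.Agent.Work.MP_ba58b9_gt.Pf.I_CHAIN
import Pool.Agent.Work.MP_ba58b9_gt.Pf.I_PART
import Pool.Agent.Work.MP_ba58b9_gt.Pf.I_PSEUDO
import Pool.Agent.Work.MP_ba58b9_gt.Pf.I_TDEX
import Pool.Agent.Work.MP_ba58b9_gt.Pf.I_NBHD
import Pool.Agent.Work.MP_ba58b9_gt.Pf.I_NOWILD
import Pool.Agent.Work.MP_ba58b9_gt.Pf.I_SM1
import Pool.Agent.Work.MP_ba58b9_gt.Pf.I_SM2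
import Pool.Agent.Work.MP_ba58b9_gt.Pf.I_PID
import Pool.Agent.Work.MP_ba58b9_gt.Pf.I_INF
import Pool.Agent.Work.MP_ba58b9_gt.Pf.I_ATOMS
import Pool.Agent.Work.MP_ba58b9_gt.Pf.I_HIT
import Pool.Agent.Work.MP_ba58b9_gt.Pf.I_TRACE
import Pool.Agent.Work.MP_ba58b9_gt.Pf.I_COMP
import Pool.Agent.Work.MP_ba58b9_gt.Pf.I_ISO
import Pool.Agent.Work.MP_ba58b9_gt.Pf.I_ENDS
import Pool.Agent.Work.MP_ba58b9_gt.Pf.I_NORMONE

/-!
# Hereditarily countably paracompact manifolds under the proper forcing axiom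
-/

set_option autoImplicit false

open Set Filter Topology

namespace Pool.Agent.Work.MP_ba58b9_gt

/-- Under the proper forcing axiom connected hereditarily countably paracompact manifolds of
dimension at least two are metrizable. -/
theorem metrizable_of_pfa (hPFA : PFA) (n : ℕ) (hn : 2 ≤ n) (X : Type)
    [TopologicalSpace X] [T2Space X] (hX : LocN n X) (hconn : ConnectedSpace X)
    (hCP : ∀ S : Set X, CPara S) :
    SecondCountableTopology X ∧ TopologicalSpace.MetrizableSpace X :=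
  metrizable_of_pfa' NSEP.prf NCHAIN.prf
    (pTame NSEP.prf NPART.prf NPSEUDO.prf (NTDEX.prf NNBHD.prf) NNOWILD.prf NSM1.prf NSM2.prf
      NPID.prf)
    (NINF.prf NPART.prf NATOMS.prf NHIT.prf) (NTRACE.prf NCOMP.prf) NISO.prf hPFA n hn X hX hconn
    hCP

/-- Under the proper forcing axiom connected hereditarily countably paracompact manifolds are
normal. -/
theorem normal_of_pfa (hPFA : PFA) (n : ℕ) (X : Type)
    [TopologicalSpace X] [T2Space X] (hX : LocN n X) (hconn : ConnectedSpace X)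
    (hCP : ∀ S : Set X, CPara S) : NormalSpace X := by
  rcases lt_or_ge n 2 with h | h
  · exact normal_low (NNORMONE.prf NENDS.prf) n h X hX
  · have := (metrizable_of_pfa hPFA n h X hX hconn hCP).2
    infer_instance

end Pool.Agent.Work.MP_ba58b9_gt
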