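import Pool.Agent.Work.MP_ba58b9_gt.Pf.Pfa

/-!
# A general proper partial order: definitions
-/

set_option autoImplicit false

open Set Filter Topology Ordinal

namespace Pool.Agent.Work.MP_ba58b9_gt

/-- Codes of elements. -/
abbrev Hc (I Y : Type) : Type := ℕ → Y × I × Set Y × Set (Set (List Y))

/-- Elements of the side conditions: a point, a bound, and a model, which consists of a set of
points, a set of relations and a sequence of codes. -/
structure El (I Y : Type) where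
  pt : Y
  bt : I
  Q : Set Y
  A : Set (Set (List Y))
  S : ℕ → Hc I Y

/-- The code of an element. -/
def El.code {I Y : Type} (e : El I Y) : Hc I Y := fun n =>
  match n with
  | 0 => (e.pt, e.bt, e.Q, e.A)
  | n + 1 => e.S (Nat.unpair n).1 (Nat.unpair n).2

theorem El.code_inj {I Y : Type} {e e' : El I Y} (h : e.code = e'.code) : e = e' := by
  have h0 := congrFun h 0
  have hS : e.S = e'.S := by
    funext i j
    have := congrFun h (Nat.pair i j + 1)
    simpa [El.code] using this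
  obtain ⟨pt, bt, Q, A, S⟩ := e
  obtain ⟨pt', bt', Q', A', S'⟩ := e'
  simp only [El.code, Prod.mk.injEq] at h0
  obtain ⟨h1, h2, h3, h4⟩ := h0
  subst h1 h2 h3 h4
  simp only at hS
  subst hS
  rfl

/-- The section of a relation. -/
def sect {Y : Type} (T : Set (List Y)) (s : List Y) : Set Y := {y | s ++ [y] ∈ T}

/-- Unbounded sets of points. -/
def Unb {Y : Type} (lev : Y → Ordinal.{0}) (Z : Set Y) : Prop := ∀ α < ω₁, ∃ y ∈ Z, α < lev y

/-- The derivative of a relation. -/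
def Der {Y : Type} (lev : Y → Ordinal.{0}) (T : Set (List Y)) : Set (List Y) :=
  {s | Unb lev (sect T s)}

/-- Good elements. -/
structure El.Good {I Y : Type} (o : I → Ordinal.{0}) (lev : Y → Ordinal.{0}) (e : El I Y) :
    Prop where
  qc : e.Q.Countable
  ac : e.A.Countable
  bt : o e.bt < lev e.pt
  ql : ∀ y ∈ e.Q, lev y < lev e.pt
  mp : ∀ T ∈ e.A, ∀ s : List Y, (∀ y ∈ s, y ∈ e.Q) → ¬ Unb lev (sect T s) →
    ∀ y ∈ sect T s, lev y < lev e.pt

/-- `e` belongs to the model of `e'`. -/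
structure Chn {I Y : Type} (lev : Y → Ordinal.{0}) (e e' : El I Y) : Prop where
  lt : lev e.pt < lev e'.pt
  pq : e.pt ∈ e'.Q
  qq : e.Q ⊆ e'.Q
  aa : e.A ⊆ e'.A
  cs : e.code ∈ range e'.S
  ss : range e.S ⊆ range e'.S

theorem Chn.trans {I Y : Type} {lev : Y → Ordinal.{0}} {e e' e'' : El I Y} (h : Chn lev e e')
    (h' : Chn lev e' e'') : Chn lev e e'' :=
  ⟨h.lt.trans h'.lt, h'.qq h.pq, h.qq.trans h'.qq, h.aa.trans h'.aa, h'.ss h.cs,
    h.ss.trans h'.ss⟩

/-- `e` is below `e'`, and the promise of `e'` holds for `e`. -/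
def Blw {I Y : Type} (o : I → Ordinal.{0}) (lev : Y → Ordinal.{0}) (R : Y → Y → Prop)
    (e e' : El I Y) : Prop := Chn lev e e' ∧ (o e'.bt ≤ lev e.pt → R e.pt e'.pt)

/-- Conditions. -/
structure Cnd (I Y : Type) where
  els : Set (El I Y)
  J : Set (I × I)

/-- Valid conditions. -/
structure Cnd.Ok {I Y : Type} (o : I → Ordinal.{0}) (lev : Y → Ordinal.{0}) (R : Y → Y → Prop)
    (p : Cnd I Y) : Prop where
  fin : p.els.Finite
  jf : p.J.Finite
  good : ∀ e ∈ p.els, e.Good o lev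
  chn : ∀ e ∈ p.els, ∀ e' ∈ p.els, e ≠ e' → Blw o lev R e e' ∨ Blw o lev R e' e
  exc : ∀ e ∈ p.els, ∀ t ∈ p.J, ¬ (o t.1 < lev e.pt ∧ lev e.pt ≤ o t.2)

/-- The partial order. -/
def GPo {I Y : Type} (o : I → Ordinal.{0}) (lev : Y → Ordinal.{0}) (R : Y → Y → Prop) : Type :=
  {p : Cnd I Y // p.Ok o lev R}

instance {I Y : Type} (o : I → Ordinal.{0}) (lev : Y → Ordinal.{0}) (R : Y → Y → Prop) :
    Preorder (GPo o lev R) where
  le q p := p.1.els ⊆ q.1.els ∧ p.1.J ⊆ q.1.J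
  le_refl p := ⟨Subset.refl _, Subset.refl _⟩
  le_trans _ _ _ h1 h2 := ⟨h2.1.trans h1.1, h2.2.trans h1.2⟩

section

variable {I Y : Type} {o : I → Ordinal.{0}} {lev : Y → Ordinal.{0}} {R : Y → Y → Prop}

theorem Cnd.Ok.lt_blw {p : Cnd I Y} (hp : p.Ok o lev R) {e e' : El I Y} (he : e ∈ p.els)
    (he' : e' ∈ p.els) (hlt : lev e.pt < lev e'.pt) : Blw o lev R e e' := by
  have hne : e ≠ e' := by
    rintro rfl
    exact lt_irrefl _ hlt
  rcases hp.chn e he e' he' hne with h | h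
  · exact h
  · exact absurd hlt (not_lt.2 h.1.lt.le)

theorem Cnd.Ok.lev_inj {p : Cnd I Y} (hp : p.Ok o lev R) {e e' : El I Y} (he : e ∈ p.els)
    (he' : e' ∈ p.els) (hlt : lev e.pt = lev e'.pt) : e = e' := by
  by_contra hne
  rcases hp.chn e he e' he' hne with h | h
  · exact absurd h.1.lt (by rw [hlt]; exact lt_irrefl _)
  · exact absurd h.1.lt (by rw [hlt]; exact lt_irrefl _)

/-- Above some level every point carries a model containing given countable data. -/
theorem el_exists (hlev : ∀ y, lev y < ω₁) {Q₀ : Set Y} (hQ : Q₀.Countable)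
    {A₀ : Set (Set (List Y))} (hA : A₀.Countable) {S₀ : Set (Hc I Y)} (hS : S₀.Countable)
    (hSn : S₀.Nonempty) {γ : Ordinal.{0}} (hγ : γ < ω₁) : ∃ γ' < ω₁, γ ≤ γ' ∧
      ∀ (y : Y) (b : I), γ' < lev y → o b < lev y → ∃ e : El I Y, e.pt = y ∧ e.bt = b ∧
        e.Q = Q₀ ∧ e.A = A₀ ∧ range e.S = S₀ ∧ e.Good o lev := by
  classical
  have h1 : ∀ t : Set (List Y) × List Y, ∃ α : Ordinal.{0}, ¬ Unb lev (sect t.1 t.2) →
      α < ω₁ ∧ ∀ y ∈ sect t.1 t.2, lev y ≤ α := by
    intro t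
    by_cases h : Unb lev (sect t.1 t.2)
    · exact ⟨0, fun h' => absurd h h'⟩
    · unfold Unb at h
      push Not at h
      obtain ⟨α, hα, h2⟩ := h
      exact ⟨α, fun _ => ⟨hα, h2⟩⟩
  choose f hf using h1
  obtain ⟨γ1, hγ1, h2⟩ := ctbl_sup (hA.prod (list_ctbl hQ))
    (fun t => if Unb lev (sect t.1 t.2) then 0 else f t) (by
      intro t _
      by_cases h : Unb lev (sect t.1 t.2)
      · simp only [h, if_true]
        exact Ordinal.omega_pos 1
      · simp only [h, if_false]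
        exact (hf t h).1)
  obtain ⟨γ2, hγ2, h3⟩ := ctbl_sup hQ lev (fun y _ => hlev y)
  refine ⟨max γ (max γ1 γ2), max_lt hγ (max_lt hγ1 hγ2), le_max_left _ _, ?_⟩
  intro y b hy hb
  obtain ⟨S, hSeq⟩ := hS.exists_eq_range hSn
  refine ⟨⟨y, b, Q₀, A₀, S⟩, rfl, rfl, rfl, rfl, hSeq.symm, ⟨hQ, hA, hb, ?_, ?_⟩⟩
  · intro z hz
    exact (h3 z hz).trans_lt
      (((le_max_right _ _).trans (le_max_right _ _)).trans_lt hy)
  · intro T hT s hs hun z hz
    have h4 := h2 (T, s) ⟨hT, hs⟩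
    simp only [hun, if_false] at h4
    exact (((hf (T, s) hun).2 z hz).trans h4).trans_lt
      (((le_max_left _ _).trans (le_max_right _ _)).trans_lt hy)

end

end Pool.Agent.Work.MP_ba58b9_gt
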