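import Pool.Agent.Work.MP_ba58b9_gt.Pf.GlA

/-!
# A general proper partial order: capturing countable data
-/

set_option autoImplicit false

open Set Filter Topology Ordinal

namespace Pool.Agent.Work.MP_ba58b9_gt

/-- The hypotheses on the points and on the relation. -/
structure GH {Y : Type} (lev : Y → Ordinal.{0}) (R : Y → Y → Prop) (CY : Set Ordinal.{0})
    (Zd : Set Y → Set Y) (Dc : Set Y → Set Ordinal.{0}) : Prop where
  lt : ∀ y, lev y < ω₁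
  club : Club CY
  ex : ∀ δ ∈ CY, ∃ y, lev y = δ
  sub : ∀ Z, Unb lev Z → Zd Z ⊆ Z
  ctb : ∀ Z, Unb lev Z → ∀ α < ω₁, {z | z ∈ Zd Z ∧ lev z < α}.Countable
  dcl : ∀ Z, Unb lev Z → Club (Dc Z)
  dn : ∀ Z, Unb lev Z → ∀ y₀, lev y₀ ∈ Dc Z → ∀ L : List Y,
    (∀ y ∈ L, lev y₀ < lev y ∧ R y₀ y) → ∃ z ∈ Zd Z, lev z < lev y₀ ∧ R z y₀ ∧ ∀ y ∈ L, R z y

section

variable {I Y : Type} (o : I → Ordinal.{0}) (lev : Y → Ordinal.{0}) (R : Y → Y → Prop)

/-- elements of conditions of `M` -/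
def elM (M : Set (GPo o lev R ⊕ Set (GPo o lev R))) : Set (El I Y) :=
  {e | ∃ p : GPo o lev R, Sum.inl p ∈ M ∧ e ∈ p.1.els}
/-- points of models of elements of `M` -/
def QM (M : Set (GPo o lev R ⊕ Set (GPo o lev R))) : Set Y :=
  {y | ∃ e ∈ elM o lev R M, y ∈ e.Q}
/-- relations of models of elements of `M` -/
def AM (M : Set (GPo o lev R ⊕ Set (GPo o lev R))) : Set (Set (List Y)) :=
  {T | ∃ e ∈ elM o lev R M, T ∈ e.A}
/-- codes of models of elements of `M` -/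
def SM (M : Set (GPo o lev R ⊕ Set (GPo o lev R))) : Set (Hc I Y) :=
  {h | ∃ e ∈ elM o lev R M, h ∈ range e.S}
/-- bounds below the levels of elements of `M` -/
def IM (M : Set (GPo o lev R ⊕ Set (GPo o lev R))) : Set I :=
  {i | ∃ e ∈ elM o lev R M, o i < lev e.pt}

/-- The relation of tuples of points realised by extensions of `p` in `D`. -/
def RD (D : Set (GPo o lev R)) (p : GPo o lev R) (k : ℕ) : Set (List Y) :=
  {t | ∃ d ∈ D, ∃ L : List (El I Y), L.map El.pt = t ∧ L.length = k ∧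
    d.1.els = p.1.els ∪ {e | e ∈ L} ∧ p.1.J ⊆ d.1.J}

/-- The element `e'` captures the data of `M`. -/
structure Cap (CY : Set Ordinal.{0}) (Zd : Set Y → Set Y) (Dc : Set Y → Set Ordinal.{0})
    (M : Set (GPo o lev R ⊕ Set (GPo o lev R))) (e' : El I Y) : Prop where
  pt : ∀ e ∈ elM o lev R M, e.pt ∈ e'.Q ∧ lev e.pt < lev e'.pt ∧ e.code ∈ range e'.S
  q : QM o lev R M ⊆ e'.Q
  a : AM o lev R M ⊆ e'.A
  s : SM o lev R M ⊆ range e'.S
  rd : ∀ D, Sum.inr D ∈ M → ∀ p, Sum.inl p ∈ M → ∀ k j, (Der lev)^[j] (RD o lev R D p k) ∈ e'.A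
  jj : ∀ p : GPo o lev R, Sum.inl p ∈ M → ∀ t ∈ p.1.J, o t.2 < lev e'.pt
  cy : ∀ e ∈ elM o lev R M, ∃ c ∈ CY, lev e.pt < c ∧ c < lev e'.pt
  bd : ∀ T ∈ AM o lev R M, ∀ s : List Y, (∀ y ∈ s, y ∈ QM o lev R M) → ¬ Unb lev (sect T s) →
    ∀ y ∈ sect T s, lev y < lev e'.pt
  ub : ∀ T ∈ AM o lev R M, ∀ s : List Y, (∀ y ∈ s, y ∈ QM o lev R M) → Unb lev (sect T s) →
    (∀ z ∈ Zd (sect T s), (∃ e ∈ elM o lev R M, lev z < lev e.pt) → z ∈ e'.Q) ∧
    ∀ e ∈ elM o lev R M, ∃ c ∈ Dc (sect T s), lev e.pt < c ∧ c < lev e'.pt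

variable {o lev R}

theorem elM_mono {M M' : Set (GPo o lev R ⊕ Set (GPo o lev R))} (h : M ⊆ M') :
    elM o lev R M ⊆ elM o lev R M' := by
  rintro e ⟨p, hp, he⟩
  exact ⟨p, h hp, he⟩

theorem QM_mono {M M' : Set (GPo o lev R ⊕ Set (GPo o lev R))} (h : M ⊆ M') :
    QM o lev R M ⊆ QM o lev R M' := by
  rintro y ⟨e, he, hy⟩
  exact ⟨e, elM_mono h he, hy⟩

theorem AM_mono {M M' : Set (GPo o lev R ⊕ Set (GPo o lev R))} (h : M ⊆ M') :
    AM o lev R M ⊆ AM o lev R M' := by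
  rintro y ⟨e, he, hy⟩
  exact ⟨e, elM_mono h he, hy⟩

theorem SM_mono {M M' : Set (GPo o lev R ⊕ Set (GPo o lev R))} (h : M ⊆ M') :
    SM o lev R M ⊆ SM o lev R M' := by
  rintro y ⟨e, he, hy⟩
  exact ⟨e, elM_mono h he, hy⟩

theorem IM_mono {M M' : Set (GPo o lev R ⊕ Set (GPo o lev R))} (h : M ⊆ M') :
    IM o lev R M ⊆ IM o lev R M' := by
  rintro y ⟨e, he, hy⟩
  exact ⟨e, elM_mono h he, hy⟩

theorem inl_ctbl {M : Set (GPo o lev R ⊕ Set (GPo o lev R))} (h : M.Countable) :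
    {p : GPo o lev R | Sum.inl p ∈ M}.Countable :=
  h.preimage_of_injOn Sum.inl_injective.injOn

theorem inr_ctbl {M : Set (GPo o lev R ⊕ Set (GPo o lev R))} (h : M.Countable) :
    {D : Set (GPo o lev R) | Sum.inr D ∈ M}.Countable :=
  h.preimage_of_injOn Sum.inr_injective.injOn

theorem elM_ctbl {M : Set (GPo o lev R ⊕ Set (GPo o lev R))} (h : M.Countable) :
    (elM o lev R M).Countable := by
  refine ((inl_ctbl h).biUnion (t := fun p _ => p.1.els) fun p _ => p.2.fin.countable).mono ?_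
  rintro e ⟨p, hp, he⟩
  exact mem_iUnion₂.2 ⟨p, hp, he⟩

theorem elM_good {M : Set (GPo o lev R ⊕ Set (GPo o lev R))} {e : El I Y}
    (he : e ∈ elM o lev R M) : e.Good o lev := by
  obtain ⟨p, hp, he⟩ := he
  exact p.2.good e he

theorem QM_ctbl {M : Set (GPo o lev R ⊕ Set (GPo o lev R))} (h : M.Countable) :
    (QM o lev R M).Countable := by
  refine ((elM_ctbl h).biUnion (t := fun e _ => e.Q) fun e he => (elM_good he).qc).mono ?_
  rintro y ⟨e, he, hy⟩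
  exact mem_iUnion₂.2 ⟨e, he, hy⟩

theorem AM_ctbl {M : Set (GPo o lev R ⊕ Set (GPo o lev R))} (h : M.Countable) :
    (AM o lev R M).Countable := by
  refine ((elM_ctbl h).biUnion (t := fun e _ => e.A) fun e he => (elM_good he).ac).mono ?_
  rintro y ⟨e, he, hy⟩
  exact mem_iUnion₂.2 ⟨e, he, hy⟩

theorem SM_ctbl {M : Set (GPo o lev R ⊕ Set (GPo o lev R))} (h : M.Countable) :
    (SM o lev R M).Countable := by
  refine ((elM_ctbl h).biUnion (t := fun e _ => range e.S) fun e he => countable_range _).mono ?_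
  rintro y ⟨e, he, hy⟩
  exact mem_iUnion₂.2 ⟨e, he, hy⟩

theorem IM_ctbl (ho : Function.Injective o) (hlev : ∀ y, lev y < ω₁)
    {M : Set (GPo o lev R ⊕ Set (GPo o lev R))} (h : M.Countable) :
    (IM o lev R M).Countable := by
  refine ((elM_ctbl h).biUnion (t := fun e _ => o ⁻¹' Iio (lev e.pt)) fun e he =>
    (Z1_countable (hlev _)).preimage_of_injOn ho.injOn).mono ?_
  rintro y ⟨e, he, hy⟩
  exact mem_iUnion₂.2 ⟨e, he, hy⟩

/-- Every countable set is captured by a good element. -/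
theorem cap_exists (ho1 : ∀ i, o i < ω₁) (hran : ∀ ξ < ω₁, ∃ i, o i = ξ) {CY : Set Ordinal.{0}}
    {Zd : Set Y → Set Y} {Dc : Set Y → Set Ordinal.{0}} (hG : GH lev R CY Zd Dc)
    {M : Set (GPo o lev R ⊕ Set (GPo o lev R))} (hM : M.Countable) :
    ∃ e' : El I Y, Cap o lev R CY Zd Dc M e' ∧ e'.Good o lev := by
  classical
  have hel := elM_ctbl hM
  have hTs := (AM_ctbl hM).prod (list_ctbl (QM_ctbl hM))
  -- the sets
  set Q₀ : Set Y := QM o lev R M ∪ (El.pt '' elM o lev R M) ∪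
    ⋃ t ∈ AM o lev R M ×ˢ {s : List Y | ∀ y ∈ s, y ∈ QM o lev R M}, ⋃ e ∈ elM o lev R M,
      {z | Unb lev (sect t.1 t.2) ∧ z ∈ Zd (sect t.1 t.2) ∧ lev z < lev e.pt} with hQ₀
  set A₀ : Set (Set (List Y)) := AM o lev R M ∪
    ⋃ D ∈ {D : Set (GPo o lev R) | Sum.inr D ∈ M}, ⋃ p ∈ {p : GPo o lev R | Sum.inl p ∈ M},
      range (fun kj : ℕ × ℕ => (Der lev)^[kj.2] (RD o lev R D p kj.1)) with hA₀
  obtain ⟨c0, hc0, -⟩ := hG.club.2.1 0 (Ordinal.omega_pos 1)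
  obtain ⟨y0, -⟩ := hG.ex c0 hc0
  obtain ⟨i0, hi0⟩ := hran 0 (Ordinal.omega_pos 1)
  set S₀ : Set (Hc I Y) := insert (fun _ => (y0, i0, ∅, ∅)) (SM o lev R M ∪
    (El.code '' elM o lev R M)) with hS₀
  have hQc : Q₀.Countable := by
    refine ((QM_ctbl hM).union (hel.image _)).union ?_
    refine hTs.biUnion fun t _ => hel.biUnion fun e _ => ?_
    by_cases hu : Unb lev (sect t.1 t.2)
    · refine (hG.ctb _ hu (lev e.pt) (hG.lt _)).mono ?_
      rintro z ⟨-, h1, h2⟩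
      exact ⟨h1, h2⟩
    · refine Set.countable_empty.mono ?_
      rintro z ⟨h1, -⟩
      exact absurd h1 hu
  have hAc : A₀.Countable := by
    refine (AM_ctbl hM).union ?_
    exact (inr_ctbl hM).biUnion fun D _ => (inl_ctbl hM).biUnion fun p _ => countable_range _
  have hSc : S₀.Countable := ((SM_ctbl hM).union (hel.image _)).insert _
  -- bounds
  obtain ⟨γ1, hγ1, h1⟩ := ctbl_sup hel (fun e => lev e.pt) (fun e _ => hG.lt _)
  have hJc : (⋃ p ∈ {p : GPo o lev R | Sum.inl p ∈ M}, p.1.J).Countable :=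
    (inl_ctbl hM).biUnion fun p _ => p.2.jf.countable
  obtain ⟨γ2, hγ2, h2⟩ := ctbl_sup hJc (fun t => o t.2) (fun t _ => ho1 _)
  have hnext : ∀ C : Set Ordinal.{0}, ∃ f : Ordinal.{0} → Ordinal.{0}, Club C →
      ∀ α < ω₁, f α ∈ C ∧ α < f α := by
    intro C
    by_cases hC : Club C
    · have h3 : ∀ α : Ordinal.{0}, ∃ β, α < ω₁ → β ∈ C ∧ α < β := by
        intro α
        by_cases hα : α < ω₁
        · obtain ⟨β, hβ⟩ := hC.2.1 α hα
          exact ⟨β, fun _ => hβ⟩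
        · exact ⟨0, fun h => absurd h hα⟩
      choose f hf using h3
      exact ⟨f, fun _ => hf⟩
    · exact ⟨id, fun h => absurd h hC⟩
  choose nx hnx using hnext
  obtain ⟨γ3, hγ3, h3⟩ := ctbl_sup hel (fun e => nx CY (lev e.pt))
    (fun e _ => hG.club.1 _ (hnx CY hG.club _ (hG.lt _)).1)
  have hbd : ∀ t : Set (List Y) × List Y, ∃ α : Ordinal.{0}, α < ω₁ ∧ (¬ Unb lev (sect t.1 t.2) →
      ∀ y ∈ sect t.1 t.2, lev y ≤ α) := by
    intro t
    by_cases h : Unb lev (sect t.1 t.2)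
    · exact ⟨0, Ordinal.omega_pos 1, fun h' => absurd h h'⟩
    · unfold Unb at h
      push Not at h
      obtain ⟨α, hα, h2⟩ := h
      exact ⟨α, hα, fun _ => h2⟩
  choose f hf1 hf2 using hbd
  obtain ⟨γ4, hγ4, h4⟩ := ctbl_sup hTs f (fun t _ => hf1 t)
  obtain ⟨γ5, hγ5, h5⟩ := ctbl_sup (hTs.prod hel)
    (fun t => if Unb lev (sect t.1.1 t.1.2) then nx (Dc (sect t.1.1 t.1.2)) (lev t.2.pt) else 0)
    (by
      intro t _
      by_cases hu : Unb lev (sect t.1.1 t.1.2)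
      · simp only [hu, if_true]
        exact (hG.dcl _ hu).1 _ (hnx _ (hG.dcl _ hu) _ (hG.lt _)).1
      · simp only [hu, if_false]
        exact Ordinal.omega_pos 1)
  obtain ⟨γ', hγ', hle, hel'⟩ := el_exists (I := I) (o := o) hG.lt hQc hAc hSc ⟨_, mem_insert _ _⟩
    (γ := max γ1 (max γ2 (max γ3 (max γ4 γ5))))
    (max_lt hγ1 (max_lt hγ2 (max_lt hγ3 (max_lt hγ4 hγ5))))
  obtain ⟨c1, hc1, hc1'⟩ := hG.club.2.1 γ' hγ'
  obtain ⟨y1, hy1⟩ := hG.ex c1 hc1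
  obtain ⟨e', he1, he2, heQ, heA, heS, hegood⟩ := hel' y1 i0 (by rw [hy1]; exact hc1') (by
    rw [hi0, hy1]
    exact (zero_le : 0 ≤ γ').trans_lt hc1')
  have hlt : max γ1 (max γ2 (max γ3 (max γ4 γ5))) < lev e'.pt := by
    rw [he1, hy1]
    exact hle.trans_lt hc1'
  have hl1 : γ1 < lev e'.pt := (le_max_left _ _).trans_lt hlt
  have hl2' : max γ2 (max γ3 (max γ4 γ5)) < lev e'.pt := (le_max_right _ _).trans_lt hlt
  have hl2 : γ2 < lev e'.pt := (le_max_left _ _).trans_lt hl2'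
  have hl3' : max γ3 (max γ4 γ5) < lev e'.pt := (le_max_right _ _).trans_lt hl2'
  have hl3 : γ3 < lev e'.pt := (le_max_left _ _).trans_lt hl3'
  have hl4' : max γ4 γ5 < lev e'.pt := (le_max_right _ _).trans_lt hl3'
  have hl4 : γ4 < lev e'.pt := (le_max_left _ _).trans_lt hl4'
  have hl5 : γ5 < lev e'.pt := (le_max_right _ _).trans_lt hl4'
  refine ⟨e', ⟨?_, ?_, ?_, ?_, ?_, ?_, ?_, ?_, ?_⟩, hegood⟩
  · intro e he
    refine ⟨?_, (h1 e he).trans_lt hl1, ?_⟩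
    · rw [heQ]
      exact Or.inl (Or.inr ⟨e, he, rfl⟩)
    · rw [heS]
      exact Or.inr (Or.inr ⟨e, he, rfl⟩)
  · rw [heQ]
    exact fun y hy => Or.inl (Or.inl hy)
  · rw [heA]
    exact fun y hy => Or.inl hy
  · rw [heS]
    exact fun y hy => Or.inr (Or.inl hy)
  · intro D hD p hp k j
    rw [heA]
    refine Or.inr (mem_iUnion₂.2 ⟨D, hD, mem_iUnion₂.2 ⟨p, hp, ⟨(k, j), rfl⟩⟩⟩)
  · intro p hp t ht
    exact (h2 t (mem_iUnion₂.2 ⟨p, hp, ht⟩)).trans_lt hl2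
  · intro e he
    exact ⟨nx CY (lev e.pt), (hnx CY hG.club _ (hG.lt _)).1, (hnx CY hG.club _ (hG.lt _)).2,
      (h3 e he).trans_lt hl3⟩
  · intro T hT s hs hu y hy
    exact ((hf2 (T, s) hu y hy).trans (h4 (T, s) ⟨hT, hs⟩)).trans_lt hl4
  · intro T hT s hs hu
    refine ⟨?_, ?_⟩
    · rintro z hz ⟨e, he, hze⟩
      rw [heQ]
      exact Or.inr (mem_iUnion₂.2 ⟨(T, s), ⟨hT, hs⟩, mem_iUnion₂.2 ⟨e, he, hu, hz, hze⟩⟩)
    · intro e he
      have h6 := h5 ((T, s), e) ⟨⟨hT, hs⟩, he⟩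
      simp only [hu, if_true] at h6
      exact ⟨_, (hnx _ (hG.dcl _ hu) _ (hG.lt _)).1, (hnx _ (hG.dcl _ hu) _ (hG.lt _)).2,
        h6.trans_lt hl5⟩

/-- The condition with one element. -/
def single (e : El I Y) (he : e.Good o lev) : GPo o lev R :=
  ⟨⟨{e}, ∅⟩, ⟨finite_singleton _, finite_empty, by
    rintro e' rfl
    exact he, by
    rintro e1 rfl e2 rfl hne
    exact absurd rfl hne, fun e _ t ht => absurd ht (notMem_empty _)⟩⟩

end

end Pool.Agent.Work.MP_ba58b9_gt
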