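import Pool.Agent.Work.MP_ba58b9_gt.Pf.GlB

/-!
# A general proper partial order: the club of countable sets
-/

set_option autoImplicit false

open Set Filter Topology Ordinal

namespace Pool.Agent.Work.MP_ba58b9_gt

theorem fin_unif {α : Type*} (P : ℕ → α → Prop) (hP : ∀ n m x, n ≤ m → P n x → P m x)
    {F : Set α} (hF : F.Finite) (h : ∀ x ∈ F, ∃ n, P n x) : ∃ n, ∀ x ∈ F, P n x := by
  induction F, hF using Set.Finite.induction_on with
  | empty => exact ⟨0, fun x hx => absurd hx (notMem_empty _)⟩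
  | insert _ _ ih =>
    obtain ⟨n, hn⟩ := ih (fun x hx => h x (mem_insert_of_mem _ hx))
    obtain ⟨m, hm⟩ := h _ (mem_insert _ _)
    refine ⟨max n m, ?_⟩
    rintro x (rfl | hx)
    · exact hP _ _ _ (le_max_right _ _) hm
    · exact hP _ _ _ (le_max_left _ _) (hn x hx)

theorem exhaust {Z : Type} {M : Set Z} (hM : M.Countable) (hne : M.Nonempty) :
    ∃ l : ℕ → List Z, (∀ n, ∀ z ∈ l n, z ∈ M) ∧
      (∀ n m, n ≤ m → {z | z ∈ l n} ⊆ {z | z ∈ l m}) ∧ ∀ z ∈ M, ∃ n, z ∈ l n := by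
  obtain ⟨f, hf⟩ := hM.exists_eq_range hne
  refine ⟨fun n => (List.range (n + 1)).map f, ?_, ?_, ?_⟩
  · intro n z hz
    obtain ⟨k, _, rfl⟩ := List.mem_map.1 hz
    rw [hf]
    exact ⟨k, rfl⟩
  · intro n m hnm z hz
    obtain ⟨k, hk, rfl⟩ := List.mem_map.1 hz
    refine List.mem_map.2 ⟨k, ?_, rfl⟩
    rw [List.mem_range] at hk ⊢
    omega
  · intro z hz
    rw [hf] at hz
    obtain ⟨k, rfl⟩ := hz
    exact ⟨k, List.mem_map.2 ⟨k, by simp, rfl⟩⟩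

section

variable {I Y : Type} (o : I → Ordinal.{0}) (lev : Y → Ordinal.{0}) (R : Y → Y → Prop)

/-- Closure properties of countable sets. -/
structure ClM (CY : Set Ordinal.{0}) (Zd : Set Y → Set Y) (Dc : Set Y → Set Ordinal.{0})
    (M : Set (GPo o lev R ⊕ Set (GPo o lev R))) : Prop where
  a1 : ∀ p' : GPo o lev R, p'.1.els ⊆ elM o lev R M → p'.1.J ⊆ IM o lev R M ×ˢ IM o lev R M →
    Sum.inl p' ∈ M
  a2 : ∀ e : El I Y, e.Good o lev → e.code ∈ SM o lev R M → e ∈ elM o lev R M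
  cap : ∀ l : List (GPo o lev R ⊕ Set (GPo o lev R)), (∀ z ∈ l, z ∈ M) →
    ∃ e' ∈ elM o lev R M, Cap o lev R CY Zd Dc {z | z ∈ l} e'
  wit : ∀ D, Sum.inr D ∈ M → ∀ p, Sum.inl p ∈ M → ∀ (k : ℕ) (t : List Y),
    (∀ y ∈ t, y ∈ QM o lev R M) → t ∈ RD o lev R D p k → ∃ d ∈ D, Sum.inl d ∈ M ∧
      ∃ L : List (El I Y), L.map El.pt = t ∧ L.length = k ∧
        d.1.els = p.1.els ∪ {e | e ∈ L} ∧ p.1.J ⊆ d.1.J

variable {o lev R}

theorem clM_club (ho : Function.Injective o) (ho1 : ∀ i, o i < ω₁)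
    (hran : ∀ ξ < ω₁, ∃ i, o i = ξ) {CY : Set Ordinal.{0}}
    {Zd : Set Y → Set Y} {Dc : Set Y → Set Ordinal.{0}} (hG : GH lev R CY Zd Dc) :
    ∃ 𝒞 : Set (Set (GPo o lev R ⊕ Set (GPo o lev R))), CtblClub 𝒞 ∧
      ∀ M ∈ 𝒞, M.Countable ∧ (M.Nonempty → ClM o lev R CY Zd Dc M) := by
  classical
  have hfin : ∀ l : List (GPo o lev R ⊕ Set (GPo o lev R)),
      ({z | z ∈ l} : Set (GPo o lev R ⊕ Set (GPo o lev R))).Countable := fun l =>
    (List.finite_toSet l).countable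
  have hcap := fun l : List (GPo o lev R ⊕ Set (GPo o lev R)) =>
    cap_exists ho1 hran hG (hfin l)
  choose Tc hTc hTg using hcap
  have hw : ∀ (D : Set (GPo o lev R)) (p : GPo o lev R) (k : ℕ) (t : List Y),
      ∃ d : GPo o lev R, t ∈ RD o lev R D p k → d ∈ D ∧
      ∃ L : List (El I Y), L.map El.pt = t ∧ L.length = k ∧
        d.1.els = p.1.els ∪ {e | e ∈ L} ∧ p.1.J ⊆ d.1.J := by
    intro D p k t
    by_cases h : t ∈ RD o lev R D p k
    · obtain ⟨d, hd, hL⟩ := h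
      exact ⟨d, fun _ => ⟨hd, hL⟩⟩
    · exact ⟨p, fun h' => absurd h' h⟩
  choose wt hwt using hw
  let A1 : Set (GPo o lev R ⊕ Set (GPo o lev R)) → Set (GPo o lev R) := fun M =>
    {p' | p'.1.els ⊆ elM o lev R M ∧ p'.1.J ⊆ IM o lev R M ×ˢ IM o lev R M}
  let A2 : Set (GPo o lev R ⊕ Set (GPo o lev R)) → Set (GPo o lev R) := fun M =>
    {p' | ∃ (e : El I Y) (he : e.Good o lev), p' = single e he ∧ e.code ∈ SM o lev R M}
  let A7 : Set (GPo o lev R ⊕ Set (GPo o lev R)) → Set (GPo o lev R) := fun M =>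
    ⋃ D ∈ {D : Set (GPo o lev R) | Sum.inr D ∈ M}, ⋃ p ∈ {p : GPo o lev R | Sum.inl p ∈ M},
      ⋃ t ∈ {t : List Y | ∀ y ∈ t, y ∈ QM o lev R M}, range (fun k => wt D p k t)
  let G : List (GPo o lev R ⊕ Set (GPo o lev R)) → Set (GPo o lev R ⊕ Set (GPo o lev R)) :=
    fun l => Sum.inl '' (A1 {z | z ∈ l} ∪ A2 {z | z ∈ l} ∪ {single (Tc l) (hTg l)} ∪
      A7 {z | z ∈ l})
  have hA1 : ∀ M : Set (GPo o lev R ⊕ Set (GPo o lev R)), M.Countable → (A1 M).Countable := by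
    intro M hM
    refine Set.MapsTo.countable_of_injOn (f := fun p' : GPo o lev R => (p'.1.els, p'.1.J))
      (t := {t : Set (El I Y) | t.Finite ∧ t ⊆ elM o lev R M} ×ˢ
        {t : Set (I × I) | t.Finite ∧ t ⊆ IM o lev R M ×ˢ IM o lev R M}) ?_ ?_ ?_
    · intro p' hp'
      exact ⟨⟨p'.2.fin, hp'.1⟩, ⟨p'.2.jf, hp'.2⟩⟩
    · intro p' _ p'' _ h
      obtain ⟨h1, h2⟩ := Prod.mk.inj h
      apply Subtype.ext
      obtain ⟨⟨a, b⟩, c⟩ := p'
      obtain ⟨⟨a', b'⟩, c'⟩ := p''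
      simp only at h1 h2
      subst h1 h2
      rfl
    · exact (Set.countable_ofPred_finite_subset (elM_ctbl hM)).prod
        (Set.countable_ofPred_finite_subset ((IM_ctbl ho hG.lt hM).prod (IM_ctbl ho hG.lt hM)))
  have hA2 : ∀ M : Set (GPo o lev R ⊕ Set (GPo o lev R)), M.Countable → (A2 M).Countable := by
    intro M hM
    have h1 : {e : El I Y | e.code ∈ SM o lev R M}.Countable :=
      (SM_ctbl hM).preimage_of_injOn (fun a _ b _ h => El.code_inj h)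
    refine (h1.biUnion (t := fun e _ => {p' | ∃ he : e.Good o lev, p' = single e he})
      fun e _ => ?_).mono ?_
    · apply Set.Subsingleton.countable
      rintro p' ⟨he, rfl⟩ p'' ⟨he', rfl⟩
      rfl
    · rintro p' ⟨e, he, h2, h3⟩
      exact mem_iUnion₂.2 ⟨e, h3, he, h2⟩
  have hA7 : ∀ M : Set (GPo o lev R ⊕ Set (GPo o lev R)), M.Countable → (A7 M).Countable := by
    intro M hM
    exact (inr_ctbl hM).biUnion fun D _ => (inl_ctbl hM).biUnion fun p _ =>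
      (list_ctbl (QM_ctbl hM)).biUnion fun t _ => countable_range _
  have hGc : ∀ l, (G l).Countable := by
    intro l
    exact ((((hA1 _ (hfin l)).union (hA2 _ (hfin l))).union (countable_singleton _)).union
      (hA7 _ (hfin l))).image _
  refine ⟨_, club_closed G hGc, ?_⟩
  rintro M ⟨hMc, hM⟩
  refine ⟨hMc, fun hMne => ?_⟩
  obtain ⟨l, hl1, hl2, hl3⟩ := exhaust hMc hMne
  have hGM : ∀ n, G (l n) ⊆ M := fun n => hM (l n) (hl1 n)
  constructor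
  · intro p' hp1 hp2
    obtain ⟨n, hn⟩ := fin_unif (fun n e => e ∈ elM o lev R {z | z ∈ l n})
      (fun n m x hnm hx => elM_mono (hl2 n m hnm) hx) p'.2.fin (by
        intro e he
        obtain ⟨p, hp, hep⟩ := hp1 he
        obtain ⟨n, hn⟩ := hl3 _ hp
        exact ⟨n, p, hn, hep⟩)
    obtain ⟨m, hm⟩ := fin_unif
      (fun n t => t ∈ IM o lev R {z | z ∈ l n} ×ˢ IM o lev R {z | z ∈ l n})
      (fun n m x hnm hx => ⟨IM_mono (hl2 n m hnm) hx.1, IM_mono (hl2 n m hnm) hx.2⟩) p'.2.jf (by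
        intro t ht
        obtain ⟨⟨e1, he1, h1⟩, ⟨e2, he2, h2⟩⟩ := hp2 ht
        obtain ⟨p1, hp1, hep1⟩ := he1
        obtain ⟨n1, hn1⟩ := hl3 _ hp1
        obtain ⟨p2, hp2, hep2⟩ := he2
        obtain ⟨n2, hn2⟩ := hl3 _ hp2
        exact ⟨max n1 n2, IM_mono (hl2 _ _ (le_max_left _ _)) ⟨e1, ⟨p1, hn1, hep1⟩, h1⟩,
          IM_mono (hl2 _ _ (le_max_right _ _)) ⟨e2, ⟨p2, hn2, hep2⟩, h2⟩⟩)
    refine hGM (max n m) ⟨p', Or.inl (Or.inl (Or.inl ⟨?_, ?_⟩)), rfl⟩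
    · intro e he
      exact elM_mono (hl2 _ _ (le_max_left _ _)) (hn e he)
    · intro t ht
      have := hm t ht
      exact ⟨IM_mono (hl2 _ _ (le_max_right _ _)) this.1,
        IM_mono (hl2 _ _ (le_max_right _ _)) this.2⟩
  · rintro e he ⟨e', ⟨p, hp, hep⟩, hs⟩
    obtain ⟨n, hn⟩ := hl3 _ hp
    have h1 : Sum.inl (single e he) ∈ M := hGM n ⟨single e he,
      Or.inl (Or.inl (Or.inr ⟨e, he, rfl, ⟨e', ⟨p, hn, hep⟩, hs⟩⟩)), rfl⟩
    exact ⟨single e he, h1, rfl⟩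
  · intro l' hl'
    refine ⟨Tc l', ⟨single (Tc l') (hTg l'), ?_, rfl⟩, hTc l'⟩
    exact hM l' hl' ⟨_, Or.inl (Or.inr rfl), rfl⟩
  · intro D hD p hp k t ht htR
    obtain ⟨n1, hn1⟩ := hl3 _ hD
    obtain ⟨n2, hn2⟩ := hl3 _ hp
    obtain ⟨n3, hn3⟩ := fin_unif (F := {y | y ∈ t}) (fun n y => y ∈ QM o lev R {z | z ∈ l n})
      (fun n m x hnm hx => QM_mono (hl2 n m hnm) hx) (List.finite_toSet t) (by
        intro y hy
        obtain ⟨e, ⟨p, hp, hep⟩, hye⟩ := ht y hy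
        obtain ⟨n, hn⟩ := hl3 _ hp
        exact ⟨n, e, ⟨p, hn, hep⟩, hye⟩)
    obtain ⟨h1, h2⟩ := hwt D p k t htR
    refine ⟨wt D p k t, h1, hGM (max n1 (max n2 n3)) ⟨_, Or.inr ?_, rfl⟩, h2⟩
    refine mem_iUnion₂.2 ⟨D, hl2 _ _ (le_max_left _ _) hn1, mem_iUnion₂.2 ⟨p,
      hl2 _ _ ((le_max_left _ _).trans (le_max_right _ _)) hn2, mem_iUnion₂.2 ⟨t, ?_, k, rfl⟩⟩⟩
    intro y hy
    exact QM_mono (hl2 _ _ ((le_max_right _ _).trans (le_max_right _ _))) (hn3 y hy)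

end

end Pool.Agent.Work.MP_ba58b9_gt
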