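import Pool.Agent.Work.MP_ba58b9_gt.Pf.GlA
import Pool.Agent.Work.MP_ba58b9_gt.Pf.Clubs

/-!
# A general proper partial order with good points: capturing countable data
-/

set_option autoImplicit false

open Set Filter Topology Ordinal

namespace Pool.Agent.Work.MP_ba58b9_gt

/-- The derivative of a relation. -/
def DerB {Y : Type} (Big : Set Y → Prop) (T : Set (List Y)) : Set (List Y) :=
  {s | Big (sect T s)}

/-- Good elements. -/
structure GoodM {I Y : Type} (o : I → Ordinal.{0}) (lev : Y → Ordinal.{0})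
    (Gd : Set Y → Y → Prop) (e : El I Y) : Prop where
  qc : e.Q.Countable
  ac : e.A.Countable
  bt : o e.bt < lev e.pt
  ql : ∀ y ∈ e.Q, lev y < lev e.pt
  mp : ∀ T ∈ e.A, ∀ s : List Y, (∀ y ∈ s, y ∈ e.Q) → Gd (sect T s) e.pt

/-- Valid conditions. -/
structure OkM {I Y : Type} (o : I → Ordinal.{0}) (lev : Y → Ordinal.{0}) (R : Y → Y → Prop)
    (Gd : Set Y → Y → Prop) (p : Cnd I Y) : Prop where
  fin : p.els.Finite
  jf : p.J.Finite
  good : ∀ e ∈ p.els, GoodM o lev Gd e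
  chn : ∀ e ∈ p.els, ∀ e' ∈ p.els, e ≠ e' → Blw o lev R e e' ∨ Blw o lev R e' e
  exc : ∀ e ∈ p.els, ∀ t ∈ p.J, ¬ (o t.1 < lev e.pt ∧ lev e.pt ≤ o t.2)

/-- The partial order. -/
def GPm {I Y : Type} (o : I → Ordinal.{0}) (lev : Y → Ordinal.{0}) (R : Y → Y → Prop)
    (Gd : Set Y → Y → Prop) : Type :=
  {p : Cnd I Y // OkM o lev R Gd p}

instance {I Y : Type} (o : I → Ordinal.{0}) (lev : Y → Ordinal.{0}) (R : Y → Y → Prop)
    (Gd : Set Y → Y → Prop) : Preorder (GPm o lev R Gd) where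
  le q p := p.1.els ⊆ q.1.els ∧ p.1.J ⊆ q.1.J
  le_refl p := ⟨Subset.refl _, Subset.refl _⟩
  le_trans _ _ _ h1 h2 := ⟨h2.1.trans h1.1, h2.2.trans h1.2⟩

/-- The hypotheses on the points and on the relation. -/
structure GH2 {Y : Type} (lev : Y → Ordinal.{0}) (R : Y → Y → Prop) (Big : Set Y → Prop)
    (Gd : Set Y → Y → Prop) (CY : Set Ordinal.{0})
    (Zd : Set Y → Set Y) (Dc : Set Y → Set Ordinal.{0}) : Prop where
  lt : ∀ y, lev y < ω₁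
  club : Club CY
  sub : ∀ Z, Big Z → Zd Z ⊆ Z
  ctb : ∀ Z, Big Z → ∀ α < ω₁, {z | z ∈ Zd Z ∧ lev z < α}.Countable
  dcl : ∀ Z, Club (Dc Z)
  ex : ∀ 𝒵 : Set (Set Y), 𝒵.Countable → ∀ δ ∈ CY, (∀ Z ∈ 𝒵, δ ∈ Dc Z) →
    ∃ y, lev y = δ ∧ ∀ Z ∈ 𝒵, Gd Z y
  av : ∀ Z y, ¬ Big Z → Gd Z y → y ∉ Z
  dn : ∀ Z, Big Z → ∀ y₀, Gd Z y₀ → ∀ L : List Y,
    (∀ y ∈ L, lev y₀ < lev y ∧ R y₀ y ∧ Gd Z y) →
      ∃ z ∈ Zd Z, lev z < lev y₀ ∧ R z y₀ ∧ ∀ y ∈ L, R z y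

section

variable {I Y : Type} (o : I → Ordinal.{0}) (lev : Y → Ordinal.{0}) (R : Y → Y → Prop)
  (Gd : Set Y → Y → Prop)

/-- elements of conditions of `M` -/
def elN (M : Set (GPm o lev R Gd ⊕ Set (GPm o lev R Gd))) : Set (El I Y) :=
  {e | ∃ p : GPm o lev R Gd, Sum.inl p ∈ M ∧ e ∈ p.1.els}
/-- points of models of elements of `M` -/
def QN (M : Set (GPm o lev R Gd ⊕ Set (GPm o lev R Gd))) : Set Y :=
  {y | ∃ e ∈ elN o lev R Gd M, y ∈ e.Q}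
/-- relations of models of elements of `M` -/
def AN (M : Set (GPm o lev R Gd ⊕ Set (GPm o lev R Gd))) : Set (Set (List Y)) :=
  {T | ∃ e ∈ elN o lev R Gd M, T ∈ e.A}
/-- codes of models of elements of `M` -/
def SN (M : Set (GPm o lev R Gd ⊕ Set (GPm o lev R Gd))) : Set (Hc I Y) :=
  {h | ∃ e ∈ elN o lev R Gd M, h ∈ range e.S}
/-- bounds below the levels of elements of `M` -/
def IN (M : Set (GPm o lev R Gd ⊕ Set (GPm o lev R Gd))) : Set I :=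
  {i | ∃ e ∈ elN o lev R Gd M, o i < lev e.pt}

/-- The relation of tuples of points realised by extensions of `p` in `D`. -/
def RDN (D : Set (GPm o lev R Gd)) (p : GPm o lev R Gd) (k : ℕ) : Set (List Y) :=
  {t | ∃ d ∈ D, ∃ L : List (El I Y), L.map El.pt = t ∧ L.length = k ∧
    d.1.els = p.1.els ∪ {e | e ∈ L} ∧ p.1.J ⊆ d.1.J}

/-- The element `e'` captures the data of `M`. -/
structure CapN (Big : Set Y → Prop) (CY : Set Ordinal.{0}) (Zd : Set Y → Set Y)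
    (Dc : Set Y → Set Ordinal.{0})
    (M : Set (GPm o lev R Gd ⊕ Set (GPm o lev R Gd))) (e' : El I Y) : Prop where
  pt : ∀ e ∈ elN o lev R Gd M, e.pt ∈ e'.Q ∧ lev e.pt < lev e'.pt ∧ e.code ∈ range e'.S
  q : QN o lev R Gd M ⊆ e'.Q
  a : AN o lev R Gd M ⊆ e'.A
  s : SN o lev R Gd M ⊆ range e'.S
  rd : ∀ D, Sum.inr D ∈ M → ∀ p, Sum.inl p ∈ M → ∀ k j,
    (DerB Big)^[j] (RDN o lev R Gd D p k) ∈ e'.A
  jj : ∀ p : GPm o lev R Gd, Sum.inl p ∈ M → ∀ t ∈ p.1.J, o t.2 < lev e'.pt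
  cy : ∀ e ∈ elN o lev R Gd M, ∃ c ∈ CY, lev e.pt < c ∧ c < lev e'.pt
  dc : ∀ T ∈ AN o lev R Gd M, ∀ s : List Y, (∀ y ∈ s, y ∈ QN o lev R Gd M) →
    ∀ e ∈ elN o lev R Gd M, ∃ c ∈ Dc (sect T s), lev e.pt < c ∧ c < lev e'.pt
  ub : ∀ T ∈ AN o lev R Gd M, ∀ s : List Y, (∀ y ∈ s, y ∈ QN o lev R Gd M) → Big (sect T s) →
    ∀ z ∈ Zd (sect T s), (∃ e ∈ elN o lev R Gd M, lev z < lev e.pt) → z ∈ e'.Q

variable {o lev R Gd}

theorem OkM.lt_blw {p : Cnd I Y} (hp : OkM o lev R Gd p) {e e' : El I Y} (he : e ∈ p.els)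
    (he' : e' ∈ p.els) (hlt : lev e.pt < lev e'.pt) : Blw o lev R e e' := by
  have hne : e ≠ e' := by
    rintro rfl
    exact lt_irrefl _ hlt
  rcases hp.chn e he e' he' hne with h | h
  · exact h
  · exact absurd hlt (not_lt.2 h.1.lt.le)

theorem OkM.lev_inj {p : Cnd I Y} (hp : OkM o lev R Gd p) {e e' : El I Y} (he : e ∈ p.els)
    (he' : e' ∈ p.els) (hlt : lev e.pt = lev e'.pt) : e = e' := by
  by_contra hne
  rcases hp.chn e he e' he' hne with h | h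
  · exact absurd h.1.lt (by rw [hlt]; exact lt_irrefl _)
  · exact absurd h.1.lt (by rw [hlt]; exact lt_irrefl _)

theorem elN_mono {M M' : Set (GPm o lev R Gd ⊕ Set (GPm o lev R Gd))} (h : M ⊆ M') :
    elN o lev R Gd M ⊆ elN o lev R Gd M' := by
  rintro e ⟨p, hp, he⟩
  exact ⟨p, h hp, he⟩

theorem QN_mono {M M' : Set (GPm o lev R Gd ⊕ Set (GPm o lev R Gd))} (h : M ⊆ M') :
    QN o lev R Gd M ⊆ QN o lev R Gd M' := by
  rintro y ⟨e, he, hy⟩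
  exact ⟨e, elN_mono h he, hy⟩

theorem AN_mono {M M' : Set (GPm o lev R Gd ⊕ Set (GPm o lev R Gd))} (h : M ⊆ M') :
    AN o lev R Gd M ⊆ AN o lev R Gd M' := by
  rintro y ⟨e, he, hy⟩
  exact ⟨e, elN_mono h he, hy⟩

theorem SN_mono {M M' : Set (GPm o lev R Gd ⊕ Set (GPm o lev R Gd))} (h : M ⊆ M') :
    SN o lev R Gd M ⊆ SN o lev R Gd M' := by
  rintro y ⟨e, he, hy⟩
  exact ⟨e, elN_mono h he, hy⟩

theorem IN_mono {M M' : Set (GPm o lev R Gd ⊕ Set (GPm o lev R Gd))} (h : M ⊆ M') :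
    IN o lev R Gd M ⊆ IN o lev R Gd M' := by
  rintro y ⟨e, he, hy⟩
  exact ⟨e, elN_mono h he, hy⟩

theorem inl_ctblN {M : Set (GPm o lev R Gd ⊕ Set (GPm o lev R Gd))} (h : M.Countable) :
    {p : GPm o lev R Gd | Sum.inl p ∈ M}.Countable :=
  h.preimage_of_injOn Sum.inl_injective.injOn

theorem inr_ctblN {M : Set (GPm o lev R Gd ⊕ Set (GPm o lev R Gd))} (h : M.Countable) :
    {D : Set (GPm o lev R Gd) | Sum.inr D ∈ M}.Countable :=
  h.preimage_of_injOn Sum.inr_injective.injOn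

theorem elN_ctbl {M : Set (GPm o lev R Gd ⊕ Set (GPm o lev R Gd))} (h : M.Countable) :
    (elN o lev R Gd M).Countable := by
  refine ((inl_ctblN h).biUnion (t := fun p _ => p.1.els) fun p _ => p.2.fin.countable).mono ?_
  rintro e ⟨p, hp, he⟩
  exact mem_iUnion₂.2 ⟨p, hp, he⟩

theorem elN_good {M : Set (GPm o lev R Gd ⊕ Set (GPm o lev R Gd))} {e : El I Y}
    (he : e ∈ elN o lev R Gd M) : GoodM o lev Gd e := by
  obtain ⟨p, hp, he⟩ := he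
  exact p.2.good e he

theorem QN_ctbl {M : Set (GPm o lev R Gd ⊕ Set (GPm o lev R Gd))} (h : M.Countable) :
    (QN o lev R Gd M).Countable := by
  refine ((elN_ctbl h).biUnion (t := fun e _ => e.Q) fun e he => (elN_good he).qc).mono ?_
  rintro y ⟨e, he, hy⟩
  exact mem_iUnion₂.2 ⟨e, he, hy⟩

theorem AN_ctbl {M : Set (GPm o lev R Gd ⊕ Set (GPm o lev R Gd))} (h : M.Countable) :
    (AN o lev R Gd M).Countable := by
  refine ((elN_ctbl h).biUnion (t := fun e _ => e.A) fun e he => (elN_good he).ac).mono ?_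
  rintro y ⟨e, he, hy⟩
  exact mem_iUnion₂.2 ⟨e, he, hy⟩

theorem SN_ctbl {M : Set (GPm o lev R Gd ⊕ Set (GPm o lev R Gd))} (h : M.Countable) :
    (SN o lev R Gd M).Countable := by
  refine ((elN_ctbl h).biUnion (t := fun e _ => range e.S) fun e he => countable_range _).mono ?_
  rintro y ⟨e, he, hy⟩
  exact mem_iUnion₂.2 ⟨e, he, hy⟩

theorem IN_ctbl (ho : Function.Injective o) (hlev : ∀ y, lev y < ω₁)
    {M : Set (GPm o lev R Gd ⊕ Set (GPm o lev R Gd))} (h : M.Countable) :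
    (IN o lev R Gd M).Countable := by
  refine ((elN_ctbl h).biUnion (t := fun e _ => o ⁻¹' Iio (lev e.pt)) fun e he =>
    (Z1_countable (hlev _)).preimage_of_injOn ho.injOn).mono ?_
  rintro y ⟨e, he, hy⟩
  exact mem_iUnion₂.2 ⟨e, he, hy⟩

/-- Above every level there is a good point. -/
theorem pt_exists {Big : Set Y → Prop} {CY : Set Ordinal.{0}}
    {Zd : Set Y → Set Y} {Dc : Set Y → Set Ordinal.{0}} (hG : GH2 lev R Big Gd CY Zd Dc)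
    {𝒵 : Set (Set Y)} (h𝒵 : 𝒵.Countable) {γ : Ordinal.{0}} (hγ : γ < ω₁) :
    ∃ y, γ < lev y ∧ ∀ Z ∈ 𝒵, Gd Z y := by
  obtain ⟨D, hD, -, hDs⟩ := club_ctbl h𝒵 Dc (fun Z _ => hG.dcl Z)
  obtain ⟨E, hE, hEs⟩ := Z1_inter hD hG.club
  obtain ⟨δ, hδ, hγδ⟩ := hE.2.1 γ hγ
  obtain ⟨y, hy, hgd⟩ := hG.ex 𝒵 h𝒵 δ (hEs hδ).2 (fun Z hZ => hDs Z hZ (hEs hδ).1)
  exact ⟨y, by rw [hy]; exact hγδ, hgd⟩

/-- Every countable set is captured by a good element. -/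
theorem capN_exists (ho1 : ∀ i, o i < ω₁) (hran : ∀ ξ < ω₁, ∃ i, o i = ξ)
    {Big : Set Y → Prop} {CY : Set Ordinal.{0}}
    {Zd : Set Y → Set Y} {Dc : Set Y → Set Ordinal.{0}} (hG : GH2 lev R Big Gd CY Zd Dc)
    {M : Set (GPm o lev R Gd ⊕ Set (GPm o lev R Gd))} (hM : M.Countable) {γ0 : Ordinal.{0}}
    (hγ0 : γ0 < ω₁) :
    ∃ e' : El I Y, CapN o lev R Gd Big CY Zd Dc M e' ∧ GoodM o lev Gd e' ∧ γ0 < lev e'.pt := by
  classical
  have hel := elN_ctbl hM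
  have hTs := (AN_ctbl hM).prod (list_ctbl (QN_ctbl hM))
  -- the sets
  set Q₀ : Set Y := QN o lev R Gd M ∪ (El.pt '' elN o lev R Gd M) ∪
    ⋃ t ∈ AN o lev R Gd M ×ˢ {s : List Y | ∀ y ∈ s, y ∈ QN o lev R Gd M},
      ⋃ e ∈ elN o lev R Gd M,
      {z | Big (sect t.1 t.2) ∧ z ∈ Zd (sect t.1 t.2) ∧ lev z < lev e.pt} with hQ₀
  set A₀ : Set (Set (List Y)) := AN o lev R Gd M ∪
    ⋃ D ∈ {D : Set (GPm o lev R Gd) | Sum.inr D ∈ M}, ⋃ p ∈ {p : GPm o lev R Gd | Sum.inl p ∈ M},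
      range (fun kj : ℕ × ℕ => (DerB Big)^[kj.2] (RDN o lev R Gd D p kj.1)) with hA₀
  obtain ⟨y0, -, -⟩ := pt_exists hG (𝒵 := ∅) countable_empty (Ordinal.omega_pos 1)
  obtain ⟨i0, hi0⟩ := hran 0 (Ordinal.omega_pos 1)
  set S₀ : Set (Hc I Y) := insert (fun _ => (y0, i0, ∅, ∅)) (SN o lev R Gd M ∪
    (El.code '' elN o lev R Gd M)) with hS₀
  have hQc : Q₀.Countable := by
    refine ((QN_ctbl hM).union (hel.image _)).union ?_
    refine hTs.biUnion fun t _ => hel.biUnion fun e _ => ?_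
    by_cases hu : Big (sect t.1 t.2)
    · refine (hG.ctb _ hu (lev e.pt) (hG.lt _)).mono ?_
      rintro z ⟨-, h1, h2⟩
      exact ⟨h1, h2⟩
    · refine Set.countable_empty.mono ?_
      rintro z ⟨h1, -⟩
      exact absurd h1 hu
  have hAc : A₀.Countable := by
    refine (AN_ctbl hM).union ?_
    exact (inr_ctblN hM).biUnion fun D _ => (inl_ctblN hM).biUnion fun p _ => countable_range _
  have hSc : S₀.Countable := ((SN_ctbl hM).union (hel.image _)).insert _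
  -- bounds
  obtain ⟨γ1, hγ1, h1⟩ := ctbl_sup hel (fun e => lev e.pt) (fun e _ => hG.lt _)
  have hJc : (⋃ p ∈ {p : GPm o lev R Gd | Sum.inl p ∈ M}, p.1.J).Countable :=
    (inl_ctblN hM).biUnion fun p _ => p.2.jf.countable
  obtain ⟨γ2, hγ2, h2⟩ := ctbl_sup hJc (fun t => o t.2) (fun t _ => ho1 _)
  have hnext : ∀ C : Set Ordinal.{0}, ∃ f : Ordinal.{0} → Ordinal.{0}, Club C →
      ∀ α < ω₁, f α ∈ C ∧ α < f α := by
    intro C
    by_cases hC : Club C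
    · have h3 : ∀ α : Ordinal.{0}, ∃ β, α < ω₁ → β ∈ C ∧ α < β := by
        intro α
        by_cases hα : α < ω₁
        · obtain ⟨β, hβ⟩ := hC.2.1 α hα
          exact ⟨β, fun _ => hβ⟩
        · exact ⟨0, fun h => absurd h hα⟩
      choose f hf using h3
      exact ⟨f, fun _ => hf⟩
    · exact ⟨id, fun h => absurd h hC⟩
  choose nx hnx using hnext
  obtain ⟨γ3, hγ3, h3⟩ := ctbl_sup hel (fun e => nx CY (lev e.pt))
    (fun e _ => hG.club.1 _ (hnx CY hG.club _ (hG.lt _)).1)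
  obtain ⟨γ4, hγ4, h4⟩ := ctbl_sup hQc lev (fun y _ => hG.lt _)
  obtain ⟨γ5, hγ5, h5⟩ := ctbl_sup (hTs.prod hel)
    (fun t => nx (Dc (sect t.1.1 t.1.2)) (lev t.2.pt))
    (by
      intro t _
      exact (hG.dcl _).1 _ (hnx _ (hG.dcl _) _ (hG.lt _)).1)
  set γ' : Ordinal.{0} := max γ0 (max γ1 (max γ2 (max γ3 (max γ4 γ5)))) with hγ'def
  have hγ' : γ' < ω₁ := max_lt hγ0 (max_lt hγ1 (max_lt hγ2 (max_lt hγ3 (max_lt hγ4 hγ5))))
  obtain ⟨y1, hy1, hgd⟩ := pt_exists hG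
    (𝒵 := (fun t : Set (List Y) × List Y => sect t.1 t.2) '' (A₀ ×ˢ {s : List Y | ∀ y ∈ s, y ∈ Q₀}))
    ((hAc.prod (list_ctbl hQc)).image _) hγ'
  obtain ⟨S, hSeq⟩ := hSc.exists_eq_range ⟨_, mem_insert _ _⟩
  have hl0 : γ0 < lev y1 := (le_max_left _ _).trans_lt hy1
  have hl1' : max γ1 (max γ2 (max γ3 (max γ4 γ5))) < lev y1 := (le_max_right _ _).trans_lt hy1
  have hl1 : γ1 < lev y1 := (le_max_left _ _).trans_lt hl1'
  have hl2' : max γ2 (max γ3 (max γ4 γ5)) < lev y1 := (le_max_right _ _).trans_lt hl1'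
  have hl2 : γ2 < lev y1 := (le_max_left _ _).trans_lt hl2'
  have hl3' : max γ3 (max γ4 γ5) < lev y1 := (le_max_right _ _).trans_lt hl2'
  have hl3 : γ3 < lev y1 := (le_max_left _ _).trans_lt hl3'
  have hl4' : max γ4 γ5 < lev y1 := (le_max_right _ _).trans_lt hl3'
  have hl4 : γ4 < lev y1 := (le_max_left _ _).trans_lt hl4'
  have hl5 : γ5 < lev y1 := (le_max_right _ _).trans_lt hl4'
  refine ⟨⟨y1, i0, Q₀, A₀, S⟩, ⟨?_, ?_, ?_, ?_, ?_, ?_, ?_, ?_, ?_⟩, ⟨hQc, hAc, ?_, ?_, ?_⟩, hl0⟩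
  · intro e he
    refine ⟨?_, (h1 e he).trans_lt hl1, ?_⟩
    · exact Or.inl (Or.inr ⟨e, he, rfl⟩)
    · change e.code ∈ range S
      rw [← hSeq]
      exact Or.inr (Or.inr ⟨e, he, rfl⟩)
  · exact fun y hy => Or.inl (Or.inl hy)
  · exact fun y hy => Or.inl hy
  · change SN o lev R Gd M ⊆ range S
    rw [← hSeq]
    exact fun y hy => Or.inr (Or.inl hy)
  · intro D hD p hp k j
    refine Or.inr (mem_iUnion₂.2 ⟨D, hD, mem_iUnion₂.2 ⟨p, hp, ⟨(k, j), rfl⟩⟩⟩)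
  · intro p hp t ht
    exact (h2 t (mem_iUnion₂.2 ⟨p, hp, ht⟩)).trans_lt hl2
  · intro e he
    exact ⟨nx CY (lev e.pt), (hnx CY hG.club _ (hG.lt _)).1, (hnx CY hG.club _ (hG.lt _)).2,
      (h3 e he).trans_lt hl3⟩
  · intro T hT s hs e he
    have h6 := h5 ((T, s), e) ⟨⟨hT, hs⟩, he⟩
    exact ⟨_, (hnx _ (hG.dcl _) _ (hG.lt _)).1, (hnx _ (hG.dcl _) _ (hG.lt _)).2,
      h6.trans_lt hl5⟩
  · rintro T hT s hs hu z hz ⟨e, he, hze⟩
    exact Or.inr (mem_iUnion₂.2 ⟨(T, s), ⟨hT, hs⟩, mem_iUnion₂.2 ⟨e, he, hu, hz, hze⟩⟩)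
  · change o i0 < lev y1
    rw [hi0]
    exact (zero_le : 0 ≤ γ0).trans_lt hl0
  · intro y hy
    exact (h4 y hy).trans_lt hl4
  · intro T hT s hs
    exact hgd _ ⟨(T, s), ⟨hT, hs⟩, rfl⟩

/-- The condition with one element. -/
def singleN (e : El I Y) (he : GoodM o lev Gd e) : GPm o lev R Gd :=
  ⟨⟨{e}, ∅⟩, ⟨finite_singleton _, finite_empty, by
    rintro e' rfl
    exact he, by
    rintro e1 rfl e2 rfl hne
    exact absurd rfl hne, fun e _ t ht => absurd ht (notMem_empty _)⟩⟩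

end

end Pool.Agent.Work.MP_ba58b9_gt
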