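import Pool.Agent.Work.MP_ba58b9_gt.Pf.GmA
import Pool.Agent.Work.MP_ba58b9_gt.Pf.GlD

/-!
# A general proper partial order with good points: the club of countable sets
-/

set_option autoImplicit false

open Set Filter Topology Ordinal

namespace Pool.Agent.Work.MP_ba58b9_gt

section

variable {I Y : Type} (o : I → Ordinal.{0}) (lev : Y → Ordinal.{0}) (R : Y → Y → Prop)
  (Gd : Set Y → Y → Prop)

/-- Closure properties of countable sets. -/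
structure ClN (Big : Set Y → Prop) (CY : Set Ordinal.{0}) (Zd : Set Y → Set Y) (Dc : Set Y → Set Ordinal.{0})
    (M : Set (GPm o lev R Gd ⊕ Set (GPm o lev R Gd))) : Prop where
  a1 : ∀ p' : GPm o lev R Gd, p'.1.els ⊆ elN o lev R Gd M → p'.1.J ⊆ IN o lev R Gd M ×ˢ IN o lev R Gd M →
    Sum.inl p' ∈ M
  a2 : ∀ e : El I Y, GoodM o lev Gd e → e.code ∈ SN o lev R Gd M → e ∈ elN o lev R Gd M
  cap : ∀ l : List (GPm o lev R Gd ⊕ Set (GPm o lev R Gd)), (∀ z ∈ l, z ∈ M) →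
    ∃ e' ∈ elN o lev R Gd M, CapN o lev R Gd Big CY Zd Dc {z | z ∈ l} e'
  wit : ∀ D, Sum.inr D ∈ M → ∀ p, Sum.inl p ∈ M → ∀ (k : ℕ) (t : List Y),
    (∀ y ∈ t, y ∈ QN o lev R Gd M) → t ∈ RDN o lev R Gd D p k → ∃ d ∈ D, Sum.inl d ∈ M ∧
      ∃ L : List (El I Y), L.map El.pt = t ∧ L.length = k ∧
        d.1.els = p.1.els ∪ {e | e ∈ L} ∧ p.1.J ⊆ d.1.J

variable {o lev R Gd}

theorem clN_club (ho : Function.Injective o) (ho1 : ∀ i, o i < ω₁)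
    (hran : ∀ ξ < ω₁, ∃ i, o i = ξ) {Big : Set Y → Prop} {CY : Set Ordinal.{0}}
    {Zd : Set Y → Set Y} {Dc : Set Y → Set Ordinal.{0}} (hG : GH2 lev R Big Gd CY Zd Dc) :
    ∃ 𝒞 : Set (Set (GPm o lev R Gd ⊕ Set (GPm o lev R Gd))), CtblClub 𝒞 ∧
      ∀ M ∈ 𝒞, M.Countable ∧ (M.Nonempty → ClN o lev R Gd Big CY Zd Dc M) := by
  classical
  have hfin : ∀ l : List (GPm o lev R Gd ⊕ Set (GPm o lev R Gd)),
      ({z | z ∈ l} : Set (GPm o lev R Gd ⊕ Set (GPm o lev R Gd))).Countable := fun l =>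
    (List.finite_toSet l).countable
  have hcap := fun l : List (GPm o lev R Gd ⊕ Set (GPm o lev R Gd)) =>
    capN_exists ho1 hran hG (hfin l) (Ordinal.omega_pos 1)
  choose Tc hTc hTg _ using hcap
  have hw : ∀ (D : Set (GPm o lev R Gd)) (p : GPm o lev R Gd) (k : ℕ) (t : List Y),
      ∃ d : GPm o lev R Gd, t ∈ RDN o lev R Gd D p k → d ∈ D ∧
      ∃ L : List (El I Y), L.map El.pt = t ∧ L.length = k ∧
        d.1.els = p.1.els ∪ {e | e ∈ L} ∧ p.1.J ⊆ d.1.J := by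
    intro D p k t
    by_cases h : t ∈ RDN o lev R Gd D p k
    · obtain ⟨d, hd, hL⟩ := h
      exact ⟨d, fun _ => ⟨hd, hL⟩⟩
    · exact ⟨p, fun h' => absurd h' h⟩
  choose wt hwt using hw
  let A1 : Set (GPm o lev R Gd ⊕ Set (GPm o lev R Gd)) → Set (GPm o lev R Gd) := fun M =>
    {p' | p'.1.els ⊆ elN o lev R Gd M ∧ p'.1.J ⊆ IN o lev R Gd M ×ˢ IN o lev R Gd M}
  let A2 : Set (GPm o lev R Gd ⊕ Set (GPm o lev R Gd)) → Set (GPm o lev R Gd) := fun M =>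
    {p' | ∃ (e : El I Y) (he : GoodM o lev Gd e), p' = singleN e he ∧ e.code ∈ SN o lev R Gd M}
  let A7 : Set (GPm o lev R Gd ⊕ Set (GPm o lev R Gd)) → Set (GPm o lev R Gd) := fun M =>
    ⋃ D ∈ {D : Set (GPm o lev R Gd) | Sum.inr D ∈ M}, ⋃ p ∈ {p : GPm o lev R Gd | Sum.inl p ∈ M},
      ⋃ t ∈ {t : List Y | ∀ y ∈ t, y ∈ QN o lev R Gd M}, range (fun k => wt D p k t)
  let G : List (GPm o lev R Gd ⊕ Set (GPm o lev R Gd)) → Set (GPm o lev R Gd ⊕ Set (GPm o lev R Gd)) :=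
    fun l => Sum.inl '' (A1 {z | z ∈ l} ∪ A2 {z | z ∈ l} ∪ {singleN (Tc l) (hTg l)} ∪
      A7 {z | z ∈ l})
  have hA1 : ∀ M : Set (GPm o lev R Gd ⊕ Set (GPm o lev R Gd)), M.Countable → (A1 M).Countable := by
    intro M hM
    refine Set.MapsTo.countable_of_injOn (f := fun p' : GPm o lev R Gd => (p'.1.els, p'.1.J))
      (t := {t : Set (El I Y) | t.Finite ∧ t ⊆ elN o lev R Gd M} ×ˢ
        {t : Set (I × I) | t.Finite ∧ t ⊆ IN o lev R Gd M ×ˢ IN o lev R Gd M}) ?_ ?_ ?_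
    · intro p' hp'
      exact ⟨⟨p'.2.fin, hp'.1⟩, ⟨p'.2.jf, hp'.2⟩⟩
    · intro p' _ p'' _ h
      obtain ⟨h1, h2⟩ := Prod.mk.inj h
      apply Subtype.ext
      obtain ⟨⟨a, b⟩, c⟩ := p'
      obtain ⟨⟨a', b'⟩, c'⟩ := p''
      simp only at h1 h2
      subst h1 h2
      rfl
    · exact (Set.countable_ofPred_finite_subset (elN_ctbl hM)).prod
        (Set.countable_ofPred_finite_subset ((IN_ctbl ho hG.lt hM).prod (IN_ctbl ho hG.lt hM)))
  have hA2 : ∀ M : Set (GPm o lev R Gd ⊕ Set (GPm o lev R Gd)), M.Countable → (A2 M).Countable := by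
    intro M hM
    have h1 : {e : El I Y | e.code ∈ SN o lev R Gd M}.Countable :=
      (SN_ctbl hM).preimage_of_injOn (fun a _ b _ h => El.code_inj h)
    refine (h1.biUnion (t := fun e _ => {p' | ∃ he : GoodM o lev Gd e, p' = singleN e he})
      fun e _ => ?_).mono ?_
    · apply Set.Subsingleton.countable
      rintro p' ⟨he, rfl⟩ p'' ⟨he', rfl⟩
      rfl
    · rintro p' ⟨e, he, h2, h3⟩
      exact mem_iUnion₂.2 ⟨e, h3, he, h2⟩
  have hA7 : ∀ M : Set (GPm o lev R Gd ⊕ Set (GPm o lev R Gd)), M.Countable → (A7 M).Countable := by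
    intro M hM
    exact (inr_ctblN hM).biUnion fun D _ => (inl_ctblN hM).biUnion fun p _ =>
      (list_ctbl (QN_ctbl hM)).biUnion fun t _ => countable_range _
  have hGc : ∀ l, (G l).Countable := by
    intro l
    exact ((((hA1 _ (hfin l)).union (hA2 _ (hfin l))).union (countable_singleton _)).union
      (hA7 _ (hfin l))).image _
  refine ⟨_, club_closed G hGc, ?_⟩
  rintro M ⟨hMc, hM⟩
  refine ⟨hMc, fun hMne => ?_⟩
  obtain ⟨l, hl1, hl2, hl3⟩ := exhaust hMc hMne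
  have hGM : ∀ n, G (l n) ⊆ M := fun n => hM (l n) (hl1 n)
  constructor
  · intro p' hp1 hp2
    obtain ⟨n, hn⟩ := fin_unif (fun n e => e ∈ elN o lev R Gd {z | z ∈ l n})
      (fun n m x hnm hx => elN_mono (hl2 n m hnm) hx) p'.2.fin (by
        intro e he
        obtain ⟨p, hp, hep⟩ := hp1 he
        obtain ⟨n, hn⟩ := hl3 _ hp
        exact ⟨n, p, hn, hep⟩)
    obtain ⟨m, hm⟩ := fin_unif
      (fun n t => t ∈ IN o lev R Gd {z | z ∈ l n} ×ˢ IN o lev R Gd {z | z ∈ l n})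
      (fun n m x hnm hx => ⟨IN_mono (hl2 n m hnm) hx.1, IN_mono (hl2 n m hnm) hx.2⟩) p'.2.jf (by
        intro t ht
        obtain ⟨⟨e1, he1, h1⟩, ⟨e2, he2, h2⟩⟩ := hp2 ht
        obtain ⟨p1, hp1, hep1⟩ := he1
        obtain ⟨n1, hn1⟩ := hl3 _ hp1
        obtain ⟨p2, hp2, hep2⟩ := he2
        obtain ⟨n2, hn2⟩ := hl3 _ hp2
        exact ⟨max n1 n2, IN_mono (hl2 _ _ (le_max_left _ _)) ⟨e1, ⟨p1, hn1, hep1⟩, h1⟩,
          IN_mono (hl2 _ _ (le_max_right _ _)) ⟨e2, ⟨p2, hn2, hep2⟩, h2⟩⟩)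
    refine hGM (max n m) ⟨p', Or.inl (Or.inl (Or.inl ⟨?_, ?_⟩)), rfl⟩
    · intro e he
      exact elN_mono (hl2 _ _ (le_max_left _ _)) (hn e he)
    · intro t ht
      have := hm t ht
      exact ⟨IN_mono (hl2 _ _ (le_max_right _ _)) this.1,
        IN_mono (hl2 _ _ (le_max_right _ _)) this.2⟩
  · rintro e he ⟨e', ⟨p, hp, hep⟩, hs⟩
    obtain ⟨n, hn⟩ := hl3 _ hp
    have h1 : Sum.inl (singleN e he) ∈ M := hGM n ⟨singleN e he,
      Or.inl (Or.inl (Or.inr ⟨e, he, rfl, ⟨e', ⟨p, hn, hep⟩, hs⟩⟩)), rfl⟩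
    exact ⟨singleN e he, h1, rfl⟩
  · intro l' hl'
    refine ⟨Tc l', ⟨singleN (Tc l') (hTg l'), ?_, rfl⟩, hTc l'⟩
    exact hM l' hl' ⟨_, Or.inl (Or.inr rfl), rfl⟩
  · intro D hD p hp k t ht htR
    obtain ⟨n1, hn1⟩ := hl3 _ hD
    obtain ⟨n2, hn2⟩ := hl3 _ hp
    obtain ⟨n3, hn3⟩ := fin_unif (F := {y | y ∈ t}) (fun n y => y ∈ QN o lev R Gd {z | z ∈ l n})
      (fun n m x hnm hx => QN_mono (hl2 n m hnm) hx) (List.finite_toSet t) (by
        intro y hy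
        obtain ⟨e, ⟨p, hp, hep⟩, hye⟩ := ht y hy
        obtain ⟨n, hn⟩ := hl3 _ hp
        exact ⟨n, e, ⟨p, hn, hep⟩, hye⟩)
    obtain ⟨h1, h2⟩ := hwt D p k t htR
    refine ⟨wt D p k t, h1, hGM (max n1 (max n2 n3)) ⟨_, Or.inr ?_, rfl⟩, h2⟩
    refine mem_iUnion₂.2 ⟨D, hl2 _ _ (le_max_left _ _) hn1, mem_iUnion₂.2 ⟨p,
      hl2 _ _ ((le_max_left _ _).trans (le_max_right _ _)) hn2, mem_iUnion₂.2 ⟨t, ?_, k, rfl⟩⟩⟩
    intro y hy
    exact QN_mono (hl2 _ _ ((le_max_right _ _).trans (le_max_right _ _))) (hn3 y hy)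

end

end Pool.Agent.Work.MP_ba58b9_gt
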