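import Pool.Agent.Work.MP_ba58b9_gt.Pf.GmC

/-!
# A general proper partial order with good points: properness
-/

set_option autoImplicit false

open Set Filter Topology Ordinal

namespace Pool.Agent.Work.MP_ba58b9_gt

section

variable {I Y : Type} {o : I → Ordinal.{0}} {lev : Y → Ordinal.{0}} {R : Y → Y → Prop}
  {Gd : Set Y → Y → Prop}

theorem gm_proper (ho : Function.Injective o) (ho1 : ∀ i, o i < ω₁)
    (hran : ∀ ξ < ω₁, ∃ i, o i = ξ) {Big : Set Y → Prop} {CY : Set Ordinal.{0}}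
    {Zd : Set Y → Set Y} {Dc : Set Y → Set Ordinal.{0}} (hG : GH2 lev R Big Gd CY Zd Dc) :
    ProperPo (GPm o lev R Gd) := by
  classical
  obtain ⟨𝒞, h𝒞, hcl⟩ := clN_club (R := R) ho ho1 hran hG
  refine ⟨𝒞, h𝒞, ?_⟩
  intro M hM p hp
  obtain ⟨hMc, hC⟩ := hcl M hM
  replace hC := hC ⟨_, hp⟩
  obtain ⟨l, hl1, hl2, hl3⟩ := exhaust hMc ⟨_, hp⟩
  have helne : (elN o lev R Gd M).Nonempty := by
    obtain ⟨e, he, -⟩ := hC.cap [] (fun z hz => absurd hz (List.not_mem_nil))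
    exact ⟨e, he⟩
  obtain ⟨δ, hδ1, hδle, hδlub⟩ := ctbl_lub (elN_ctbl hMc) helne (fun e => lev e.pt)
    (fun e _ => hG.lt _)
  have hcap1 : ∀ e ∈ elN o lev R Gd M, ∃ e' ∈ elN o lev R Gd M, e.pt ∈ e'.Q ∧ lev e.pt < lev e'.pt ∧
      e.code ∈ range e'.S ∧ ∃ c ∈ CY, lev e.pt < c ∧ c < lev e'.pt := by
    rintro e ⟨p1, hp1, he⟩
    obtain ⟨e', he', hc⟩ := hC.cap [Sum.inl p1] (by simpa using hp1)
    have h1 : e ∈ elN o lev R Gd {z | z ∈ [Sum.inl p1]} := ⟨p1, by simp, he⟩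
    have h2 := hc.pt e h1
    exact ⟨e', he', h2.1, h2.2.1, h2.2.2, hc.cy e h1⟩
  have hlt : ∀ e ∈ elN o lev R Gd M, lev e.pt < δ := by
    intro e he
    obtain ⟨e', he', -, h1, -⟩ := hcap1 e he
    exact h1.trans_le (hδle e' he')
  have hδ0 : δ ≠ 0 := by
    obtain ⟨e, he⟩ := helne
    rintro rfl
    exact absurd (hlt e he) (not_lt.2 (zero_le))
  have hδCY : δ ∈ CY := by
    refine hG.club.2.2 δ hδ1 hδ0 fun β hβ => ?_
    obtain ⟨e, he, h1⟩ := hδlub β hβ
    obtain ⟨e', he', -, -, -, c, hc, h2, h3⟩ := hcap1 e he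
    exact ⟨c, hc, h1.trans h2, h3.trans (hlt e' he')⟩
  have hAQ : ∀ T ∈ AN o lev R Gd M, ∀ s : List Y, (∀ y ∈ s, y ∈ QN o lev R Gd M) →
      ∀ e ∈ elN o lev R Gd M, ∃ n, T ∈ AN o lev R Gd {z | z ∈ l n} ∧
        (∀ y ∈ s, y ∈ QN o lev R Gd {z | z ∈ l n}) ∧ e ∈ elN o lev R Gd {z | z ∈ l n} := by
    rintro T ⟨e1, ⟨p1, hp1, he1⟩, hT⟩ s hs e ⟨p2, hp2, he2⟩
    obtain ⟨n1, hn1⟩ := hl3 _ hp1
    obtain ⟨n2, hn2⟩ := hl3 _ hp2
    obtain ⟨n3, hn3⟩ := fin_unif (F := {y | y ∈ s}) (fun n y => y ∈ QN o lev R Gd {z | z ∈ l n})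
      (fun n m x hnm hx => QN_mono (hl2 n m hnm) hx) (List.finite_toSet s) (by
        intro y hy
        obtain ⟨e, ⟨p, hp, hep⟩, hye⟩ := hs y hy
        obtain ⟨n, hn⟩ := hl3 _ hp
        exact ⟨n, e, ⟨p, hn, hep⟩, hye⟩)
    refine ⟨max n1 (max n2 n3), AN_mono (hl2 _ _ (le_max_left _ _)) ⟨e1, ⟨p1, hn1, he1⟩, hT⟩,
      fun y hy => QN_mono (hl2 _ _ ((le_max_right _ _).trans (le_max_right _ _))) (hn3 y hy),
      elN_mono (hl2 _ _ ((le_max_left _ _).trans (le_max_right _ _))) ⟨p2, hn2, he2⟩⟩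
  have hcapn : ∀ n, ∃ e' ∈ elN o lev R Gd M, CapN o lev R Gd Big CY Zd Dc {z | z ∈ l n} e' := fun n =>
    hC.cap (l n) (hl1 n)
  have hδDc : ∀ T ∈ AN o lev R Gd M, ∀ s : List Y, (∀ y ∈ s, y ∈ QN o lev R Gd M) →
      δ ∈ Dc (sect T s) := by
    intro T hT s hs
    refine (hG.dcl _).2.2 δ hδ1 hδ0 fun β hβ => ?_
    obtain ⟨e, he, h1⟩ := hδlub β hβ
    obtain ⟨n, h2, h3, h4⟩ := hAQ _ hT s hs e he
    obtain ⟨e', he', hc⟩ := hcapn n
    obtain ⟨c, hc1, hc2, hc3⟩ := hc.dc _ h2 s h3 e h4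
    exact ⟨c, hc1, h1.trans hc2, hc3.trans (hlt e' he')⟩
  obtain ⟨yM, hyM, hgdM⟩ := hG.ex ((fun t : Set (List Y) × List Y => sect t.1 t.2) ''
    (AN o lev R Gd M ×ˢ {s : List Y | ∀ y ∈ s, y ∈ QN o lev R Gd M}))
    (((AN_ctbl hMc).prod (list_ctbl (QN_ctbl hMc))).image _) δ hδCY (by
      rintro _ ⟨⟨T, s⟩, ⟨hT, hs⟩, rfl⟩
      exact hδDc T hT s hs)
  -- the new element
  obtain ⟨ep, hep, hepc⟩ := hC.cap [Sum.inl p] (by simpa using hp)
  obtain ⟨bM, hbM⟩ := hran (lev ep.pt) (hG.lt _)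
  have hSne : (SN o lev R Gd M).Nonempty := by
    obtain ⟨e, he⟩ := helne
    exact ⟨e.S 0, e, he, 0, rfl⟩
  obtain ⟨SS, hSS⟩ := (SN_ctbl hMc).exists_eq_range hSne
  set eM : El I Y := ⟨yM, bM, QN o lev R Gd M, AN o lev R Gd M, SS⟩ with heM
  have hlM : lev eM.pt = δ := hyM
  have hgM : GoodM o lev Gd eM := by
    refine ⟨QN_ctbl hMc, AN_ctbl hMc, ?_, ?_, ?_⟩
    · change o bM < lev yM
      rw [hbM, hyM]
      exact hlt ep hep
    · rintro y ⟨e, he, hy⟩
      rw [hlM]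
      exact ((elN_good he).ql y hy).trans (hlt e he)
    · intro T hT s hs
      exact hgdM _ ⟨(T, s), ⟨hT, hs⟩, rfl⟩
  have hchM : ∀ e ∈ elN o lev R Gd M, Chn lev e eM := by
    intro e he
    obtain ⟨e', he', h1, h2, h3, -⟩ := hcap1 e he
    refine ⟨by rw [hlM]; exact hlt e he, ⟨e', he', h1⟩, fun y hy => ⟨e, he, hy⟩,
      fun y hy => ⟨e, he, hy⟩, ?_, ?_⟩
    · change e.code ∈ range SS
      rw [← hSS]
      exact ⟨e', he', h3⟩
    · change range e.S ⊆ range SS
      rw [← hSS]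
      exact fun y hy => ⟨e, he, hy⟩
  have hpM : ∀ e ∈ p.1.els, Blw o lev R e eM := by
    intro e he
    refine ⟨hchM e ⟨p, hp, he⟩, fun h => ?_⟩
    have h1 := (hepc.pt e ⟨p, by simp, he⟩).2.1
    change o bM ≤ lev e.pt at h
    rw [hbM] at h
    exact absurd h1 (not_lt.2 h)
  have hq : OkM o lev R Gd (⟨insert eM p.1.els, p.1.J⟩ : Cnd I Y) := by
    refine ⟨p.2.fin.insert _, p.2.jf, ?_, ?_, ?_⟩
    · rintro e (rfl | he)
      · exact hgM
      · exact p.2.good e he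
    · rintro e (rfl | he) e' (rfl | he') hne
      · exact absurd rfl hne
      · exact Or.inr (hpM e' he')
      · exact Or.inl (hpM e he)
      · exact p.2.chn e he e' he' hne
    · rintro e (rfl | he) t ht ⟨h1, h2⟩
      · have h3 := hepc.jj p (by simp) t ht
        rw [hlM] at h2
        exact absurd (h3.trans (hlt ep hep)) (not_lt.2 h2)
      · exact p.2.exc e he t ht ⟨h1, h2⟩
  refine ⟨⟨_, hq⟩, ⟨subset_insert _ _, Subset.refl _⟩, ?_⟩
  intro D hD hdense r0 hr0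
  obtain ⟨r, hrD, hrr⟩ := hdense r0
  have hrq : r.1.els ⊇ insert eM p.1.els := hr0.1.trans hrr.1
  have heMr : eM ∈ r.1.els := hrq (mem_insert _ _)
  have hbel : ∀ e ∈ r.1.els, lev e.pt < δ → e ∈ elN o lev R Gd M := by
    intro e he h1
    have h2 := r.2.lt_blw he heMr (by rw [hlM]; exact h1)
    refine hC.a2 e (r.2.good e he) ?_
    rw [hSS]
    exact h2.1.cs
  -- the part below
  have hp0 : OkM o lev R Gd (⟨{e | e ∈ r.1.els ∧ lev e.pt < δ},
      {t | t ∈ r.1.J ∧ o t.1 < δ ∧ o t.2 < δ}⟩ : Cnd I Y) := by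
    refine ⟨r.2.fin.subset fun e he => he.1, r.2.jf.subset fun t ht => ht.1,
      fun e he => r.2.good e he.1, fun e he e' he' => r.2.chn e he.1 e' he'.1,
      fun e he t ht => r.2.exc e he.1 t ht.1⟩
  set p0 : GPm o lev R Gd := ⟨_, hp0⟩ with hp0def
  have hp0M : Sum.inl p0 ∈ M := by
    refine hC.a1 p0 (fun e he => hbel e he.1 he.2) ?_
    rintro t ⟨-, h1, h2⟩
    obtain ⟨e1, he1, h3⟩ := hδlub _ h1
    obtain ⟨e2, he2, h4⟩ := hδlub _ h2
    exact ⟨⟨e1, he1, h3⟩, ⟨e2, he2, h4⟩⟩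
  obtain ⟨L0, hL0, hL0p⟩ := chain_list (lev := lev) (F := {e | e ∈ r.1.els ∧ δ ≤ lev e.pt})
    (r.2.fin.subset fun e he => he.1) (by
      intro e he e' he' hne
      rcases r.2.chn e he.1 e' he'.1 hne with h | h
      · exact Or.inl h.1
      · exact Or.inr h.1)
  have hrels : r.1.els = p0.1.els ∪ {e | e ∈ L0} := by
    ext e
    constructor
    · intro he
      rcases lt_or_ge (lev e.pt) δ with h | h
      · exact Or.inl ⟨he, h⟩
      · exact Or.inr ((hL0 e).2 ⟨he, h⟩)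
    · rintro (he | he)
      · exact he.1
      · exact ((hL0 e).1 he).1
  set T := RDN o lev R Gd D p0 L0.length with hT
  have hT0 : L0.map El.pt ∈ T := ⟨r, hrD, L0, rfl, rfl, hrels, fun t ht => ht.1⟩
  have hTA : ∀ j, (DerB Big)^[j] T ∈ AN o lev R Gd M := by
    intro j
    obtain ⟨e', he', hc⟩ := hC.cap [Sum.inr D, Sum.inl p0] (by
      intro z hz
      simp only [List.mem_cons, List.not_mem_nil, or_false] at hz
      rcases hz with rfl | rfl
      · exact hD
      · exact hp0M)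
    exact ⟨e', he', hc.rd D (by simp) p0 (by simp) _ j⟩
  have hMab : ∀ e ∈ r.1.els, δ ≤ lev e.pt → e = eM ∨ Chn lev eM e := by
    intro e he h
    rcases h.lt_or_eq with h1 | h1
    · exact Or.inr (r.2.lt_blw heMr he (by rw [hlM]; exact h1)).1
    · exact Or.inl (r.2.lev_inj he heMr (by rw [hlM]; exact h1.symm))
  have hdown : ∀ L2 L1 : List (El I Y), L0 = L1 ++ L2 →
      L1.map El.pt ∈ (DerB Big)^[L2.length] T := by
    intro L2
    induction L2 with
    | nil =>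
      intro L1 h
      rw [List.append_nil] at h
      rw [← h]
      exact hT0
    | cons e L2 ih =>
      intro L1 h
      have h1 := ih (L1 ++ [e]) (by rw [h]; simp)
      have heL : e ∈ L0 := by rw [h]; simp
      obtain ⟨her, heδ⟩ := (hL0 e).1 heL
      rw [List.length_cons, Function.iterate_succ_apply']
      by_contra hu
      have h2 : e.pt ∈ sect ((DerB Big)^[L2.length] T) (L1.map El.pt) := by
        change L1.map El.pt ++ [e.pt] ∈ (DerB Big)^[L2.length] T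
        rw [List.map_append] at h1
        exact h1
      have h3 : (DerB Big)^[L2.length] T ∈ e.A := by
        rcases hMab e her heδ with h4 | h4
        · rw [h4]
          exact hTA _
        · exact h4.aa (hTA _)
      have h5 : ∀ y ∈ L1.map El.pt, y ∈ e.Q := by
        intro y hy
        obtain ⟨e1, he1, rfl⟩ := List.mem_map.1 hy
        rw [h, List.pairwise_append] at hL0p
        exact (hL0p.2.2 e1 he1 e List.mem_cons_self).pq
      exact hG.av _ _ hu ((r.2.good e her).mp _ h3 _ h5) h2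
  have hnil : ([] : List Y) ∈ (DerB Big)^[L0.length] T := hdown L0 [] rfl
  -- going up
  have hLfin : {y | ∃ e ∈ r.1.els, δ < lev e.pt ∧ o e.bt < δ ∧ y = e.pt}.Finite := by
    refine (r.2.fin.image El.pt).subset ?_
    rintro y ⟨e, he, -, -, rfl⟩
    exact ⟨e, he, rfl⟩
  have hup : ∀ (j : ℕ) (s : List Y), (∀ y ∈ s, y ∈ QN o lev R Gd M ∧ ∀ e ∈ r.1.els, δ ≤ lev e.pt →
      o e.bt < δ → R y e.pt) → s ∈ (DerB Big)^[j] T → ∃ t ∈ T, ∀ y ∈ t, y ∈ QN o lev R Gd M ∧
        ∀ e ∈ r.1.els, δ ≤ lev e.pt → o e.bt < δ → R y e.pt := by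
    intro j
    induction j with
    | zero =>
      intro s hs hsT
      exact ⟨s, hsT, hs⟩
    | succ j ih =>
      intro s hs hsT
      rw [Function.iterate_succ_apply'] at hsT
      have hu : Big (sect ((DerB Big)^[j] T) s) := hsT
      have hsQ : ∀ y ∈ s, y ∈ QN o lev R Gd M := fun y hy => (hs y hy).1
      obtain ⟨z, hz, hzlt, hzM, hzL⟩ := hG.dn _ hu yM
        (hgdM _ ⟨((DerB Big)^[j] T, s), ⟨hTA j, hsQ⟩, rfl⟩)
        hLfin.toFinset.toList (by
          intro y hy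
          rw [Finset.mem_toList, Set.Finite.mem_toFinset] at hy
          obtain ⟨e, he, h1, h2, rfl⟩ := hy
          have h3 := r.2.lt_blw heMr he (by rw [hlM]; exact h1)
          refine ⟨by rw [hyM]; exact h1, h3.2 ?_, ?_⟩
          · rw [hlM]
            exact h2.le
          · exact (r.2.good e he).mp _ (h3.1.aa (hTA j)) s (fun y hy => h3.1.qq (hsQ y hy)))
      rw [hyM] at hzlt
      obtain ⟨e, he, h1⟩ := hδlub _ hzlt
      obtain ⟨n, h2, h3, h4⟩ := hAQ _ (hTA j) s hsQ e he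
      obtain ⟨e', he', hc⟩ := hcapn n
      have hzQ : z ∈ QN o lev R Gd M := ⟨e', he', hc.ub _ h2 s h3 hu z hz ⟨e, h4, h1⟩⟩
      refine ih (s ++ [z]) ?_ (hG.sub _ hu hz)
      intro y hy
      rcases List.mem_append.1 hy with hy | hy
      · exact hs y hy
      · rw [List.mem_singleton] at hy
        subst hy
        refine ⟨hzQ, fun e1 he1 h5 h6 => ?_⟩
        rcases h5.lt_or_eq with h7 | h7
        · apply hzL
          rw [Finset.mem_toList, Set.Finite.mem_toFinset]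
          exact ⟨e1, he1, h7, h6, rfl⟩
        · have h8 : e1 = eM := r.2.lev_inj he1 heMr (by rw [hlM]; exact h7.symm)
          rw [h8]
          exact hzM
  obtain ⟨t, htT, ht⟩ := hup L0.length [] (fun y hy => absurd hy (List.not_mem_nil)) hnil
  obtain ⟨d, hdD, hdM, L, hLt, -, hdels, hdJ⟩ := hC.wit D hD p0 hp0M L0.length t
    (fun y hy => (ht y hy).1) htT
  refine ⟨d, hdD, hdM, ?_⟩
  have hdel : ∀ e ∈ d.1.els, e ∈ elN o lev R Gd M := fun e he => ⟨d, hdM, he⟩
  -- the elements of `d` are below the upper part of `r`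
  have hcross : ∀ e ∈ d.1.els, ∀ e' ∈ r.1.els, e ≠ e' → e ∉ r.1.els → e' ∉ d.1.els →
      Blw o lev R e e' := by
    intro e he e' he' hne h1 h2
    have h3 : δ ≤ lev e'.pt := by
      by_contra h
      apply h2
      rw [hdels]
      exact Or.inl ⟨he', not_le.1 h⟩
    have heL : e ∈ L := by
      rw [hdels] at he
      rcases he with he | he
      · exact absurd he.1 h1
      · exact he
    have h4 := hchM e (hdel e he)
    refine ⟨?_, fun h5 => ?_⟩
    · rcases hMab e' he' h3 with h6 | h6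
      · rw [h6]
        exact h4
      · exact h4.trans h6
    · refine (ht e.pt ?_).2 e' he' h3 (h5.trans_lt (hlt e (hdel e he)))
      rw [← hLt]
      exact List.mem_map.2 ⟨e, heL, rfl⟩
  have hs : OkM o lev R Gd (⟨r.1.els ∪ d.1.els, r.1.J ∪ d.1.J⟩ : Cnd I Y) := by
    refine ⟨r.2.fin.union d.2.fin, r.2.jf.union d.2.jf, ?_, ?_, ?_⟩
    · rintro e (he | he)
      · exact r.2.good e he
      · exact d.2.good e he
    · intro e he e' he' hne
      by_cases h1 : e ∈ r.1.els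
      · by_cases h2 : e' ∈ r.1.els
        · exact r.2.chn e h1 e' h2 hne
        · have h3 : e' ∈ d.1.els := he'.resolve_left h2
          by_cases h4 : e ∈ d.1.els
          · exact d.2.chn e h4 e' h3 hne
          · exact Or.inr (hcross e' h3 e h1 hne.symm h2 h4)
      · have h3 : e ∈ d.1.els := he.resolve_left h1
        by_cases h4 : e' ∈ d.1.els
        · exact d.2.chn e h3 e' h4 hne
        · exact Or.inl (hcross e h3 e' (he'.resolve_right h4) hne h1 h4)
    · rintro e he t ht' ⟨h1, h2⟩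
      rcases ht' with ht' | ht'
      · by_cases her : e ∈ r.1.els
        · exact r.2.exc e her t ht' ⟨h1, h2⟩
        · have hed : e ∈ d.1.els := he.resolve_left her
          have h3 := hlt e (hdel e hed)
          by_cases h4 : o t.2 < δ
          · exact d.2.exc e hed t (hdJ ⟨ht', h1.trans h3, h4⟩) ⟨h1, h2⟩
          · exact r.2.exc eM heMr t ht' ⟨by rw [hlM]; exact h1.trans h3, by
              rw [hlM]; exact not_lt.1 h4⟩
      · by_cases hed : e ∈ d.1.els
        · exact d.2.exc e hed t ht' ⟨h1, h2⟩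
        · have her : e ∈ r.1.els := he.resolve_right hed
          have h3 : δ ≤ lev e.pt := by
            by_contra h
            apply hed
            rw [hdels]
            exact Or.inl ⟨her, not_le.1 h⟩
          obtain ⟨e', he', hc⟩ := hC.cap [Sum.inl d] (by simpa using hdM)
          have h4 := (hc.jj d (by simp) t ht').trans (hlt e' he')
          exact absurd (h3.trans h2) (not_le.2 h4)
  refine ⟨⟨_, hs⟩, ⟨?_, ?_⟩, ⟨subset_union_right, subset_union_right⟩⟩
  · exact hrr.1.trans subset_union_left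
  · exact hrr.2.trans subset_union_left

end

end Pool.Agent.Work.MP_ba58b9_gt
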