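import Pool.Agent.Work.MP_ba58b9_gt.Pf.GmD
import Pool.Agent.Work.MP_ba58b9_gt.Pf.GlE

/-!
# A general proper partial order with good points: the consequence of the proper forcing axiom
-/

set_option autoImplicit false

open Set Filter Topology Ordinal

namespace Pool.Agent.Work.MP_ba58b9_gt

section

variable {I Y : Type} {o : I → Ordinal.{0}} {lev : Y → Ordinal.{0}} {R : Y → Y → Prop}
  {Gd : Set Y → Y → Prop}

theorem gm_top (ho1 : ∀ i, o i < ω₁)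
    (hran : ∀ ξ < ω₁, ∃ i, o i = ξ) {Big : Set Y → Prop} {CY : Set Ordinal.{0}}
    {Zd : Set Y → Set Y} {Dc : Set Y → Set Ordinal.{0}} (hG : GH2 lev R Big Gd CY Zd Dc)
    (p : GPm o lev R Gd) {α : Ordinal.{0}} (hα : α < ω₁) :
    ∃ q : GPm o lev R Gd, q ≤ p ∧ ∃ e ∈ q.1.els, α < lev e.pt := by
  classical
  obtain ⟨e1, hc1, hg1, hα1⟩ := capN_exists (R := R) ho1 hran hG
    (M := {Sum.inl p}) (countable_singleton _) hα
  obtain ⟨e', hc', hg', hα'⟩ := capN_exists (R := R) ho1 hran hG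
    (M := {Sum.inl p, Sum.inl (singleN e1 hg1)})
    ((countable_singleton _).insert _) hα
  obtain ⟨b, hb⟩ := hran (lev e1.pt) (hG.lt _)
  have hp1 : ∀ e ∈ p.1.els, lev e.pt < lev e1.pt := fun e he =>
    (hc1.pt e ⟨p, rfl, he⟩).2.1
  have hp' : ∀ e ∈ p.1.els, e ∈ elN o lev R Gd {Sum.inl p, Sum.inl (singleN e1 hg1)} :=
    fun e he => ⟨p, Or.inl rfl, he⟩
  have h1' := (hc'.pt e1 ⟨singleN e1 hg1, Or.inr rfl, rfl⟩).2.1
  set e'' : El I Y := ⟨e'.pt, b, e'.Q, e'.A, e'.S⟩ with he''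
  have hg'' : GoodM o lev Gd e'' := by
    refine ⟨hg'.qc, hg'.ac, ?_, hg'.ql, hg'.mp⟩
    change o b < lev e'.pt
    rw [hb]
    exact h1'
  have hbl : ∀ e ∈ p.1.els, Blw o lev R e e'' := by
    intro e he
    have h2 := hc'.pt e (hp' e he)
    refine ⟨⟨h2.2.1, h2.1, ?_, ?_, h2.2.2, ?_⟩, fun h => ?_⟩
    · exact fun y hy => hc'.q ⟨e, hp' e he, hy⟩
    · exact fun y hy => hc'.a ⟨e, hp' e he, hy⟩
    · exact fun y hy => hc'.s ⟨e, hp' e he, hy⟩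
    · change o b ≤ lev e.pt at h
      rw [hb] at h
      exact absurd (hp1 e he) (not_lt.2 h)
  have hq : OkM o lev R Gd (⟨insert e'' p.1.els, p.1.J⟩ : Cnd I Y) := by
    refine ⟨p.2.fin.insert _, p.2.jf, ?_, ?_, ?_⟩
    · rintro e (rfl | he)
      · exact hg''
      · exact p.2.good e he
    · rintro e (rfl | he) e3 (rfl | he3) hne
      · exact absurd rfl hne
      · exact Or.inr (hbl e3 he3)
      · exact Or.inl (hbl e he)
      · exact p.2.chn e he e3 he3 hne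
    · rintro e (rfl | he) t ht ⟨h1, h2⟩
      · exact absurd (hc'.jj p (Or.inl rfl) t ht) (not_lt.2 h2)
      · exact p.2.exc e he t ht ⟨h1, h2⟩
  exact ⟨⟨_, hq⟩, ⟨subset_insert _ _, Subset.refl _⟩, e'', mem_insert _ _, hα'⟩

theorem gm_excl (hran : ∀ ξ < ω₁, ∃ i, o i = ξ) (hlev : ∀ y, lev y < ω₁)
    (p : GPm o lev R Gd) (α : I) (hα : o α ≠ 0) :
    ∃ q : GPm o lev R Gd, q ≤ p ∧ ((∃ e ∈ q.1.els, lev e.pt = o α) ∨
      ∃ t ∈ q.1.J, o t.1 < o α ∧ o α ≤ o t.2) := by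
  classical
  by_cases h : ∃ e ∈ p.1.els, lev e.pt = o α
  · exact ⟨p, le_refl p, Or.inl h⟩
  push Not at h
  have hb : ∃ b : I, o b < o α ∧ ∀ e ∈ p.1.els, lev e.pt < o α → lev e.pt ≤ o b := by
    rcases ({e | e ∈ p.1.els ∧ lev e.pt < o α} : Set (El I Y)).eq_empty_or_nonempty with he | hne
    · obtain ⟨i0, hi0⟩ := hran 0 (Ordinal.omega_pos 1)
      refine ⟨i0, by rw [hi0]; exact pos_iff_ne_zero.2 hα, fun e he1 he2 => ?_⟩
      have h3 : e ∈ ({e | e ∈ p.1.els ∧ lev e.pt < o α} : Set (El I Y)) := ⟨he1, he2⟩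
      rw [he] at h3
      exact absurd h3 (notMem_empty _)
    · obtain ⟨m, hm, hmax⟩ := Set.exists_max_image _ (fun e : El I Y => lev e.pt)
        (p.2.fin.subset (fun e he => he.1 : {e | e ∈ p.1.els ∧ lev e.pt < o α} ⊆ p.1.els)) hne
      obtain ⟨b, hb⟩ := hran (lev m.pt) (hlev _)
      refine ⟨b, by rw [hb]; exact hm.2, fun e he1 he2 => ?_⟩
      rw [hb]
      exact hmax e ⟨he1, he2⟩
  obtain ⟨b, hb1, hb2⟩ := hb
  have hq : OkM o lev R Gd (⟨p.1.els, insert (b, α) p.1.J⟩ : Cnd I Y) := by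
    refine ⟨p.2.fin, p.2.jf.insert _, p.2.good, p.2.chn, ?_⟩
    rintro e he t (rfl | ht) ⟨h1, h2⟩
    · exact absurd (hb2 e he (lt_of_le_of_ne h2 (h e he))) (not_le.2 h1)
    · exact p.2.exc e he t ht ⟨h1, h2⟩
  exact ⟨⟨_, hq⟩, ⟨Subset.refl _, subset_insert _ _⟩, Or.inr ⟨(b, α), mem_insert _ _, hb1, le_refl _⟩⟩

end

/-- The consequence of the proper forcing axiom. -/
theorem gm_main (hPFA : PFA) {Y : Type} {lev : Y → Ordinal.{0}} {R : Y → Y → Prop}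
    {Big : Set Y → Prop} {Gd : Set Y → Y → Prop}
    {CY : Set Ordinal.{0}} {Zd : Set Y → Set Y} {Dc : Set Y → Set Ordinal.{0}}
    (hG : GH2 lev R Big Gd CY Zd Dc) :
    ∃ (Δ : Set Ordinal.{0}) (y : Ordinal.{0} → Y) (b : Ordinal.{0} → Ordinal.{0}), Club Δ ∧
      (∀ δ ∈ Δ, lev (y δ) = δ ∧ b δ < δ) ∧
      ∀ δ ∈ Δ, ∀ ε ∈ Δ, ε < δ → b δ ≤ ε → R (y ε) (y δ) := by
  classical
  obtain ⟨I, o, ho, ho1, hran, hcard⟩ := pf_index
  have hne : Nonempty (GPm o lev R Gd) := ⟨⟨⟨∅, ∅⟩, ⟨finite_empty, finite_empty,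
    fun e he => absurd he (notMem_empty _), fun e he => absurd he (notMem_empty _),
    fun e he => absurd he (notMem_empty _)⟩⟩⟩
  obtain ⟨F, hFne, hFup, hFdir, hFD⟩ := hPFA (GPm o lev R Gd) (gm_proper ho ho1 hran hG)
    (range (fun t : I ⊕ I => (match t with
      | Sum.inl α => {q : GPm o lev R Gd | ∃ e ∈ q.1.els, o α < lev e.pt}
      | Sum.inr α => {q : GPm o lev R Gd | o α ≠ 0 → ((∃ e ∈ q.1.els, lev e.pt = o α) ∨
          ∃ t ∈ q.1.J, o t.1 < o α ∧ o α ≤ o t.2)} : Set (GPm o lev R Gd))))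
    (by
      refine Cardinal.mk_range_le.trans ?_
      rw [Cardinal.mk_sum, Cardinal.lift_id, hcard]
      rw [Cardinal.add_eq_max (Cardinal.aleph0_le_aleph 1), max_self])
    (by
      rintro _ ⟨α | α, rfl⟩ p
      · obtain ⟨q, hq, h⟩ := gm_top ho1 hran hG p (ho1 α)
        exact ⟨q, h, hq⟩
      · by_cases hα : o α = 0
        · exact ⟨p, fun h => absurd hα h, le_refl p⟩
        · obtain ⟨q, hq, h⟩ := gm_excl hran hG.lt p α hα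
          exact ⟨q, fun _ => h, hq⟩)
  have hD1 : ∀ β < ω₁, ∃ p ∈ F, ∃ e ∈ p.1.els, β < lev e.pt := by
    intro β hβ
    obtain ⟨α, rfl⟩ := hran β hβ
    obtain ⟨p, hp, h⟩ := hFD _ ⟨Sum.inl α, rfl⟩
    exact ⟨p, hp, h⟩
  have hD2 : ∀ β < ω₁, β ≠ 0 → ∃ p ∈ F, ((∃ e ∈ p.1.els, lev e.pt = β) ∨
      ∃ t ∈ p.1.J, o t.1 < β ∧ β ≤ o t.2) := by
    intro β hβ h0
    obtain ⟨α, rfl⟩ := hran β hβ
    obtain ⟨p, hp, h⟩ := hFD _ ⟨Sum.inr α, rfl⟩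
    exact ⟨p, hp, h h0⟩
  obtain ⟨p0, hp0, e0, he0, -⟩ := hD1 0 (Ordinal.omega_pos 1)
  have hch : ∀ δ : Ordinal.{0}, ∃ e : El I Y, (∃ p ∈ F, ∃ e ∈ p.1.els, lev e.pt = δ) →
      ∃ p ∈ F, e ∈ p.1.els ∧ lev e.pt = δ := by
    intro δ
    by_cases h : ∃ p ∈ F, ∃ e ∈ p.1.els, lev e.pt = δ
    · obtain ⟨p, hp, e, he, h1⟩ := h
      exact ⟨e, fun _ => ⟨p, hp, he, h1⟩⟩
    · exact ⟨e0, fun h' => absurd h' h⟩
  choose E hE using hch
  refine ⟨{δ | ∃ p ∈ F, ∃ e ∈ p.1.els, lev e.pt = δ}, fun δ => (E δ).pt, fun δ => o (E δ).bt,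
    ⟨?_, ?_, ?_⟩, ?_, ?_⟩
  · rintro δ ⟨p, hp, e, he, rfl⟩
    exact hG.lt _
  · intro β hβ
    obtain ⟨p, hp, e, he, h⟩ := hD1 β hβ
    exact ⟨_, ⟨p, hp, e, he, rfl⟩, h⟩
  · intro δ hδ h0 hlim
    obtain ⟨p, hp, h | ⟨t, ht, h1, h2⟩⟩ := hD2 δ hδ h0
    · exact ⟨p, hp, h⟩
    · obtain ⟨ε, ⟨p', hp', e, he, rfl⟩, h3, h4⟩ := hlim _ h1
      obtain ⟨r, hr, hrp, hrp'⟩ := hFdir p hp p' hp'
      exact absurd ⟨h3, h4.le.trans h2⟩ (r.2.exc e (hrp'.1 he) t (hrp.2 ht))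
  · intro δ hδ
    obtain ⟨p, hp, he, h⟩ := hE δ hδ
    refine ⟨h, ?_⟩
    have := (p.2.good _ he).bt
    rw [h] at this
    exact this
  · intro δ hδ ε hε hlt hb
    obtain ⟨p, hp, he, h⟩ := hE δ hδ
    obtain ⟨p', hp', he', h'⟩ := hE ε hε
    obtain ⟨r, hr, hrp, hrp'⟩ := hFdir p hp p' hp'
    have h1 := r.2.lt_blw (hrp'.1 he') (hrp.1 he) (by rw [h, h']; exact hlt)
    exact h1.2 (by rw [h']; exact hb)

end Pool.Agent.Work.MP_ba58b9_gt
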