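import Pool.Agent.Work.MP_ba58b9_gt.Pf.Stmts2

/-!
# Countably many tame sets of levels
-/

set_option autoImplicit false

open Set Filter Topology Ordinal

namespace Pool.Agent.Work.MP_ba58b9_gt.NSM2

/-- Countable subsets of the closure of the union of the neighbourhoods of a tame set of levels are
contained in compact subsets of members of the chain. -/
theorem ctbl_cpt {X : Type} [TopologicalSpace X] [T2Space X] [FirstCountableTopology X]
    {U : Ordinal.{0} → Set X} {V : Ordinal.{0} → ℕ → Set X} {A : Set Ordinal.{0}} {m : ℕ}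
    (hm : ∀ A' ⊆ A, A'.Countable → Rc U V A' m) {C : Set X}
    (hC : C ⊆ closure (⋃ ε ∈ A, V ε m)) (hCc : C.Countable) :
    ∃ K : Set X, IsCompact K ∧ (∃ α < ω₁, K ⊆ U α) ∧ C ⊆ K := by
  classical
  have h1 : ∀ x : X, ∃ u : ℕ → X, x ∈ C → (∀ j, u j ∈ ⋃ ε ∈ A, V ε m) ∧
      Tendsto u atTop (𝓝 x) := by
    intro x
    by_cases hx : x ∈ C
    · obtain ⟨u, hu, hlim⟩ := mem_closure_iff_seq_limit.1 (hC hx)
      exact ⟨u, fun _ => ⟨hu, hlim⟩⟩
    · exact ⟨fun _ => x, fun h => absurd h hx⟩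
  choose u hu using h1
  have h2 : ∀ (x : X) (j : ℕ), ∃ e : Ordinal.{0}, x ∈ C → e ∈ A ∧ u x j ∈ V e m := by
    intro x j
    by_cases hx : x ∈ C
    · obtain ⟨e, he, hue⟩ := mem_iUnion₂.1 ((hu x hx).1 j)
      exact ⟨e, fun _ => ⟨he, hue⟩⟩
    · exact ⟨0, fun h => absurd h hx⟩
  choose e he using h2
  obtain ⟨K, hK, hKU, hsub⟩ := hm (⋃ x ∈ C, range (e x)) (by
    refine iUnion₂_subset fun x hx => ?_
    rintro _ ⟨j, rfl⟩
    exact (he x j hx).1) (hCc.biUnion fun x _ => countable_range _)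
  refine ⟨K, hK, hKU, fun x hx => ?_⟩
  refine hK.isClosed.mem_of_tendsto (hu x hx).2 (Eventually.of_forall fun j => hsub ?_)
  exact mem_iUnion₂.2 ⟨e x j, mem_iUnion₂.2 ⟨x, hx, ⟨j, rfl⟩⟩, (he x j hx).2⟩

/-- The closure of the union of the neighbourhoods of a tame set of levels has compact traces. -/
theorem tame_ob {n : ℕ} {X : Type} [TopologicalSpace X] [T2Space X] [FirstCountableTopology X]
    (hSep : PSep) (hX : LocN n X) (hCP : ∀ S : Set X, CPara S)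
    {U : Ordinal.{0} → Set X} (hSc : ∀ α < ω₁, ∃ Q : Set X, Q.Countable ∧ U α ⊆ closure Q)
    {V : Ordinal.{0} → ℕ → Set X} {A : Set Ordinal.{0}} {m : ℕ}
    (hm : ∀ A' ⊆ A, A'.Countable → Rc U V A' m) :
    OB U (closure (⋃ ε ∈ A, V ε m)) := by
  refine ⟨isClosed_closure, fun x hx => ?_, fun α hα => ?_⟩
  · obtain ⟨K, -, ⟨α, hα, hKU⟩, hxK⟩ := ctbl_cpt hm (C := {x})
      (singleton_subset_iff.2 hx) (countable_singleton x)
    exact ⟨α, hα, hKU (hxK (mem_singleton x))⟩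
  · obtain ⟨Q, hQ, hUQ⟩ := hSc α hα
    refine hSep n X hX hCP Q _ hQ (isClosed_closure.inter isClosed_closure)
      (inter_subset_right.trans (closure_minimal hUQ isClosed_closure)) fun C hC hCc => ?_
    obtain ⟨K, hK, -, hCK⟩ := ctbl_cpt hm (hC.trans inter_subset_left) hCc
    exact hK.of_isClosed_subset isClosed_closure (closure_minimal hCK hK.isClosed)

theorem club_tail {C : Set Ordinal.{0}} (hC : Club C) {β : Ordinal.{0}} (hβ : β < ω₁) :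
    Club {δ | δ ∈ C ∧ β < δ} := by
  refine ⟨fun δ hδ => hC.1 δ hδ.1, fun γ hγ => ?_, fun δ hδ h0 hlim => ?_⟩
  · obtain ⟨δ, h1, h2⟩ := hC.2.1 (max β γ) (max_lt hβ hγ)
    exact ⟨δ, ⟨h1, (le_max_left _ _).trans_lt h2⟩, (le_max_right _ _).trans_lt h2⟩
  · refine ⟨hC.2.2 δ hδ h0 fun γ hγ => ?_, ?_⟩
    · obtain ⟨t, ht, h1, h2⟩ := hlim γ hγ
      exact ⟨t, ht.1, h1, h2⟩
    · obtain ⟨t, ht, -, h2⟩ := hlim 0 (pos_iff_ne_zero.2 h0)
      exact ht.2.trans h2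

/-- Item SM2. -/
theorem prf : PSm2 := by
  classical
  intro hSep n X _ _ hX hCP U hU hSc W hW C₁ V N hTD A hA β hβ hcov
  obtain ⟨-, -, hFC, -, -⟩ := itemZ2 n X hX
  choose m hm using fun k => (hA k).2
  set G : ℕ → Set X := fun k => ⋃ ε ∈ A k, V ε (m k) with hG
  have hGo : ∀ k, IsOpen (G k) := fun k =>
    isOpen_biUnion fun ε hε => hTD.opn ε ((hA k).1 hε) _
  have hGOB : ∀ k, OB U (closure (G k)) := fun k => tame_ob hSep hX hCP hSc (hm k)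
  have hcl := club_tail hTD.lv.club hβ
  have hLv := hTD.lv.sub' hcl (fun δ hδ => hδ.1)
  have hFcl := hLv.closed hU hW
  set F : Set X := W ∩ ⋃ δ ∈ {δ | δ ∈ C₁ ∧ β < δ}, bd (U δ) with hF
  have hFOB : OB U F := hW.mono hFcl inter_subset_left
  have hFG : ∀ x ∈ F, ∃ k, x ∈ G k := by
    rintro x ⟨hxW, hx⟩
    obtain ⟨δ, hδ, hxδ⟩ := mem_iUnion₂.1 hx
    obtain ⟨k, hk⟩ := hcov δ hδ.1 hδ.2
    exact ⟨k, mem_iUnion₂.2 ⟨δ, hk, hTD.sub δ hδ.1 _ ⟨hxW, hxδ⟩⟩⟩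
  obtain ⟨k, hk⟩ : ∃ k, F ⊆ ⋃ j ∈ Iic k, G j := by
    by_contra hcon
    push Not at hcon
    choose g hg1 hg2 using fun k => not_subset.1 (hcon k)
    obtain ⟨p, hp, hp2⟩ := hFOB.cluster hU g hg1
    obtain ⟨k, hk⟩ := hFG p hp
    obtain ⟨y, hy, ⟨j, hj, rfl⟩⟩ := mem_closure_iff.1 (hp2 k) (G k) (hGo k) hk
    exact hg2 j (mem_iUnion₂.2 ⟨k, hj, hy⟩)
  refine ⟨⋃ j ∈ Iic k, G j, isOpen_biUnion fun j _ => hGo j, ?_, hk⟩
  have h1 : OB U (⋃₀ ((fun j => closure (G j)) '' Iic k)) := by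
    refine OB.sUnion ((finite_Iic k).image _) ?_
    rintro _ ⟨j, -, rfl⟩
    exact hGOB j
  refine h1.mono isClosed_closure (closure_minimal ?_ h1.cl)
  refine iUnion₂_subset fun j hj => subset_closure.trans ?_
  exact subset_sUnion_of_mem ⟨j, hj, rfl⟩

end Pool.Agent.Work.MP_ba58b9_gt.NSM2
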