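import Pool.Agent.Work.MP_ba58b9_gt.Pf.Base

/-!
# A chain condition for closed unbounded sets, atoms
-/

set_option autoImplicit false

open Set Filter Topology Ordinal

namespace Pool.Agent.Work.MP_ba58b9_gt

section

variable {X : Type} [TopologicalSpace X] {U : Ordinal.{0} → Set X}

/-- `F` is almost contained in `G`. -/
def Le (U : Ordinal.{0} → Set X) (F G : Set X) : Prop :=
  ∀ H, IsClosed H → H ⊆ F → UBd U H → UBd U (H ∩ G)

/-- Minimal closed unbounded sets. -/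
structure Atom (U : Ordinal.{0} → Set X) (W : Set X) : Prop where
  ob : OB U W
  ub : UBd U W
  at_ : ∀ H H', IsClosed H → IsClosed H' → H ⊆ W → H' ⊆ W → UBd U H → UBd U H' → UBd U (H ∩ H')

/-- Sets almost covered by finitely many atoms. -/
def Sm (U : Ordinal.{0} → Set X) (F : Set X) : Prop :=
  ∃ 𝒜 : Set (Set X), 𝒜.Finite ∧ (∀ W ∈ 𝒜, Atom U W) ∧ Le U F (⋃₀ 𝒜)

/-- The chain condition. -/
theorem noeth (h : CI U) (hCP : ∀ S : Set X, CPara S) {F : ℕ → Set X}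
    (hF : ∀ m, OB U (F m)) (hanti : Antitone F) :
    ∃ i, Le U (F i) (⋂ m, F m) := by
  by_contra hcon
  push Not at hcon
  unfold Le at hcon
  push Not at hcon
  choose G hGc hGF hGu hGn using hcon
  have hB := hF 0
  have hF0 : ∀ m, F m ⊆ F 0 := fun m => hanti (Nat.zero_le m)
  obtain ⟨CB, hCB⟩ := hB.lv h
  have hGB : ∀ i, OB U (G i) := fun i => hB.mono (hGc i) ((hGF i).trans (hF0 i))
  choose γ hγ hγ2 using fun i => not_ubd (hGn i)
  obtain ⟨γ', hγ', hle⟩ := seq_sup γ hγ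
  choose Ci hCi hCi2 using fun i => (hGB i).ub_club h (hGu i)
  obtain ⟨D, hD, hDl, hDi⟩ := club_nat hCi
  obtain ⟨C0', hC0', hC0s'⟩ := Z1_inter hD (Z1_Ioi hγ')
  obtain ⟨C0, hC0, hC0s⟩ := Z1_inter hC0' hCB.club
  obtain ⟨C, nx, hC, hCs, hCl, hnx⟩ := club_split hC0
  have hC0B : Lv U (F 0) C0 := hCB.sub' hC0 (fun δ hδ => (hC0s hδ).2)
  have hCB' : Lv U (F 0) C := hC0B.sub' hC hCs
  have hFi : IsClosed (⋂ m, F m) := isClosed_iInter fun m => (hF m).cl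
  set KC : Set X := ⋃ δ ∈ C, bd (U δ) with hKCdef
  have hKCF : ∀ A : Set X, A ⊆ F 0 → IsClosed A → IsClosed (A ∩ KC) := by
    intro A hA hAc
    have : A ∩ KC = A ∩ (F 0 ∩ KC) := by rw [← inter_assoc, inter_eq_left.2 hA]
    rw [this]
    exact hAc.inter (hCB'.closed h hB)
  set Y : Set X := ((⋂ m, F m) ∩ KC)ᶜ with hYdef
  have hYo : IsOpen Y := (hKCF _ (iInter_subset F 0) hFi).isOpen_compl
  obtain ⟨W, hWo, hWa, hFW, hWe⟩ := itemZ6 Y (hCP Y) (fun m => {y : Y | (y : X) ∈ F m ∩ KC})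
    (fun m => (hKCF _ (hF0 m) (hF m).cl).preimage continuous_subtype_val)
    (fun m m' hmm y hy => ⟨hanti hmm hy.1, hy.2⟩) (by
      rw [eq_empty_iff_forall_notMem]
      intro y hy
      refine y.2 ⟨mem_iInter.2 fun m => (mem_iInter.1 hy m).1, (mem_iInter.1 hy 0).2⟩)
  have hOo : ∀ m, IsOpen ((fun y : Y => (y : X)) '' W m) := fun m =>
    hYo.isOpenEmbedding_subtypeVal.isOpenMap _ (hWo m)
  -- tails
  have h3 : ∀ i m, m ≤ i → ∃ η < ω₁, G i \ U η ⊆ (fun y : Y => (y : X)) '' W m := by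
    intro i m hmi
    refine (hGB i).tail h hC hCl (hOo m) ?_
    rintro δ hδ x ⟨hx1, hx2⟩
    have hδ0 := (hC0s' (hC0s (hCs hδ)).1).2
    have hxF : x ∈ F m := hanti hmi (hGF i hx1)
    have hxK : x ∈ KC := mem_biUnion hδ hx2
    have hxY : x ∈ Y := by
      rintro ⟨h4, -⟩
      have h5 := hγ2 i ⟨hx1, h4⟩
      exact hx2.2 (h.mono _ _ ((hle i).trans hδ0.1.le) hδ0.2 h5)
    exact ⟨⟨x, hxY⟩, hFW m ⟨hxF, hxK⟩, rfl⟩
  have h3' : ∀ i m : ℕ, ∃ η : Ordinal.{0}, η < ω₁ ∧ (m ≤ i → G i \ U η ⊆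
      (fun y : Y => (y : X)) '' W m) := by
    intro i m
    by_cases h : m ≤ i
    · obtain ⟨η, h4, h5⟩ := h3 i m h
      exact ⟨η, h4, fun _ => h5⟩
    · exact ⟨0, Ordinal.omega_pos 1, fun h' => absurd h' h⟩
  choose η hη hη2 using h3'
  choose η' hη' hη'2 using fun i => seq_sup (η i) (hη i)
  obtain ⟨η'', hη'', hη''2⟩ := seq_sup η' hη'
  obtain ⟨hb1, hb2, hb3, hb4⟩ := hnx η'' hη''
  set β := nx η'' with hβdef
  have hβ : β < ω₁ := hC0.1 _ hb1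
  have h6 : ∀ i, ∃ g, g ∈ G i ∧ g ∈ bd (U β) := by
    intro i
    obtain ⟨g, hg⟩ := (hCi2 i β (hDi i (hC0s' (hC0s hb1).1).1)).2
    exact ⟨g, hg.1, hg.2⟩
  choose g hg1 hg2 using h6
  have hcpt : IsCompact (F 0 ∩ bd (U β)) := by
    have : F 0 ∩ bd (U β) = (F 0 ∩ closure (U β)) \ U β := by
      ext x
      constructor
      · rintro ⟨h7, h8, h9⟩
        exact ⟨⟨h7, h8⟩, h9⟩
      · rintro ⟨⟨h7, h8⟩, h9⟩
        exact ⟨h7, h8, h9⟩
    rw [this]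
    exact (hB.cpt β hβ).diff (h.opn β hβ)
  obtain ⟨p, ⟨hpB, hp⟩, hpc⟩ := seq_cluster hcpt g (fun i => ⟨hF0 i (hGF i (hg1 i)), hg2 i⟩)
  have hpK : p ∉ KC := by
    intro h7
    obtain ⟨δ, hδ, h8⟩ := mem_iUnion₂.1 h7
    have hne : δ ≠ β := fun h => hb3 (h ▸ hδ)
    exact hC0B.disj (hCs hδ) hb1 hne hpB h8 hp
  have hpY : p ∈ Y := fun h7 => hpK h7.2
  have h9 : (⟨p, hpY⟩ : Y) ∈ ⋂ m, closure (W m) := by
    refine mem_iInter.2 fun m => ?_
    rw [closure_subtype]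
    refine closure_mono ?_ (hpc m)
    rintro _ ⟨i, hi, rfl⟩
    refine hη2 i m (mem_Ici.1 hi) ⟨hg1 i, fun h10 => (hg2 i).2 ?_⟩
    exact h.mono _ _ (((hη'2 i m).trans (hη''2 i)).trans hb2.le) hβ h10
  rw [hWe] at h9
  exact h9

theorem Le.of_subset {F G : Set X} (h : F ⊆ G) : Le U F G := fun H _ hH hu => by
  rwa [inter_eq_left.2 (hH.trans h)]

theorem Le.mono {F G G' : Set X} (h : Le U F G) (hG : G ⊆ G') : Le U F G' := fun H hc hH hu =>
  (h H hc hH hu).mono (inter_subset_inter_right _ hG)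

/-- closed unbounded subsets of atoms are atoms -/
theorem Atom.sub {W F : Set X} (h : Atom U W) (hF : IsClosed F) (hFW : F ⊆ W) (hu : UBd U F) :
    Atom U F :=
  ⟨h.ob.mono hF hFW, hu, fun H H' h1 h2 h3 h4 h5 h6 =>
    h.at_ H H' h1 h2 (h3.trans hFW) (h4.trans hFW) h5 h6⟩

/-- atoms exist -/
theorem atom_exists (h : CI U) (hCP : ∀ S : Set X, CPara S) {F : Set X} (hF : OB U F)
    (hu : UBd U F) : ∃ W ⊆ F, Atom U W := by
  by_contra hcon
  push Not at hcon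
  have h1 : ∀ F' : Set X, ∃ H H' : Set X, (F' ⊆ F ∧ IsClosed F' ∧ UBd U F') →
      (IsClosed H ∧ IsClosed H' ∧ H ⊆ F' ∧ H' ⊆ F' ∧ UBd U H ∧ UBd U H' ∧
        ¬ UBd U (H ∩ H')) := by
    intro F'
    by_cases h : F' ⊆ F ∧ IsClosed F' ∧ UBd U F'
    · by_contra h2
      push Not at h2
      refine hcon F' h.1 ⟨hF.mono h.2.1 h.1, h.2.2, fun H H' h3 h4 h5 h6 h7 h8 => ?_⟩
      exact (h2 H H').2 h3 h4 h5 h6 h7 h8
    · exact ⟨∅, ∅, fun h' => absurd h' h⟩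
  choose H H' hH using h1
  let Fs : ℕ → Set X := fun n => Nat.rec F (fun _ A => H A) n
  have hFs : ∀ n, Fs (n + 1) = H (Fs n) := fun n => rfl
  have hgood : ∀ n, Fs n ⊆ F ∧ IsClosed (Fs n) ∧ UBd U (Fs n) := by
    intro n
    induction n with
    | zero => exact ⟨Subset.rfl, hF.cl, hu⟩
    | succ n ih =>
      have := hH (Fs n) ih
      rw [hFs]
      exact ⟨this.2.2.1.trans ih.1, this.1, this.2.2.2.2.1⟩
  have hanti : Antitone Fs := by
    apply antitone_nat_of_succ_le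
    intro n
    rw [hFs]
    exact (hH (Fs n) (hgood n)).2.2.1
  obtain ⟨i, hi⟩ := noeth h hCP (fun m => hF.mono (hgood m).2.1 (hgood m).1) hanti
  have h2 := hH (Fs i) (hgood i)
  have h3 := hi (H' (Fs i)) h2.2.1 h2.2.2.2.1 h2.2.2.2.2.2.1
  refine h2.2.2.2.2.2.2 (h3.mono ?_)
  rintro x ⟨hx1, hx2⟩
  refine ⟨?_, hx1⟩
  rw [← hFs]
  exact mem_iInter.1 hx2 (i + 1)

/-- Minimal sets which are not almost covered by finitely many atoms. -/
theorem big_exists (h : CI U) (hCP : ∀ S : Set X, CPara S) {B : Set X} (hB : OB U B)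
    (hs : ¬ Sm U B) :
    ∃ F ⊆ B, IsClosed F ∧ ¬ Sm U F ∧ ∀ F' ⊆ F, IsClosed F' → Le U F F' ∨ Sm U F' := by
  by_contra hcon
  push Not at hcon
  have h1 : ∀ F : Set X, ∃ F' : Set X, (F ⊆ B ∧ IsClosed F ∧ ¬ Sm U F) →
      (F' ⊆ F ∧ IsClosed F' ∧ ¬ Le U F F' ∧ ¬ Sm U F') := by
    intro F
    by_cases h : F ⊆ B ∧ IsClosed F ∧ ¬ Sm U F
    · obtain ⟨F', h1, h2, h3, h4⟩ := hcon F h.1 h.2.1 h.2.2
      exact ⟨F', fun _ => ⟨h1, h2, h3, h4⟩⟩
    · exact ⟨∅, fun h' => absurd h' h⟩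
  choose H hH using h1
  let Fs : ℕ → Set X := fun n => Nat.rec B (fun _ A => H A) n
  have hFs : ∀ n, Fs (n + 1) = H (Fs n) := fun n => rfl
  have hgood : ∀ n, Fs n ⊆ B ∧ IsClosed (Fs n) ∧ ¬ Sm U (Fs n) := by
    intro n
    induction n with
    | zero => exact ⟨Subset.rfl, hB.cl, hs⟩
    | succ n ih =>
      have := hH (Fs n) ih
      rw [hFs]
      exact ⟨this.1.trans ih.1, this.2.1, this.2.2.2⟩
  have hanti : Antitone Fs := by
    apply antitone_nat_of_succ_le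
    intro n
    rw [hFs]
    exact (hH (Fs n) (hgood n)).1
  obtain ⟨i, hi⟩ := noeth h hCP (fun m => hB.mono (hgood m).2.1 (hgood m).1) hanti
  refine (hH (Fs i) (hgood i)).2.2.1 fun G hG hGF hGu => ?_
  refine (hi G hG hGF hGu).mono (inter_subset_inter_right _ ?_)
  rw [← hFs]
  exact iInter_subset Fs (i + 1)

end

end Pool.Agent.Work.MP_ba58b9_gt
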