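import Pool.Agent.Work.MP_ba58b9_gt.Ma.Main

/-!
# The proper forcing axiom
-/

set_option autoImplicit false

open Set Filter Topology Ordinal

namespace Pool.Agent.Work.MP_ba58b9_gt

/-- Closed unbounded families of countable subsets of `Z`. -/
def CtblClub {Z : Type} (𝒞 : Set (Set Z)) : Prop :=
  (∀ M ∈ 𝒞, M.Countable) ∧ (∀ A : Set Z, A.Countable → ∃ M ∈ 𝒞, A ⊆ M) ∧
    ∀ M : ℕ → Set Z, (∀ k, M k ∈ 𝒞) → Monotone M → (⋃ k, M k) ∈ 𝒞

/-- Proper partial orders. -/
def ProperPo (P : Type) [Preorder P] : Prop :=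
  ∃ 𝒞 : Set (Set (P ⊕ Set P)), CtblClub 𝒞 ∧ ∀ M ∈ 𝒞, ∀ p : P, Sum.inl p ∈ M →
    ∃ q, q ≤ p ∧ ∀ D : Set P, Sum.inr D ∈ M → (∀ x, ∃ y ∈ D, y ≤ x) →
      ∀ r, r ≤ q → ∃ d ∈ D, Sum.inl d ∈ M ∧ ∃ s, s ≤ r ∧ s ≤ d

/-- The proper forcing axiom. -/
def PFA : Prop :=
  ∀ (P : Type) [Preorder P] [Nonempty P], ProperPo P →
    ∀ 𝒟 : Set (Set P), Cardinal.mk 𝒟 ≤ Cardinal.aleph 1 → (∀ D ∈ 𝒟, ∀ p, ∃ q ∈ D, q ≤ p) →
    ∃ F : Set P, F.Nonempty ∧ (∀ p ∈ F, ∀ q, p ≤ q → q ∈ F) ∧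
      (∀ p ∈ F, ∀ q ∈ F, ∃ r ∈ F, r ≤ p ∧ r ≤ q) ∧ ∀ D ∈ 𝒟, (F ∩ D).Nonempty

theorem list_ctbl {Z : Type} {B : Set Z} (hB : B.Countable) :
    {l : List Z | ∀ z ∈ l, z ∈ B}.Countable := by
  have : Countable B := hB.to_subtype
  rw [← Set.range_list_map_coe]
  exact Set.countable_range _

/-- closing off under a countable valued finitary operation gives a club -/
theorem club_closed {Z : Type} (G : List Z → Set Z) (hG : ∀ l, (G l).Countable) :
    CtblClub {M : Set Z | M.Countable ∧ ∀ l : List Z, (∀ z ∈ l, z ∈ M) → G l ⊆ M} := by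
  have key : ∀ N : ℕ → Set Z, Monotone N → ∀ l : List Z, (∀ z ∈ l, z ∈ ⋃ k, N k) →
      ∃ k, ∀ z ∈ l, z ∈ N k := by
    intro N hN l
    induction l with
    | nil => exact fun _ => ⟨0, fun z hz => absurd hz (List.not_mem_nil)⟩
    | cons a l ih =>
      intro h
      obtain ⟨k, hk⟩ := ih (fun z hz => h z (List.mem_cons_of_mem _ hz))
      obtain ⟨k', hk'⟩ := mem_iUnion.1 (h a List.mem_cons_self)
      refine ⟨max k k', fun z hz => ?_⟩
      rcases List.mem_cons.1 hz with rfl | hz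
      · exact hN (le_max_right _ _) hk'
      · exact hN (le_max_left _ _) (hk z hz)
  refine ⟨fun M hM => hM.1, ?_, ?_⟩
  · intro A hA
    let N : ℕ → Set Z := fun n => Nat.rec A
      (fun _ B => B ∪ ⋃ l ∈ {l : List Z | ∀ z ∈ l, z ∈ B}, G l) n
    have hN : ∀ n, N (n + 1) = N n ∪ ⋃ l ∈ {l : List Z | ∀ z ∈ l, z ∈ N n}, G l := fun n => rfl
    have hmono : Monotone N := by
      apply monotone_nat_of_le_succ
      intro n
      rw [hN]
      exact subset_union_left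
    have hc : ∀ n, (N n).Countable := by
      intro n
      induction n with
      | zero => exact hA
      | succ n ih =>
        rw [hN]
        exact ih.union ((list_ctbl ih).biUnion fun l _ => hG l)
    refine ⟨⋃ n, N n, ⟨countable_iUnion hc, ?_⟩, subset_iUnion N 0⟩
    intro l hl
    obtain ⟨k, hk⟩ := key N hmono l hl
    refine Subset.trans ?_ (subset_iUnion N (k + 1))
    rw [hN]
    refine subset_union_of_subset_right ?_ _
    exact subset_biUnion_of_mem (u := fun l => G l) hk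
  · intro M hM hmono
    refine ⟨countable_iUnion fun k => (hM k).1, ?_⟩
    intro l hl
    obtain ⟨k, hk⟩ := key M hmono l hl
    exact ((hM k).2 l hk).trans (subset_iUnion M k)

/-- partial orders with the countable chain condition are proper -/
theorem proper_of_ccc (P : Type) [Preorder P]
    (h : ∀ A : Set P, A.Pairwise (fun p q => ¬ ∃ r, r ≤ p ∧ r ≤ q) → A.Countable) :
    ProperPo P := by
  classical
  have hex : ∀ D : Set P, ∃ A, Maximal (fun A : Set P => A ⊆ D ∧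
      A.Pairwise (fun p q => ¬ ∃ r, r ≤ p ∧ r ≤ q)) A := by
    intro D
    refine zorn_subset _ ?_
    intro c hc hchain
    refine ⟨⋃₀ c, ⟨?_, ?_⟩, fun s hs => subset_sUnion_of_mem hs⟩
    · exact sUnion_subset fun s hs => (hc hs).1
    · rintro t ⟨s, hs, ht⟩ t' ⟨s', hs', ht'⟩ hne
      rcases hchain.total hs hs' with h | h
      · exact (hc hs').2 (h ht) ht' hne
      · exact (hc hs).2 ht (h ht') hne
  choose A hA using hex
  have hAc : ∀ D, (A D).Countable := fun D => h _ (hA D).1.2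
  let G : List (P ⊕ Set P) → Set (P ⊕ Set P) := fun l =>
    ⋃ x ∈ {x | x ∈ l}, ⋃ D ∈ {D : Set P | x = Sum.inr D}, Sum.inl '' A D
  have hG : ∀ l, (G l).Countable := by
    intro l
    refine (List.finite_toSet l).countable.biUnion fun x _ => ?_
    refine Set.Countable.biUnion ?_ fun D _ => (hAc D).image _
    apply Set.Subsingleton.countable
    intro D hD D' hD'
    exact Sum.inr.inj ((show x = Sum.inr D from hD).symm.trans (show x = Sum.inr D' from hD'))
  refine ⟨_, club_closed G hG, ?_⟩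
  rintro M ⟨hMc, hM⟩ p hp
  refine ⟨p, le_refl p, ?_⟩
  intro D hD hdense r hr
  have hAM : Sum.inl '' A D ⊆ M := by
    refine Subset.trans ?_ (hM [Sum.inr D] (by simpa using hD))
    refine subset_iUnion₂_of_subset (Sum.inr D) (by simp) ?_
    exact subset_iUnion₂_of_subset D rfl (Subset.refl _)
  obtain ⟨y, hyD, hyr⟩ := hdense r
  by_contra hcon
  push Not at hcon
  have hno : ∀ a ∈ A D, ¬ ∃ s, s ≤ y ∧ s ≤ a := by
    rintro a ha ⟨s, hs1, hs2⟩
    exact hcon a ((hA D).1.1 ha) (hAM ⟨a, ha, rfl⟩) s (hs1.trans hyr) hs2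
  have hyA : y ∉ A D := fun hy => hno y hy ⟨y, le_refl y, le_refl y⟩
  have h1 : insert y (A D) ≤ A D := by
    refine (hA D).2 ⟨?_, ?_⟩ (subset_insert _ _)
    · exact insert_subset hyD (hA D).1.1
    · refine (hA D).1.2.insert ?_
      intro a ha _
      refine ⟨hno a ha, ?_⟩
      rintro ⟨s, hs1, hs2⟩
      exact hno a ha ⟨s, hs2, hs1⟩
  exact hyA (h1 (mem_insert _ _))

theorem ma_of_pfa (h : PFA) : MA1 := by
  intro P _ _ hccc
  exact h P (proper_of_ccc P hccc)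

/-- suprema over countable sets -/
theorem ctbl_sup {ι : Type*} {s : Set ι} (hs : s.Countable) (f : ι → Ordinal.{0})
    (hf : ∀ i ∈ s, f i < ω₁) : ∃ δ < ω₁, ∀ i ∈ s, f i ≤ δ := by
  rcases s.eq_empty_or_nonempty with he | hne
  · exact ⟨0, Ordinal.omega_pos 1, by simp [he]⟩
  · obtain ⟨e, he⟩ := hs.exists_eq_range hne
    refine ⟨⨆ n, f (e n), Ordinal.iSup_lt_omega_one (fun n => hf _ (by
      rw [he]; exact ⟨n, rfl⟩)), fun b hb => ?_⟩
    rw [he] at hb
    obtain ⟨n, rfl⟩ := hb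
    exact Ordinal.le_iSup (fun n => f (e n)) n

end Pool.Agent.Work.MP_ba58b9_gt
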