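import Pool.Agent.Work.MP_ba58b9_gt.Ma.Main

/-!
# Hereditarily countably paracompact manifolds under the proper forcing axiom: statements of items
-/

set_option autoImplicit false

open Set Filter Topology Ordinal

namespace Pool.Agent.Work.MP_ba58b9_gt

/-- item SEP: in a hereditarily countably paracompact manifold closed sets in the closure of a
countable set whose countable subsets are relatively compact are compact. -/
def PSep : Prop := ∀ (n : ℕ) (X : Type) [TopologicalSpace X] [T2Space X], LocN n X →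
  (∀ S : Set X, CPara S) → ∀ Q A : Set X, Q.Countable → IsClosed A → A ⊆ closure Q →
    (∀ C ⊆ A, C.Countable → IsCompact (closure C)) → IsCompact A

/-- item PSEUDO: pseudo-intersections under Martin's axiom. -/
def PPseudo : Prop := MA1 → ∀ (I J : Type), Cardinal.mk J ≤ Cardinal.aleph 1 →
  ∀ (A : Set I) (a : J → Set I), A.Countable →
    (∀ (F : Set I) (s : Set J), F.Finite → s.Finite → ¬ A ⊆ F ∪ ⋃ j ∈ s, a j) →
      ∃ b ⊆ A, b.Infinite ∧ ∀ j, (b ∩ a j).Finite

/-- item PART: unbounded subsets of `ω₁` can be split into countably many unbounded pieces. -/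
def PPart : Prop := ∀ T : Set Ordinal.{0}, (∀ t ∈ T, t < ω₁) → (∀ β < ω₁, ∃ t ∈ T, β < t) →
  ∃ c : Ordinal.{0} → ℕ, ∀ k : ℕ, ∀ β < ω₁, ∃ t ∈ T, β < t ∧ c t = k

/-- item CHAIN: existence of chains adapted to a closed set `A`. -/
def PChain : Prop := ∀ (n : ℕ) (X : Type) [TopologicalSpace X] [T2Space X], LocN n X →
  ConnectedSpace X → ¬ SecondCountableTopology X → ∀ A : Set X, IsClosed A → ¬ IsCompact A →
    (∀ Q : Set X, Q.Countable → IsCompact (A ∩ closure Q)) →
      ∃ U N : Ordinal.{0} → Set X, IsChain U N ∧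
        (∀ α < ω₁, A ∩ closure (U α) ⊆ U (α + 1)) ∧ ∀ α < ω₁, (A ∩ (U (α + 1) \ U α)).Nonempty

end Pool.Agent.Work.MP_ba58b9_gt
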