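import Pool.Agent.Work.MP_ba58b9_gt.Pf.Noeth
import Pool.Agent.Work.MP_ba58b9_gt.Pf.Stmts

/-!
# Hereditarily countably paracompact manifolds under the proper forcing axiom: statements of items
-/

set_option autoImplicit false

open Set Filter Topology Ordinal

namespace Pool.Agent.Work.MP_ba58b9_gt

/-- unbounded sets of countable ordinals -/
def Cof (T : Set Ordinal.{0}) : Prop := ∀ β < ω₁, ∃ t ∈ T, β < t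

/-! ## Infinitely many atoms -/

/-- item ATOMS -/
def PAtoms : Prop := ∀ (X : Type) [TopologicalSpace X] (U : Ordinal.{0} → Set X), CI U →
  (∀ S : Set X, CPara S) → ∀ B : Set X, OB U B → ¬ Sm U B →
    ∃ W : ℕ → Set X, (∀ j, W j ⊆ B ∧ Atom U (W j)) ∧ (∀ i j, i ≠ j → Disjoint (W i) (W j)) ∧
      ∀ l, ∀ O : Set X, IsOpen O → W l ⊆ O → ∃ J, ∀ j, J ≤ j → ¬ UBd U (W j \ O)

/-- item HIT -/
def PHit : Prop := PPart → ∀ (X : Type) [TopologicalSpace X] [T2Space X]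
  (U : Ordinal.{0} → Set X), CI U → (∀ S : Set X, CPara S) → ∀ B : Set X, OB U B →
    ∀ C₁ : Set Ordinal.{0}, Lv U B C₁ → ∀ p : Ordinal.{0} → X, (∀ δ ∈ C₁, p δ ∈ B ∩ bd (U δ)) →
      ∀ W ⊆ B, IsClosed W →
        (∀ O : Set X, IsOpen O → W ⊆ O → ∃ γ < ω₁, ∀ δ ∈ C₁, γ < δ → p δ ∈ closure O) →
          ∀ T ⊆ C₁, Cof T → UBd U (closure (p '' T) ∩ W)

/-- item INF -/
def PInf : Prop := PFA → ∀ (X : Type) [TopologicalSpace X] [T2Space X] [LocallyCompactSpace X]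
  (U : Ordinal.{0} → Set X), CI U → (∀ S : Set X, CPara S) → ∀ B : Set X, OB U B → Sm U B

/-! ## Finitely many atoms -/

/-- item COMP -/
def PComp : Prop := MA1 → ∀ n : ℕ, 2 ≤ n → ∀ (X : Type) [TopologicalSpace X] [T2Space X],
  LocN n X → (∀ S : Set X, CPara S) → ∀ U : Ordinal.{0} → Set X, CI U →
    (∀ α < ω₁, ∃ Q : Set X, Q.Countable ∧ U α ⊆ closure Q) → ∀ Om : Set X, IsOpen Om →
      (∀ x ∈ Om, ∃ α < ω₁, x ∈ U α) →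
      (∀ E ⊆ Om, IsClosed E → (∀ C ⊆ E, C.Countable → IsCompact (closure C)) → IsCompact E) →
        ∃ C, Club C ∧ ∀ δ ∈ C, Lim δ ∧ Om ∩ bd (U δ) = ∅

/-- item TRACE -/
def PTrace : Prop := MA1 → ∀ n : ℕ, 2 ≤ n → ∀ (X : Type) [TopologicalSpace X] [T2Space X],
  LocN n X → (∀ S : Set X, CPara S) → ∀ U : Ordinal.{0} → Set X, CI U →
    (∀ α < ω₁, ∃ Q : Set X, Q.Countable ∧ U α ⊆ closure Q) → ∀ W O : Set X, Atom U W →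
      IsOpen O → W ⊆ O → OB U (closure O) → Sm U (closure O) →
        ∃ A V : Set X, Atom U A ∧ A ⊆ O ∧ IsClosed V ∧ ¬ UBd U (A ∩ V) ∧
          ∀ Z ⊆ A, IsClosed Z → UBd U Z → ∃ C, Club C ∧ ∀ δ ∈ C, Lim δ ∧ O ∩ bd (U δ) ⊆ Z ∪ V

/-- item ISO -/
def PIsoF : Prop := PFA → ∀ (X : Type) [TopologicalSpace X] [T2Space X]
  (U : Ordinal.{0} → Set X), CI U → Stat {δ | Lim δ ∧ ∀ e, ¬ Iso (bd (U δ)) e} →
    ∀ O A V : Set X, IsOpen O → Atom U A → A ⊆ O → IsClosed V → ¬ UBd U (A ∩ V) →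
      ¬ ∀ Z ⊆ A, IsClosed Z → UBd U Z → ∃ C, Club C ∧ ∀ δ ∈ C, Lim δ ∧ O ∩ bd (U δ) ⊆ Z ∪ V

/-! ## Neighbourhoods of closed sets with compact traces -/

/-- item NBHD -/
def PNbhd : Prop := ∀ (n : ℕ) (X : Type) [TopologicalSpace X] [T2Space X], LocN n X →
  ∀ K G : Set X, IsCompact K → IsOpen G → K ⊆ G →
    ∃ V : ℕ → Set X, Antitone V ∧ (∀ i, IsOpen (V i) ∧ K ⊆ V i) ∧ IsCompact (closure (V 0)) ∧
      closure (V 0) ⊆ G ∧ (∀ O, IsOpen O → K ⊆ O → ∃ i, V i ⊆ O) ∧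
      ∀ i, ∀ z ∈ V i, ∃ Q ⊆ V i, IsPreconnected Q ∧ z ∈ Q ∧ (Q ∩ K).Nonempty

/-- Neighbourhoods of the traces of `W` on the boundaries (`V`), and compact neighbourhoods of
the traces of `W` (`N`). -/
structure TD {X : Type} [TopologicalSpace X] (U : Ordinal.{0} → Set X) (W : Set X)
    (C₁ : Set Ordinal.{0}) (V : Ordinal.{0} → ℕ → Set X) (N : Ordinal.{0} → Set X) : Prop where
  lv : Lv U W C₁
  ne : ∀ δ ∈ C₁, (W ∩ bd (U δ)).Nonempty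
  anti : ∀ ε ∈ C₁, Antitone (V ε)
  opn : ∀ ε ∈ C₁, ∀ i, IsOpen (V ε i)
  sub : ∀ ε ∈ C₁, ∀ i, W ∩ bd (U ε) ⊆ V ε i
  cpt : ∀ ε ∈ C₁, IsCompact (closure (V ε 0))
  low : ∀ δ ∈ C₁, ∀ ε ∈ C₁, ε < δ → closure (V ε 0) ⊆ U δ
  base : ∀ ε ∈ C₁, ∀ O : Set X, IsOpen O → W ∩ bd (U ε) ⊆ O → ∃ i, V ε i ⊆ O
  conn : ∀ ε ∈ C₁, ∀ i, ∀ z ∈ V ε i, ∃ Q ⊆ V ε i, IsPreconnected Q ∧ z ∈ Q ∧
    (Q ∩ (W ∩ bd (U ε))).Nonempty
  ncpt : ∀ δ ∈ C₁, IsCompact (N δ)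
  nint : ∀ δ ∈ C₁, W ∩ closure (U δ) ⊆ interior (N δ)
  nbd : ∀ δ ∈ C₁, ∃ β < ω₁, N δ ⊆ U β

/-- item TDEX -/
def PTdex : Prop := ∀ (n : ℕ) (X : Type) [TopologicalSpace X] [T2Space X], LocN n X →
  ∀ U : Ordinal.{0} → Set X, CI U → ∀ W : Set X, OB U W → UBd U W → ∃ C₁ V N, TD U W C₁ V N

/-- item NOWILD -/
def PNoWild : Prop := PPart → ∀ (X : Type) [TopologicalSpace X] [T2Space X],
  (∀ S : Set X, CPara S) → ∀ U : Ordinal.{0} → Set X, CI U → ∀ W : Set X, OB U W →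
    ∀ (C₁ : Set Ordinal.{0}) (V : Ordinal.{0} → ℕ → Set X) (N : Ordinal.{0} → Set X),
      TD U W C₁ V N → ∀ S D : Set Ordinal.{0}, S ⊆ C₁ → Cof S → Club D → D ⊆ C₁ →
        ¬ ∀ δ ∈ D, ∀ n, ∃ β < δ, ∀ s ∈ S, β < s → s < δ → ¬ V s n ⊆ N δ

/-- The union of the neighbourhoods `V ε n`, `ε ∈ A`, is contained in a compact subset of a member
of the chain. -/
def Rc {X : Type} [TopologicalSpace X] (U : Ordinal.{0} → Set X) (V : Ordinal.{0} → ℕ → Set X)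
    (A : Set Ordinal.{0}) (n : ℕ) : Prop :=
  ∃ K : Set X, IsCompact K ∧ (∃ α < ω₁, K ⊆ U α) ∧ (⋃ ε ∈ A, V ε n) ⊆ K

/-- Tame sets of levels. -/
def Tm {X : Type} [TopologicalSpace X] (U : Ordinal.{0} → Set X) (V : Ordinal.{0} → ℕ → Set X)
    (A : Set Ordinal.{0}) : Prop :=
  ∃ n, ∀ A' ⊆ A, A'.Countable → Rc U V A' n

/-- item SM1 -/
def PSm1 : Prop := MA1 → PPseudo → ∀ (X : Type) [TopologicalSpace X] [T2Space X],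
  ∀ U : Ordinal.{0} → Set X, CI U → ∀ W : Set X, OB U W →
    ∀ (C₁ : Set Ordinal.{0}) (V : Ordinal.{0} → ℕ → Set X) (N : Ordinal.{0} → Set X),
      TD U W C₁ V N → ∀ A ⊆ C₁, ¬ Tm U V A → ∃ b ⊆ A, b.Countable ∧ b.Infinite ∧
        ∀ δ ∈ C₁, ∀ n, {ε | ε ∈ b ∧ V ε n ⊆ N δ}.Finite

/-- item SM2 -/
def PSm2 : Prop := PSep → ∀ (n : ℕ) (X : Type) [TopologicalSpace X] [T2Space X], LocN n X →
  (∀ S : Set X, CPara S) → ∀ U : Ordinal.{0} → Set X, CI U →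
    (∀ α < ω₁, ∃ Q : Set X, Q.Countable ∧ U α ⊆ closure Q) → ∀ W : Set X, OB U W →
    ∀ (C₁ : Set Ordinal.{0}) (V : Ordinal.{0} → ℕ → Set X) (N : Ordinal.{0} → Set X),
      TD U W C₁ V N → ∀ A : ℕ → Set Ordinal.{0}, (∀ k, A k ⊆ C₁ ∧ Tm U V (A k)) →
        ∀ β < ω₁, (∀ δ ∈ C₁, β < δ → ∃ k, δ ∈ A k) →
          ∃ O : Set X, IsOpen O ∧ OB U (closure O) ∧
            W ∩ (⋃ δ ∈ {δ | δ ∈ C₁ ∧ β < δ}, bd (U δ)) ⊆ O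

/-- item PID -/
def PPid : Prop := PFA → ∀ (X : Type) [TopologicalSpace X] (U : Ordinal.{0} → Set X)
  (W : Set X) (C₁ : Set Ordinal.{0}) (V : Ordinal.{0} → ℕ → Set X) (N : Ordinal.{0} → Set X),
    TD U W C₁ V N →
    (∀ A ⊆ C₁, ¬ Tm U V A → ∃ b ⊆ A, b.Countable ∧ b.Infinite ∧
        ∀ δ ∈ C₁, ∀ n, {ε | ε ∈ b ∧ V ε n ⊆ N δ}.Finite) →
    (∀ A : ℕ → Set Ordinal.{0}, (∀ k, A k ⊆ C₁ ∧ Tm U V (A k)) → ∀ β < ω₁,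
      ∃ δ ∈ C₁, β < δ ∧ ∀ k, δ ∉ A k) →
    ∃ S D : Set Ordinal.{0}, S ⊆ C₁ ∧ Cof S ∧ Club D ∧ D ⊆ C₁ ∧
      ∀ δ ∈ D, ∀ n, ∃ β < δ, ∀ s ∈ S, β < s → s < δ → ¬ V s n ⊆ N δ

end Pool.Agent.Work.MP_ba58b9_gt
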