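import Pool.Agent.Work.MP_ba58b9_gt.Ma.Main

/-!
# One-dimensional manifolds: statements of items
-/

set_option autoImplicit false

open Set Filter Topology

namespace Pool.Agent.Work.MP_ba58b9_gt

/-- Complements of connected open sets in a chart are convex. -/
theorem ray {X : Type} [TopologicalSpace X] [T2Space X] {N : Set X} (hN : IsOpen N)
    (φ : N ≃ₜ ℝ) {C : Set X} (hC : IsPreconnected C) (hCN : ¬ C ⊆ N) {x y z : N}
    (hxy : φ x < φ y) (hyz : φ y < φ z) (hx : (x : X) ∉ C) (hz : (z : X) ∉ C) : (y : X) ∉ C := by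
  intro hy
  set G : Set X := (fun w : N => (w : X)) '' (φ ⁻¹' Ioo (φ x) (φ z)) with hG
  set F : Set X := (fun w : N => (w : X)) '' (φ ⁻¹' Icc (φ x) (φ z)) with hF
  have hGo : IsOpen G :=
    hN.isOpenEmbedding_subtypeVal.isOpenMap _ (isOpen_Ioo.preimage φ.continuous)
  have hFc : IsClosed F := by
    apply IsCompact.isClosed
    have h1 : IsCompact (φ ⁻¹' Icc (φ x) (φ z)) := φ.isCompact_preimage.2 isCompact_Icc
    exact h1.image continuous_subtype_val
  have hGF : C ∩ F ⊆ G := by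
    rintro w ⟨hwC, v, hv, rfl⟩
    refine ⟨v, ⟨lt_of_le_of_ne hv.1 ?_, lt_of_le_of_ne hv.2 ?_⟩, rfl⟩
    · intro h
      have h1 : x = v := φ.injective h
      exact hx (h1 ▸ hwC)
    · intro h
      have h1 : v = z := φ.injective h
      exact hz (h1 ▸ hwC)
  have h1 : C ⊆ G := by
    refine hC.subset_left_of_subset_union hGo hFc.isOpen_compl ?_ ?_ ⟨y, hy, y, ⟨hxy, hyz⟩, rfl⟩
    · rw [disjoint_left]
      rintro w ⟨v, hv, rfl⟩ h2
      exact h2 ⟨v, Ioo_subset_Icc_self hv, rfl⟩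
    · intro w hw
      by_cases h2 : w ∈ F
      · exact Or.inl (hGF ⟨hw, h2⟩)
      · exact Or.inr h2
  apply hCN
  intro w hw
  obtain ⟨v, -, rfl⟩ := h1 hw
  exact v.2

/-- item ENDS: connected open sets in one-dimensional manifolds have at most two frontier
points. -/
def PEnds : Prop := ∀ (X : Type) [TopologicalSpace X] [T2Space X],
  (∀ x : X, ∃ N : Set X, IsOpen N ∧ x ∈ N ∧ Nonempty (N ≃ₜ ℝ)) →
    ∀ L : Set X, IsOpen L → IsPreconnected L →
      ∀ e₁ ∈ frontier L, ∀ e₂ ∈ frontier L, ∀ e₃ ∈ frontier L, e₁ = e₂ ∨ e₁ = e₃ ∨ e₂ = e₃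

/-- item NORMONE: one-dimensional manifolds are normal. -/
def PNormOne : Prop := ∀ (X : Type) [TopologicalSpace X] [T2Space X],
  (∀ x : X, ∃ N : Set X, IsOpen N ∧ x ∈ N ∧ Nonempty (N ≃ₜ ℝ)) → NormalSpace X

end Pool.Agent.Work.MP_ba58b9_gt
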